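import Pool.Agent.Helper923.PNT
import Mathlib

/-! From the von Mangoldt weights to the primes. -/

set_option autoImplicit false

namespace Pool.Agent.U637.NR
open Finset Filter Topology Complex
open ArithmeticFunction (vonMangoldt)

lemma Icc_filter_prime (N : ℕ) : (Icc 1 N).filter Nat.Prime = (range (N + 1)).filter Nat.Prime := by
  ext p
  simp only [mem_filter, mem_Icc, mem_range]
  constructor
  · rintro ⟨h1, h2⟩; exact ⟨by omega, h2⟩
  · rintro ⟨h1, h2⟩; exact ⟨⟨h2.one_lt.le, by omega⟩, h2⟩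

lemma psi_sum (N : ℕ) : Chebyshev.psi N = ∑ n ∈ Icc 1 N, vonMangoldt n := by
  rw [Chebyshev.psi, Nat.floor_natCast]
  rfl

lemma theta_sum (N : ℕ) : Chebyshev.theta N = ∑ p ∈ (range (N + 1)).filter Nat.Prime, Real.log p := by
  rw [Chebyshev.theta, Nat.floor_natCast, ← Icc_filter_prime]
  rfl

lemma theta_sum' (N : ℕ) : Chebyshev.theta N = ∑ p ∈ (Icc 1 N).filter Nat.Prime, vonMangoldt p := by
  rw [theta_sum, Icc_filter_prime]
  apply sum_congr rfl
  intro p hp
  rw [ArithmeticFunction.vonMangoldt_apply_prime (mem_filter.1 hp).2]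

/-- the mean value over the primes from the mean value with the von Mangoldt weights -/
theorem mean_primes (c : ℕ → ℂ) (D : ℝ) (hc : ∀ n, ‖c n‖ ≤ D) (δ : ℂ)
    (h : Tendsto (fun x : ℝ => (∑ n ∈ Icc 1 ⌊x⌋₊, (vonMangoldt n : ℂ) * c n) / (x : ℂ)) atTop (𝓝 δ)) :
    Tendsto (fun N : ℕ => (∑ p ∈ (range (N + 1)).filter Nat.Prime, c p) / (Nat.primeCounting N : ℂ))
      atTop (𝓝 δ) := by
  have hD : 0 ≤ D := (norm_nonneg _).trans (hc 0)
  set A : ℕ → ℂ := fun N => ∑ p ∈ (range (N + 1)).filter Nat.Prime, c p with hA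
  set T : ℕ → ℂ := fun N => ∑ p ∈ (range (N + 1)).filter Nat.Prime, (Real.log p : ℂ) * c p with hTd
  have hpi : Tendsto (fun N : ℕ => (Nat.primeCounting N : ℝ) * Real.log N / N) atTop (𝓝 1) := by
    have := Pool.Agent.Helper923.PNT.pi_tendsto.comp (tendsto_natCast_atTop_atTop (R := ℝ))
    refine this.congr fun N => ?_
    simp only [Function.comp, Nat.floor_natCast]
  have hth : Tendsto (fun N : ℕ => Chebyshev.theta N / N) atTop (𝓝 1) :=
    Pool.Agent.Helper923.PNT.theta_div_tendsto.comp (tendsto_natCast_atTop_atTop (R := ℝ))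
  have hps : Tendsto (fun N : ℕ => Chebyshev.psi N / N) atTop (𝓝 1) :=
    Pool.Agent.Helper923.PNT.psi_div_tendsto.comp (tendsto_natCast_atTop_atTop (R := ℝ))
  have hN : Tendsto (fun N : ℕ => (∑ n ∈ Icc 1 N, (vonMangoldt n : ℂ) * c n) / (N : ℂ)) atTop (𝓝 δ) := by
    have := h.comp (tendsto_natCast_atTop_atTop (R := ℝ))
    refine this.congr fun N => ?_
    simp only [Function.comp, Nat.floor_natCast, Complex.ofReal_natCast]
  -- the prime powers
  have hT : Tendsto (fun N : ℕ => T N / N) atTop (𝓝 δ) := by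
    have h2 : Tendsto (fun N : ℕ => D * (Chebyshev.psi N / N - Chebyshev.theta N / N)) atTop (𝓝 0) := by
      have := (hps.sub hth).const_mul D
      simpa using this
    have h3 : Tendsto (fun N : ℕ => (∑ n ∈ Icc 1 N, (vonMangoldt n : ℂ) * c n) / (N : ℂ) - T N / N)
        atTop (𝓝 0) := by
      refine squeeze_zero_norm (fun N => ?_) h2
      have e1 : T N = ∑ k ∈ (Icc 1 N).filter Nat.Prime, (vonMangoldt k : ℂ) * c k := by
        rw [hTd, Icc_filter_prime]
        refine sum_congr rfl fun p hp => ?_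
        rw [ArithmeticFunction.vonMangoldt_apply_prime (mem_filter.mp hp).2]
      have e2 : ∑ n ∈ Icc 1 N, (vonMangoldt n : ℂ) * c n - T N =
          ∑ k ∈ (Icc 1 N).filter (fun k => ¬ Nat.Prime k), (vonMangoldt k : ℂ) * c k := by
        rw [e1, ← sum_filter_add_sum_filter_not (Icc 1 N) Nat.Prime]
        ring
      have e3 : Chebyshev.psi N - Chebyshev.theta N =
          ∑ k ∈ (Icc 1 N).filter (fun k => ¬ Nat.Prime k), vonMangoldt k := by
        rw [psi_sum, theta_sum', ← sum_filter_add_sum_filter_not (Icc 1 N) Nat.Prime]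
        ring
      rw [← sub_div, e2, norm_div, ← sub_div, e3, ← mul_div_assoc]
      have e4 : ‖(N : ℂ)‖ = N := by simp
      rw [e4]
      refine div_le_div_of_nonneg_right ?_ (Nat.cast_nonneg _)
      rw [mul_sum]
      refine (norm_sum_le _ _).trans (sum_le_sum fun k _ => ?_)
      rw [norm_mul, Complex.norm_real, Real.norm_of_nonneg ArithmeticFunction.vonMangoldt_nonneg, mul_comm]
      exact mul_le_mul_of_nonneg_right (hc k) ArithmeticFunction.vonMangoldt_nonneg
    have h4 := hN.sub h3
    rw [sub_zero] at h4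
    exact h4.congr fun N => by ring
  have hdiff : ∀ N : ℕ, ‖A N * ((Real.log N : ℝ) : ℂ) - T N‖ ≤
      D * ((Nat.primeCounting N : ℝ) * Real.log N - Chebyshev.theta N) := by
    intro N
    have e1 : A N * ((Real.log N : ℝ) : ℂ) - T N = ∑ p ∈ (range (N + 1)).filter Nat.Prime,
        ((Real.log N - Real.log p : ℝ) : ℂ) * c p := by
      rw [hA, hTd]
      simp only
      rw [sum_mul, ← sum_sub_distrib]
      exact sum_congr rfl fun p _ => by push_cast; ring
    have e2 : (Nat.primeCounting N : ℝ) * Real.log N - Chebyshev.theta N =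
        ∑ p ∈ (range (N + 1)).filter Nat.Prime, (Real.log N - Real.log p) := by
      rw [theta_sum, sum_sub_distrib, sum_const, nsmul_eq_mul]
      congr 3
      unfold Nat.primeCounting Nat.primeCounting'
      rw [Nat.count_eq_card_filter_range]
    have hlog : ∀ p ∈ (range (N + 1)).filter Nat.Prime, 0 ≤ Real.log N - Real.log p := by
      intro p hp
      rw [mem_filter, mem_range] at hp
      have h1 : (0 : ℝ) < p := by exact_mod_cast hp.2.pos
      have h2 : (p : ℝ) ≤ N := by exact_mod_cast Nat.lt_succ_iff.mp hp.1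
      have := Real.log_le_log h1 h2
      linarith
    rw [e1, e2, mul_sum]
    refine (norm_sum_le _ _).trans (sum_le_sum fun p hp => ?_)
    rw [norm_mul, Complex.norm_real, Real.norm_of_nonneg (hlog p hp), mul_comm]
    exact mul_le_mul_of_nonneg_right (hc p) (hlog p hp)
  have h0 : Tendsto (fun N : ℕ => D * ((Nat.primeCounting N : ℝ) * Real.log N / N -
      Chebyshev.theta N / N)) atTop (𝓝 0) := by
    have := (hpi.sub hth).const_mul D
    simpa using this
  have h1 : Tendsto (fun N : ℕ => A N * ((Real.log N : ℝ) : ℂ) / N - T N / N) atTop (𝓝 0) := by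
    refine squeeze_zero_norm (fun N => ?_) h0
    rw [← sub_div, norm_div, ← sub_div, ← mul_div_assoc]
    have e4 : ‖(N : ℂ)‖ = N := by simp
    rw [e4]
    exact div_le_div_of_nonneg_right (hdiff N) (Nat.cast_nonneg _)
  have h2 : Tendsto (fun N : ℕ => A N * ((Real.log N : ℝ) : ℂ) / N) atTop (𝓝 δ) := by
    have := h1.add hT
    rw [zero_add] at this
    exact this.congr fun N => by ring
  have hpi' : Tendsto (fun N : ℕ => (((Nat.primeCounting N : ℝ) * Real.log N / N : ℝ) : ℂ)) atTop
      (𝓝 ((1 : ℝ) : ℂ)) := (Complex.continuous_ofReal.tendsto _).comp hpi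
  have h3 := h2.div hpi' (by simp)
  rw [ofReal_one, div_one] at h3
  refine h3.congr' ?_
  filter_upwards [eventually_ge_atTop 2] with N hN
  have hl : ((Real.log N : ℝ) : ℂ) ≠ 0 := by
    have : 0 < Real.log N := Real.log_pos (by exact_mod_cast hN)
    exact_mod_cast this.ne'
  have hN0 : (N : ℂ) ≠ 0 := by
    have : N ≠ 0 := by omega
    exact_mod_cast this
  have hp : (Nat.primeCounting N : ℂ) ≠ 0 := by
    have : Nat.primeCounting N ≠ 0 := by
      rw [Ne, Nat.primeCounting_eq_zero_iff]
      omega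
    exact_mod_cast this
  simp only [Pi.div_apply]
  push_cast
  have hl' : Complex.log (N : ℂ) ≠ 0 := by
    rw [← Complex.natCast_log]
    exact hl
  field_simp
  rfl

end Pool.Agent.U637.NR
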