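import Pool.Agent.U637.NR.A1
import Pool.Agent.N864.RC.Pnt
import Pool.Agent.N784.AD.Cl
import Pool.Agent.N784.DU.Orth
import Pool.Agent.Y772.HG.Tot

/-! The prime ideal theorem for the functions of the narrow ray classes. -/

set_option autoImplicit false
set_option linter.unusedSectionVars false

namespace Pool.Agent.U637.NR
open NumberField Finset Filter Topology
open ArithmeticFunction (vonMangoldt)
open Pool.Agent.Y767 (Mq Mq_cop Mq_ne_bot Mq_cancel Cls cls cls_pi card_dual finite_dual)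
open Pool.Agent.N784.AD (T1 pi1 T1_one T1_tp T1_cop pi1_coe cls_card_le exists_rep)
open Pool.Agent.Y773.IQ (ofM' ofM'_pos ofM'_supp cop_one)
open Pool.Agent.Y772.DK (NN NN_finite cc_prime norm_cc_le)
open Pool.Agent.Y773 (cc)
open Pool.Agent.Y773.G (IsModChar)

/-- the ideals of norm `n` -/
noncomputable def Sid (K : Type) [Field K] [NumberField K] (n : ℕ) : Finset (Ideal (𝓞 K)) :=
  (NN_finite (K := K) n).toFinset

variable {K : Type} [Field K] [NumberField K]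

lemma mem_Sid {n : ℕ} {𝔞 : Ideal (𝓞 K)} : 𝔞 ∈ Sid K n ↔ Ideal.absNorm 𝔞 = n := by
  unfold Sid
  rw [Set.Finite.mem_toFinset]
  rfl

open Classical in
/-- the sum of the values of a function of the classes over the ideals of norm `n` -/
noncomputable def cF {𝔪 : Ideal (𝓞 K)} (htop : 𝔪 ≠ ⊤) (F : Cls (pi1 htop) → ℂ) (n : ℕ) : ℂ :=
  ∑ 𝔮 ∈ Sid K n, if h : IsCoprime 𝔮 𝔪 then F (cls (pi1 htop) ⟨𝔮, h⟩) else 0

/-- the character of the ideals -/
noncomputable def ch {𝔪 : Ideal (𝓞 K)} (htop : 𝔪 ≠ ⊤) (l : Cls (pi1 htop) →* ℂˣ) : Ideal (𝓞 K) →*₀ ℂ :=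
  ofM' htop (l.comp (cls (pi1 htop)))

lemma ch_mod {𝔪 : Ideal (𝓞 K)} (hbot : 𝔪 ≠ ⊥) (htop : 𝔪 ≠ ⊤) (l : Cls (pi1 htop) →* ℂˣ) :
    ∃ e, IsModChar 𝔪 e (ch htop l) := by
  refine Pool.Agent.Y772.G.exists_sig hbot htop (fun 𝔞 _ => ofM'_supp htop _ 𝔞) ?_
  intro x _ hx1 hx2
  unfold ch
  rw [ofM'_pos htop _ (cop_one hx1)]
  have h1 := cls_pi (pi1 htop) ⟨x, hx1, hx2⟩
  have h2 : (⟨Ideal.span {x}, cop_one hx1⟩ : Mq 𝔪) = pi1 htop ⟨x, hx1, hx2⟩ := rfl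
  rw [h2, MonoidHom.comp_apply, h1, map_one, Units.val_one]

lemma cc_ch {𝔪 : Ideal (𝓞 K)} (htop : 𝔪 ≠ ⊤) (l : Cls (pi1 htop) →* ℂˣ) {p : ℕ} (hp : p.Prime) :
    cc (ch htop l) p = cF htop (fun C => ((l C : ℂˣ) : ℂ)) p := by
  classical
  rw [cc_prime _ hp]
  unfold cF
  have h1 : {𝔭 : Ideal (𝓞 K) | Ideal.absNorm 𝔭 = p} = ↑(Sid K p) := by
    ext 𝔭
    rw [mem_coe, mem_Sid]
    rfl
  rw [h1, finsum_mem_coe_finset]
  apply sum_congr rfl
  intro 𝔮 _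
  by_cases h : IsCoprime 𝔮 𝔪
  · rw [dif_pos h]
    unfold ch
    rw [ofM'_pos htop _ h]
    rfl
  · rw [dif_neg h]
    by_contra h2
    exact h ((ofM'_supp htop _ 𝔮).1 h2)

/-- the mean value of a character -/
lemma mean_ch {𝔪 : Ideal (𝓞 K)} (hbot : 𝔪 ≠ ⊥) (htop : 𝔪 ≠ ⊤) (l : Cls (pi1 htop) →* ℂˣ) [Decidable (l = 1)] :
    Tendsto (fun N : ℕ => (∑ p ∈ (range (N + 1)).filter Nat.Prime, cF htop (fun C => ((l C : ℂˣ) : ℂ)) p) /
      (Nat.primeCounting N : ℂ)) atTop (𝓝 (if l = 1 then 1 else 0)) := by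
  obtain ⟨e, he⟩ := ch_mod hbot htop l
  obtain ⟨δ, -, h0, h1, h2⟩ := Pool.Agent.N864.RC.rc1 K 𝔪 e (ch htop l) he
  have h3 := mean_primes (cc (ch htop l)) _ (norm_cc_le _ (Pool.Agent.Y772.G.mc_le he)) δ h2
  have h4 : (δ : ℂ) = if l = 1 then 1 else 0 := by
    split_ifs with h
    · rw [h1, Complex.ofReal_one]
      intro 𝔞 h𝔞
      unfold ch
      rw [ofM'_pos htop _ h𝔞, h]
      rfl
    · rw [h0, Complex.ofReal_zero]
      have h5 : ∃ C, l C ≠ 1 := by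
        by_contra h6
        push Not at h6
        exact h (MonoidHom.ext h6)
      obtain ⟨C, hC⟩ := h5
      obtain ⟨𝔞, rfl⟩ := exists_rep hbot htop C
      refine ⟨𝔞, Mq_cop 𝔞, ?_⟩
      unfold ch
      rw [ofM'_pos htop _ (Mq_cop 𝔞)]
      intro h6
      exact hC (Units.ext h6)
  rw [h4] at h3
  refine h3.congr fun N => ?_
  congr 1
  apply sum_congr rfl
  intro p hp
  exact cc_ch htop l (mem_filter.1 hp).2

/-- functions on the class group are sums of characters -/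
lemma four {G : Type} [CommGroup G] [Finite G] [Fintype G] [Fintype (G →* ℂˣ)] (F : G → ℂ) (C : G) :
    F C = ∑ l : G →* ℂˣ, ((∑ D, F D * ((l D⁻¹ : ℂˣ) : ℂ)) / (Nat.card G : ℂ)) * ((l C : ℂˣ) : ℂ) := by
  classical
  have h0 : (Nat.card G : ℂ) ≠ 0 := by
    exact_mod_cast Nat.card_pos.ne'
  have h1 : ∀ l : G →* ℂˣ, ((∑ D, F D * ((l D⁻¹ : ℂˣ) : ℂ)) / (Nat.card G : ℂ)) * ((l C : ℂˣ) : ℂ) =
      (∑ D, F D * ((l (C * D⁻¹) : ℂˣ) : ℂ)) / (Nat.card G : ℂ) := by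
    intro l
    rw [div_mul_eq_mul_div, sum_mul]
    congr 1
    apply sum_congr rfl
    intro D _
    rw [map_mul, Units.val_mul]
    ring
  simp only [h1]
  rw [← sum_div, sum_comm]
  have h2 : ∀ D, ∑ l : G →* ℂˣ, F D * ((l (C * D⁻¹) : ℂˣ) : ℂ) = if C = D then F D * Nat.card G else 0 := by
    intro D
    rw [← mul_sum, Pool.Agent.N784.DU.dual_sum]
    by_cases h : C = D
    · rw [if_pos h, if_pos (by rw [h, mul_inv_cancel])]
    · rw [if_neg h, if_neg (fun h3 => h (mul_inv_eq_one.1 h3)), mul_zero]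
  simp only [h2]
  rw [sum_ite_eq]
  simp only [mem_univ, if_true]
  field_simp

lemma cF_sum {𝔪 : Ideal (𝓞 K)} (htop : 𝔪 ≠ ⊤) {ι : Type} (s : Finset ι) (a : ι → ℂ)
    (F : ι → Cls (pi1 htop) → ℂ) (n : ℕ) :
    cF htop (fun C => ∑ i ∈ s, a i * F i C) n = ∑ i ∈ s, a i * cF htop (F i) n := by
  classical
  unfold cF
  simp only [mul_sum]
  rw [sum_comm]
  apply sum_congr rfl
  intro 𝔮 _
  by_cases h : IsCoprime 𝔮 𝔪
  · rw [dif_pos h]
    apply sum_congr rfl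
    intro i _
    rw [dif_pos h]
  · rw [dif_neg h]
    symm
    apply sum_eq_zero
    intro i _
    rw [dif_neg h, mul_zero]

/-- **the prime ideal theorem** for the functions of the narrow ray classes -/
theorem mean_cF {𝔪 : Ideal (𝓞 K)} (hbot : 𝔪 ≠ ⊥) (htop : 𝔪 ≠ ⊤) [Fintype (Cls (pi1 htop))]
    (F : Cls (pi1 htop) → ℂ) :
    Tendsto (fun N : ℕ => (∑ p ∈ (range (N + 1)).filter Nat.Prime, cF htop F p) /
      (Nat.primeCounting N : ℂ)) atTop (𝓝 ((∑ C, F C) / (Nat.card (Cls (pi1 htop)) : ℂ))) := by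
  classical
  have := (cls_card_le hbot htop).1
  have hfd := finite_dual (Cls (pi1 htop))
  have := Fintype.ofFinite (Cls (pi1 htop) →* ℂˣ)
  obtain ⟨a, ha⟩ : ∃ a : (Cls (pi1 htop) →* ℂˣ) → ℂ, ∀ l, a l =
    (∑ D, F D * ((l D⁻¹ : ℂˣ) : ℂ)) / (Nat.card (Cls (pi1 htop)) : ℂ) := ⟨_, fun _ => rfl⟩
  have hF : F = fun C => ∑ l : Cls (pi1 htop) →* ℂˣ, a l * ((l C : ℂˣ) : ℂ) := by
    ext C
    rw [four F C]
    apply sum_congr rfl
    intro l _
    rw [ha]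
  have h1 : Tendsto (fun N : ℕ => ∑ l : Cls (pi1 htop) →* ℂˣ, a l *
      ((∑ p ∈ (range (N + 1)).filter Nat.Prime, cF htop (fun C => ((l C : ℂˣ) : ℂ)) p) /
      (Nat.primeCounting N : ℂ))) atTop (𝓝 (∑ l : Cls (pi1 htop) →* ℂˣ, a l * (if l = 1 then 1 else 0))) :=
    tendsto_finset_sum _ fun l _ => (mean_ch hbot htop l).const_mul (a l)
  have h2 : ∑ l : Cls (pi1 htop) →* ℂˣ, a l * (if l = 1 then 1 else 0) =
      (∑ C, F C) / (Nat.card (Cls (pi1 htop)) : ℂ) := by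
    simp only [mul_ite, mul_one, mul_zero]
    rw [sum_ite_eq']
    simp only [mem_univ, if_true]
    rw [ha]
    simp
  rw [h2] at h1
  refine h1.congr fun N => ?_
  have h3 : ∀ p, cF htop F p = ∑ l : Cls (pi1 htop) →* ℂˣ, a l * cF htop (fun C => ((l C : ℂˣ) : ℂ)) p := by
    intro p
    conv_lhs => rw [hF]
    exact cF_sum htop univ a (fun l C => ((l C : ℂˣ) : ℂ)) p
  simp only [h3]
  rw [sum_comm, sum_div]
  apply sum_congr rfl
  intro l _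
  rw [← mul_sum, mul_div_assoc]

end Pool.Agent.U637.NR
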