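import Pool.Agent.U637.NR.A2

/-! The prime ideals of a class modulo `m`, with norms in a residue class. -/

set_option autoImplicit false
set_option linter.unusedSectionVars false

namespace Pool.Agent.U637.NR
open NumberField Finset Filter Topology
open Pool.Agent.Y767 (Mq Mq_cop Mq_ne_bot Mq_cancel Cls cls cls_pi cls_eq cls_of_mul card_dual finite_dual)
open Pool.Agent.N784.AD (T1 pi1 T1_one T1_tp T1_cop pi1_coe cls_card_le exists_rep)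
open Pool.Agent.Y773.IQ (ofM' ofM'_pos ofM'_supp cop_one cop_mono ne_zero_of_cop)
open Pool.Agent.Y773 (cc TPos)
open Pool.Agent.Y772.DK (norm_cc_le)

section
variable {K : Type} [Field K] [NumberField K]

lemma span_ne_bot {q : ℕ} (hq : q ≠ 0) : Ideal.span {(q : 𝓞 K)} ≠ ⊥ := by
  rw [Ne, Ideal.span_singleton_eq_bot]
  exact_mod_cast hq

lemma norm_T1 {q : ℕ} {ht : Ideal.span {(q : 𝓞 K)} ≠ ⊤} (a : T1 ht) :
    Ideal.absNorm (Ideal.span {(a : 𝓞 K)}) ≡ 1 [MOD q] := by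
  have h1 := T1_one a
  have h0 : (a : 𝓞 K) ≠ 0 := ne_zero_of_cop ht (cop_one h1)
  have h2 := Pool.Agent.Y772.TW.absNorm_tpos h0 (T1_tp a)
  have h3 := Pool.Agent.Y772.TW.norm_eq_of_sub h1
  rw [map_one] at h3
  rw [← ZMod.natCast_eq_natCast_iff]
  have h4 : (((Ideal.absNorm (Ideal.span {(a : 𝓞 K)}) : ℕ) : ℤ) : ZMod q) = ((1 : ℤ) : ZMod q) := by
    rw [h2]; exact h3
  exact_mod_cast h4

/-- ideals in the same class modulo `q` have the same norm modulo `q` and the same class modulo `m` -/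
lemma same_cls {m q : ℕ} (hmq : m ∣ q) {htm : Ideal.span {(m : 𝓞 K)} ≠ ⊤} {htq : Ideal.span {(q : 𝓞 K)} ≠ ⊤}
    {𝔞 𝔟 : Mq (Ideal.span {(q : 𝓞 K)})} (h : cls (pi1 htq) 𝔞 = cls (pi1 htq) 𝔟)
    (ha : IsCoprime (𝔞 : Ideal (𝓞 K)) (Ideal.span {(m : 𝓞 K)}))
    (hb : IsCoprime (𝔟 : Ideal (𝓞 K)) (Ideal.span {(m : 𝓞 K)})) :
    Ideal.absNorm (𝔞 : Ideal (𝓞 K)) ≡ Ideal.absNorm (𝔟 : Ideal (𝓞 K)) [MOD q] ∧
    cls (pi1 htm) ⟨𝔞, ha⟩ = cls (pi1 htm) ⟨𝔟, hb⟩ := by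
  have hc := Mq_cancel htq
  obtain ⟨a, b, hab⟩ := cls_eq h
  have hab' := congrArg Subtype.val hab
  rw [Submonoid.coe_mul, Submonoid.coe_mul, pi1_coe, pi1_coe] at hab'
  have hle : Ideal.span {(q : 𝓞 K)} ≤ Ideal.span {(m : 𝓞 K)} := by
    rw [Ideal.span_singleton_le_span_singleton]
    exact Nat.cast_dvd_cast hmq
  constructor
  · have h1 := congrArg Ideal.absNorm hab'
    rw [map_mul, map_mul] at h1
    calc Ideal.absNorm (𝔞 : Ideal (𝓞 K)) = 1 * Ideal.absNorm (𝔞 : Ideal (𝓞 K)) := (one_mul _).symm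
      _ ≡ Ideal.absNorm (Ideal.span {(a : 𝓞 K)}) * Ideal.absNorm (𝔞 : Ideal (𝓞 K)) [MOD q] :=
        (Nat.ModEq.mul_right _ (norm_T1 a)).symm
      _ = Ideal.absNorm (Ideal.span {(b : 𝓞 K)}) * Ideal.absNorm (𝔟 : Ideal (𝓞 K)) := h1
      _ ≡ 1 * Ideal.absNorm (𝔟 : Ideal (𝓞 K)) [MOD q] := Nat.ModEq.mul_right _ (norm_T1 b)
      _ = _ := one_mul _
  · have ha1 : (a : 𝓞 K) - 1 ∈ Ideal.span {(m : 𝓞 K)} := hle (T1_one a)
    have hb1 : (b : 𝓞 K) - 1 ∈ Ideal.span {(m : 𝓞 K)} := hle (T1_one b)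
    refine cls_of_mul (π := pi1 htm) (a := ⟨(a : 𝓞 K), ha1, T1_tp a⟩) (b := ⟨(b : 𝓞 K), hb1, T1_tp b⟩) ?_
    apply Subtype.ext
    rw [Submonoid.coe_mul, Submonoid.coe_mul, pi1_coe, pi1_coe]
    exact hab'

/-- the classes modulo `q` over `c`, with norm `r` -/
def SS {m : ℕ} (q : ℕ) {htm : Ideal.span {(m : 𝓞 K)} ≠ ⊤} (htq : Ideal.span {(q : 𝓞 K)} ≠ ⊤)
    (c : Cls (pi1 htm)) (r : ℕ) : Set (Cls (pi1 htq)) :=
  {C | ∃ 𝔞 : Mq (Ideal.span {(q : 𝓞 K)}), cls (pi1 htq) 𝔞 = C ∧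
    Ideal.absNorm (𝔞 : Ideal (𝓞 K)) ≡ r [MOD q] ∧
    ∃ h : IsCoprime (𝔞 : Ideal (𝓞 K)) (Ideal.span {(m : 𝓞 K)}), cls (pi1 htm) ⟨𝔞, h⟩ = c}

lemma mem_SS {m q : ℕ} (hmq : m ∣ q) {htm : Ideal.span {(m : 𝓞 K)} ≠ ⊤} {htq : Ideal.span {(q : 𝓞 K)} ≠ ⊤}
    {c : Cls (pi1 htm)} {r : ℕ} (𝔞 : Mq (Ideal.span {(q : 𝓞 K)})) :
    cls (pi1 htq) 𝔞 ∈ SS q htq c r ↔ Ideal.absNorm (𝔞 : Ideal (𝓞 K)) ≡ r [MOD q] ∧
    ∃ h : IsCoprime (𝔞 : Ideal (𝓞 K)) (Ideal.span {(m : 𝓞 K)}), cls (pi1 htm) ⟨𝔞, h⟩ = c := by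
  constructor
  · rintro ⟨𝔟, h1, h2, h3, h4⟩
    have hle : Ideal.span {(q : 𝓞 K)} ≤ Ideal.span {(m : 𝓞 K)} := by
      rw [Ideal.span_singleton_le_span_singleton]
      exact Nat.cast_dvd_cast hmq
    have h5 : IsCoprime (𝔞 : Ideal (𝓞 K)) (Ideal.span {(m : 𝓞 K)}) := cop_mono hle (Mq_cop 𝔞)
    obtain ⟨h6, h7⟩ := same_cls hmq (htm := htm) h1 h3 h5
    exact ⟨h6.symm.trans h2, h5, h7 ▸ h4⟩
  · rintro ⟨h1, h2⟩
    exact ⟨𝔞, rfl, h1, h2⟩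

open Classical in
/-- the number of prime ideals of norm `p` in the class `c` -/
noncomputable def nc {𝔪 : Ideal (𝓞 K)} (htm : 𝔪 ≠ ⊤) (c : Cls (pi1 htm)) (p : ℕ) : ℕ :=
  if p.Prime then #((Sid K p).filter fun 𝔮 => ∃ h : IsCoprime 𝔮 𝔪, cls (pi1 htm) ⟨𝔮, h⟩ = c) else 0

lemma nc_pos {𝔪 : Ideal (𝓞 K)} {htm : 𝔪 ≠ ⊤} {c : Cls (pi1 htm)} {p : ℕ} (h : 0 < nc htm c p) :
    ∃ 𝔮 : Mq 𝔪, Ideal.absNorm (𝔮 : Ideal (𝓞 K)) = p ∧ cls (pi1 htm) 𝔮 = c := by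
  classical
  unfold nc at h
  split_ifs at h with hp
  · obtain ⟨𝔮, h𝔮⟩ := card_pos.1 h
    rw [mem_filter, mem_Sid] at h𝔮
    obtain ⟨h1, h2, h3⟩ := h𝔮
    exact ⟨⟨𝔮, h2⟩, h1, h3⟩
  · exact absurd h (lt_irrefl _)

lemma nc_le {𝔪 : Ideal (𝓞 K)} (hbot : 𝔪 ≠ ⊥) (htm : 𝔪 ≠ ⊤) (c : Cls (pi1 htm)) (p : ℕ) :
    nc htm c p ≤ Module.finrank ℚ K := by
  classical
  unfold nc
  split_ifs with hp
  · obtain ⟨e, he⟩ := ch_mod hbot htm 1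
    have h1 := norm_cc_le _ (Pool.Agent.Y772.G.mc_le he) p
    rw [cc_ch htm 1 hp] at h1
    have h2 : cF htm (fun C => (((1 : Cls (pi1 htm) →* ℂˣ) C : ℂˣ) : ℂ)) p =
        (#((Sid K p).filter fun 𝔮 => IsCoprime 𝔮 𝔪) : ℂ) := by
      unfold cF
      rw [card_filter]
      push_cast
      apply sum_congr rfl
      intro 𝔮 _
      split_ifs <;> simp
    rw [h2, Complex.norm_natCast] at h1
    have h3 : #((Sid K p).filter fun 𝔮 => IsCoprime 𝔮 𝔪) ≤ Module.finrank ℚ K := by exact_mod_cast h1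
    refine (card_le_card ?_).trans h3
    intro 𝔮 h
    rw [mem_filter] at h ⊢
    exact ⟨h.1, h.2.1⟩
  · exact Nat.zero_le _

open Classical in
/-- the comparison at a prime -/
lemma cF_SS {m q : ℕ} (hmq : m ∣ q) {htm : Ideal.span {(m : 𝓞 K)} ≠ ⊤} (htq : Ideal.span {(q : 𝓞 K)} ≠ ⊤)
    (c : Cls (pi1 htm)) (r : ℕ) (hr : r.Coprime q) {p : ℕ} (hp : p.Prime) :
    cF htq (fun C => if C ∈ SS q htq c r then 1 else 0) p = if p ≡ r [MOD q] then (nc htm c p : ℂ) else 0 := by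
  have hle : Ideal.span {(q : 𝓞 K)} ≤ Ideal.span {(m : 𝓞 K)} := by
    rw [Ideal.span_singleton_le_span_singleton]
    exact Nat.cast_dvd_cast hmq
  unfold cF nc
  rw [if_pos hp]
  split_ifs with h
  · rw [card_filter]
    push_cast
    apply sum_congr rfl
    intro 𝔮 h𝔮
    rw [mem_Sid] at h𝔮
    have hpq : Nat.Coprime p q := by
      rw [Nat.Coprime, h.gcd_eq]
      exact hr
    have hcop : IsCoprime 𝔮 (Ideal.span {(q : 𝓞 K)}) := by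
      rw [Pool.Agent.Y772.TW.coprime_q, h𝔮]
      exact hpq
    rw [dif_pos hcop]
    have h1 := mem_SS hmq (htm := htm) (htq := htq) (c := c) (r := r) ⟨𝔮, hcop⟩
    by_cases h2 : ∃ h : IsCoprime 𝔮 (Ideal.span {(m : 𝓞 K)}), cls (pi1 htm) ⟨𝔮, h⟩ = c
    · rw [if_pos h2, if_pos]
      rw [h1]
      exact ⟨by rw [h𝔮]; exact h, h2⟩
    · rw [if_neg h2, if_neg]
      rw [h1]
      exact fun h3 => h2 h3.2
  · apply sum_eq_zero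
    intro 𝔮 h𝔮
    rw [mem_Sid] at h𝔮
    by_cases hcop : IsCoprime 𝔮 (Ideal.span {(q : 𝓞 K)})
    · rw [dif_pos hcop]
      refine if_neg ?_
      rw [mem_SS hmq (htm := htm) (htq := htq) (c := c) (r := r) ⟨𝔮, hcop⟩]
      rintro ⟨h3, -⟩
      exact h (by rwa [h𝔮] at h3)
    · rw [dif_neg hcop]

/-- the density -/
noncomputable def mu {m : ℕ} (q : ℕ) {htm : Ideal.span {(m : 𝓞 K)} ≠ ⊤} (htq : Ideal.span {(q : 𝓞 K)} ≠ ⊤)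
    (c : Cls (pi1 htm)) (r : ℕ) : ℝ := (SS q htq c r).ncard / (Nat.card (Cls (pi1 htq)) : ℝ)

/-- **the density of the primes with prime ideals in a class, in a residue class** -/
theorem mean_nc {m q : ℕ} (hq : q ≠ 0) (hmq : m ∣ q) {htm : Ideal.span {(m : 𝓞 K)} ≠ ⊤}
    (htq : Ideal.span {(q : 𝓞 K)} ≠ ⊤) (c : Cls (pi1 htm)) (r : ℕ) (hr : r.Coprime q) :
    Tendsto (fun N : ℕ => (∑ p ∈ (range (N + 1)).filter (fun p => p.Prime ∧ p ≡ r [MOD q]), (nc htm c p : ℝ)) /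
      (Nat.primeCounting N : ℝ)) atTop (𝓝 (mu q htq c r)) := by
  classical
  have hbot := span_ne_bot (K := K) hq
  have := (cls_card_le hbot htq).1
  have := Fintype.ofFinite (Cls (pi1 htq))
  have h1 := mean_cF hbot htq (fun C => if C ∈ SS q htq c r then 1 else 0)
  have h2 : (∑ C, (if C ∈ SS q htq c r then (1 : ℂ) else 0)) / (Nat.card (Cls (pi1 htq)) : ℂ) =
      ((mu q htq c r : ℝ) : ℂ) := by
    unfold mu
    rw [← sum_filter, sum_const, nsmul_eq_mul, mul_one]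
    push_cast
    congr 2
    rw [Set.ncard_eq_toFinset_card']
    congr 1
    ext C
    simp
  rw [h2] at h1
  rw [← tendsto_ofReal_iff' (𝕜 := ℂ)] 
  refine h1.congr fun N => ?_
  push_cast
  congr 1
  rw [sum_congr rfl (fun p hp => cF_SS hmq htq c r hr (mem_filter.1 hp).2), ← sum_filter, filter_filter]

/-- the classes are nonempty sets -/
lemma mu_pos {m q : ℕ} (hq : q ≠ 0) (hmq : m ∣ q) {htm : Ideal.span {(m : 𝓞 K)} ≠ ⊤}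
    (htq : Ideal.span {(q : 𝓞 K)} ≠ ⊤) (𝔟 : Ideal (𝓞 K)) (hm : IsCoprime 𝔟 (Ideal.span {(m : 𝓞 K)}))
    (hb : IsCoprime 𝔟 (Ideal.span {(q : 𝓞 K)})) {r : ℕ} (hr : Ideal.absNorm 𝔟 ≡ r [MOD q]) :
    0 < mu q htq (cls (pi1 htm) ⟨𝔟, hm⟩) r := by
  have := (cls_card_le (span_ne_bot (K := K) hq) htq).1
  unfold mu
  have h1 : (SS q htq (cls (pi1 htm) ⟨𝔟, hm⟩) r).Nonempty :=
    ⟨cls (pi1 htq) ⟨𝔟, hb⟩, (mem_SS hmq (htm := htm) ⟨𝔟, hb⟩).2 ⟨hr, hm, rfl⟩⟩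
  have h2 : 0 < (SS q htq (cls (pi1 htm) ⟨𝔟, hm⟩) r).ncard := (Set.ncard_pos (Set.toFinite _)).2 h1
  have h3 : 0 < Nat.card (Cls (pi1 htq)) := Nat.card_pos
  positivity

lemma mu_nonneg {m q : ℕ} {htm : Ideal.span {(m : 𝓞 K)} ≠ ⊤}
    (htq : Ideal.span {(q : 𝓞 K)} ≠ ⊤) (c : Cls (pi1 htm)) (r : ℕ) : 0 ≤ mu q htq c r := by
  unfold mu
  positivity

lemma mu_le {m q : ℕ} (hq : q ≠ 0) {htm : Ideal.span {(m : 𝓞 K)} ≠ ⊤}
    (htq : Ideal.span {(q : 𝓞 K)} ≠ ⊤) (c : Cls (pi1 htm)) (r : ℕ) : mu q htq c r ≤ 1 := by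
  have := (cls_card_le (span_ne_bot (K := K) hq) htq).1
  unfold mu
  rw [div_le_one (by exact_mod_cast Nat.card_pos)]
  have h1 := Set.ncard_le_ncard (Set.subset_univ (SS q htq c r)) (Set.toFinite _)
  rw [Set.ncard_univ] at h1
  exact_mod_cast h1

end

end Pool.Agent.U637.NR
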