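import Pool.Agent.Y772.TW.CaseB
import Pool.Agent.Y772.TW.Pos
import Mathlib

/-! The norms of the totally positive integers congruent to one modulo `m`. -/

set_option autoImplicit false
set_option linter.unusedSectionVars false

namespace Pool.Agent.U637.NR
open NumberField
open Pool.Agent.Y773 (TPos)
open Pool.Agent.Y772.TW (norm_surj norm_eq_of_sub exists_tpos)

/-- powers -/
lemma hensel (n m : ℕ) (hnm : n ∣ m) (j : ℕ) (ρ : ℤ) (hρ : ((m : ℤ) ^ 3) ∣ ρ - 1) :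
    ∃ s : ℤ, (m : ℤ) ∣ s - 1 ∧ ((n : ℤ) * (m : ℤ) ^ (j + 2)) ∣ s ^ n - ρ := by
  obtain ⟨m', hm'⟩ := hnm
  induction j with
  | zero =>
    refine ⟨1, by simp, ?_⟩
    rw [one_pow, ← dvd_neg, neg_sub]
    refine dvd_trans ?_ hρ
    rw [zero_add, pow_succ' (m : ℤ) 2]
    exact mul_dvd_mul_right ⟨(m' : ℤ), by rw [hm']; push_cast; ring⟩ _
  | succ j ih =>
    obtain ⟨s, hs1, w, hw⟩ := ih
    have hcop : IsCoprime (s ^ (n - 1)) (m : ℤ) := by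
      apply IsCoprime.pow_left
      obtain ⟨v, hv⟩ := hs1
      exact ⟨1, -v, by linear_combination hv⟩
    obtain ⟨a, b, hab⟩ := hcop
    obtain ⟨u, hu⟩ : ∃ u : ℤ, u = -(a * w) := ⟨_, rfl⟩
    refine ⟨s + (m : ℤ) ^ (j + 2) * u, ?_, ?_⟩
    · have : s + (m : ℤ) ^ (j + 2) * u - 1 = (s - 1) + m * ((m : ℤ) ^ (j + 1) * u) := by ring
      rw [this]
      exact dvd_add hs1 (dvd_mul_right _ _)
    · obtain ⟨k, hk⟩ := Polynomial.powAddExpansion s ((m : ℤ) ^ (j + 2) * u) n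
      rw [hk]
      have hmz : (m : ℤ) = n * m' := by rw [hm']; push_cast; ring
      refine ⟨w * b + k * m' * (m : ℤ) ^ j * u ^ 2, ?_⟩
      have e1 : s ^ n = ρ + (n : ℤ) * (m : ℤ) ^ (j + 2) * w := by linear_combination hw
      have e2 : s ^ (n - 1) * a = 1 - b * m := by linear_combination hab
      rw [e1, hu]
      have e3 : (m : ℤ) ^ (j + 2) * (m : ℤ) ^ (j + 2) = (n : ℤ) * m' * (m : ℤ) ^ (j + 3) * (m : ℤ) ^ j := by
        calc (m : ℤ) ^ (j + 2) * (m : ℤ) ^ (j + 2) = m * (m : ℤ) ^ (j + 3) * (m : ℤ) ^ j := by ring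
          _ = _ := by rw [← hmz]
      have e4 : (m : ℤ) ^ (j + 1 + 2) = (m : ℤ) ^ (j + 3) := by ring
      rw [e4]
      linear_combination (-(n : ℤ) * (m : ℤ) ^ (j + 2) * w) * e2 + (k * (a * w) ^ 2) * e3

variable {K : Type} [Field K] [NumberField K]

lemma norm_intCast (s : ℤ) : Algebra.norm ℤ (s : 𝓞 K) = s ^ Module.finrank ℚ K := by
  have h := Algebra.norm_algebraMap (R := ℤ) (S := 𝓞 K) s
  rw [algebraMap_int_eq, eq_intCast] at h
  rw [h, RingOfIntegers.rank]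

lemma exists_prime_above {p : ℕ} (hp : p.Prime) : ∃ P P' : Ideal (𝓞 K), P.IsPrime ∧ P * P' = Ideal.span {(p : 𝓞 K)} := by
  have h1 : Ideal.span {(p : 𝓞 K)} ≠ ⊤ := by
    intro h
    have h2 := congrArg Ideal.absNorm h
    rw [Ideal.absNorm_top, Ideal.absNorm_span_singleton] at h2
    have h3 := norm_intCast (K := K) (p : ℤ)
    rw [Int.cast_natCast] at h3
    rw [h3, Int.natAbs_pow, Int.natAbs_natCast] at h2
    have h4 : 0 < Module.finrank ℚ K := Module.finrank_pos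
    have h5 := (Nat.pow_eq_one.1 h2).resolve_right (by omega)
    exact hp.one_lt.ne' h5
  obtain ⟨P, hP, hle⟩ := Ideal.exists_le_maximal _ h1
  obtain ⟨P', hP'⟩ := Ideal.dvd_iff_le.2 hle
  exact ⟨P, P', hP.isPrime, hP'.symm⟩

lemma exists_inv_int {q : ℕ} {ν : ℤ} (h : IsCoprime ν (q : ℤ)) : ∃ ν' : ℤ, (q : ℤ) ∣ ν * ν' - 1 := by
  obtain ⟨a, b, hab⟩ := h
  exact ⟨a, -b, by linear_combination hab⟩

theorem norm_ls (m : ℕ) (hm : 0 < m) (hn : Module.finrank ℚ K ∣ m)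
    (hd : ∀ p : ℕ, p.Prime → (p : ℤ) ∣ discr K → p ∣ m) (j : ℕ) (hj : 3 ≤ j) (q2 : ℕ) (hq0 : q2 ≠ 0)
    (hq2 : Nat.Coprime q2 m) (ρ : ℤ) (hρ : ((m : ℤ) ^ 3) ∣ ρ - 1) (hc : IsCoprime ρ ((m ^ j * q2 : ℕ) : ℤ)) :
    ∃ y : 𝓞 K, y - 1 ∈ Ideal.span {(m : 𝓞 K)} ∧ ((m ^ j * q2 : ℕ) : ℤ) ∣ Algebra.norm ℤ y - ρ := by
  induction q2 using induction_on_primes with
  | zero => exact absurd rfl hq0
  | one =>
    obtain ⟨s, hs1, hs2⟩ := hensel (Module.finrank ℚ K) m hn j ρ hρ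
    refine ⟨(s : 𝓞 K), ?_, ?_⟩
    · rw [Ideal.mem_span_singleton]
      obtain ⟨v, hv⟩ := hs1
      exact ⟨(v : 𝓞 K), by exact_mod_cast congrArg (Int.cast : ℤ → 𝓞 K) hv⟩
    · rw [norm_intCast]
      refine dvd_trans ?_ hs2
      push_cast
      rw [mul_one]
      exact dvd_mul_of_dvd_right (pow_dvd_pow _ (by omega)) _
  | prime_mul p a hp ih =>
    have ha0 : a ≠ 0 := by rintro rfl; simp at hq0
    have hpm : Nat.Coprime p m := Nat.Coprime.coprime_dvd_left (dvd_mul_right _ _) hq2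
    have ham : Nat.Coprime a m := Nat.Coprime.coprime_dvd_left (dvd_mul_left _ _) hq2
    have hdv : ((m ^ j * a : ℕ) : ℤ) ∣ ((m ^ j * (p * a) : ℕ) : ℤ) := by
      exact_mod_cast (⟨p, by ring⟩ : (m ^ j * a) ∣ (m ^ j * (p * a)))
    have hc' : IsCoprime ρ ((m ^ j * a : ℕ) : ℤ) := IsCoprime.of_isCoprime_of_dvd_right hc hdv
    obtain ⟨y0, hy1, hy2⟩ := ih ha0 ham hc'
    -- make `y0` prime to `p`
    obtain ⟨y1, hy3, hy4, hy5⟩ : ∃ y1 : 𝓞 K, y1 - 1 ∈ Ideal.span {(m : 𝓞 K)} ∧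
        ((m ^ j * a : ℕ) : ℤ) ∣ Algebra.norm ℤ y1 - ρ ∧ IsCoprime (Algebra.norm ℤ y1) (p : ℤ) := by
      by_cases hpa : p ∣ a
      · refine ⟨y0, hy1, hy2, ?_⟩
        obtain ⟨w, hw⟩ := hy2
        obtain ⟨u, v, huv⟩ := hc'
        obtain ⟨a', ha'⟩ := hpa
        refine ⟨u, v * (m : ℤ) ^ j * a' - u * w * (m : ℤ) ^ j * a', ?_⟩
        have e1 : ((m ^ j * a : ℕ) : ℤ) = (m : ℤ) ^ j * (p * a') := by rw [ha']; push_cast; ring
        rw [e1] at hw huv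
        linear_combination u * hw + huv
      · have hcop : IsCoprime (p : ℤ) ((m ^ j * a : ℕ) : ℤ) := by
          rw [Nat.isCoprime_iff_coprime]
          exact Nat.Coprime.mul_right (Nat.Coprime.pow_right _ hpm) ((Nat.Prime.coprime_iff_not_dvd hp).2 hpa)
        obtain ⟨α, β, hαβ⟩ := hcop
        have hαβ' : ((α : ℤ) : 𝓞 K) * (p : 𝓞 K) + (β : 𝓞 K) * ((m ^ j * a : ℕ) : 𝓞 K) = 1 := by
          exact_mod_cast congrArg (Int.cast : ℤ → 𝓞 K) hαβ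
        obtain ⟨y1, hy1d⟩ : ∃ y1 : 𝓞 K, y1 = y0 * ((α : 𝓞 K) * (p : 𝓞 K)) + (β : 𝓞 K) * ((m ^ j * a : ℕ) : 𝓞 K) := ⟨_, rfl⟩
        have f1 : y1 - y0 ∈ Ideal.span {((m ^ j * a : ℕ) : 𝓞 K)} := by
          rw [Ideal.mem_span_singleton]
          exact ⟨(1 - y0) * (β : 𝓞 K), by rw [hy1d]; linear_combination y0 * hαβ'⟩
        have f2 : y1 - 1 ∈ Ideal.span {(p : 𝓞 K)} := by
          rw [Ideal.mem_span_singleton]
          exact ⟨(y0 - 1) * (α : 𝓞 K), by rw [hy1d]; linear_combination hαβ'⟩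
        refine ⟨y1, ?_, ?_, ?_⟩
        · have h5 : Ideal.span {((m ^ j * a : ℕ) : 𝓞 K)} ≤ Ideal.span {(m : 𝓞 K)} := by
            rw [Ideal.span_singleton_le_span_singleton]
            exact_mod_cast (Nat.cast_dvd_cast (dvd_mul_of_dvd_left (dvd_pow_self m (by omega)) a) : ((m : ℕ) : 𝓞 K) ∣ ((m ^ j * a : ℕ) : 𝓞 K))
          have : y1 - 1 = (y1 - y0) + (y0 - 1) := by ring
          rw [this]
          exact add_mem (h5 f1) hy1
        · have h6 := norm_eq_of_sub f1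
          rw [ZMod.intCast_eq_intCast_iff_dvd_sub] at h6
          have : Algebra.norm ℤ y1 - ρ = (Algebra.norm ℤ y0 - ρ) - (Algebra.norm ℤ y0 - Algebra.norm ℤ y1) := by ring
          rw [this]
          exact dvd_sub hy2 h6
        · have h6 := norm_eq_of_sub f2
          rw [map_one, ZMod.intCast_eq_intCast_iff_dvd_sub] at h6
          obtain ⟨v, hv⟩ := h6
          exact ⟨1, v, by linear_combination -hv⟩
    have hν : IsCoprime (Algebra.norm ℤ y1) ((m ^ j * (p * a) : ℕ) : ℤ) := by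
      have h7 : IsCoprime (Algebra.norm ℤ y1) ((m ^ j * a : ℕ) : ℤ) := by
        obtain ⟨w, hw⟩ := hy4
        obtain ⟨u, v, huv⟩ := hc'
        exact ⟨u, v - u * w, by linear_combination u * hw + huv⟩
      have : ((m ^ j * (p * a) : ℕ) : ℤ) = p * ((m ^ j * a : ℕ) : ℤ) := by push_cast; ring
      rw [this]
      exact IsCoprime.mul_right hy5 h7
    obtain ⟨ν', hν'⟩ := exists_inv_int hν
    obtain ⟨P, P', hP, hPP⟩ := exists_prime_above (K := K) hp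
    have hpd : ¬ (p : ℤ) ∣ discr K := by
      intro h
      have h1 := hd p hp h
      have h2 : p ∣ Nat.gcd p m := Nat.dvd_gcd dvd_rfl h1
      rw [hpm] at h2
      exact hp.one_lt.ne' (Nat.dvd_one.1 h2)
    have hqp : m ^ j * (p * a) / p = m ^ j * a := by
      rw [show m ^ j * (p * a) = p * (m ^ j * a) by ring]
      exact Nat.mul_div_cancel_left _ hp.pos
    obtain ⟨y2, hy6, hy7⟩ := norm_surj (K := K) (q := m ^ j * (p * a)) (p := p)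
      (Nat.mul_pos (pow_pos hm j) (Nat.mul_pos hp.pos (Nat.pos_of_ne_zero ha0))) hp ⟨m ^ j * a, by ring⟩ hpd hP hPP (ρ * ν') (by
        rw [hqp]
        have h8 : ((m ^ j * a : ℕ) : ℤ) ∣ Algebra.norm ℤ y1 * ν' - 1 := hdv.trans hν'
        have : ρ * ν' - 1 = (Algebra.norm ℤ y1 * ν' - 1) - ν' * (Algebra.norm ℤ y1 - ρ) := by ring
        rw [this]
        exact dvd_sub h8 (dvd_mul_of_dvd_right hy4 _))
    rw [hqp] at hy6
    refine ⟨y1 * y2, ?_, ?_⟩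
    · have h5 : Ideal.span {((m ^ j * a : ℕ) : 𝓞 K)} * P' ≤ Ideal.span {(m : 𝓞 K)} := by
        refine Ideal.mul_le_left.trans ?_
        rw [Ideal.span_singleton_le_span_singleton]
        exact_mod_cast (Nat.cast_dvd_cast (dvd_mul_of_dvd_left (dvd_pow_self m (by omega)) a) : ((m : ℕ) : 𝓞 K) ∣ ((m ^ j * a : ℕ) : 𝓞 K))
      have : y1 * y2 - 1 = (y1 - 1) + y1 * (y2 - 1) := by ring
      rw [this]
      exact add_mem hy3 (Ideal.mul_mem_left _ _ (h5 hy6))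
    · rw [map_mul]
      rw [ZMod.intCast_eq_intCast_iff_dvd_sub] at hy7
      have : Algebra.norm ℤ y1 * Algebra.norm ℤ y2 - ρ =
        -(Algebra.norm ℤ y1 * (ρ * ν' - Algebra.norm ℤ y2)) + ρ * (Algebra.norm ℤ y1 * ν' - 1) := by ring
      rw [this]
      exact dvd_add (dvd_neg.2 (dvd_mul_of_dvd_right hy7 _)) (dvd_mul_of_dvd_right hν' _)

/-- totally positive -/
theorem norm_ls_pos (m : ℕ) (hm : 0 < m) (hn : Module.finrank ℚ K ∣ m)
    (hd : ∀ p : ℕ, p.Prime → (p : ℤ) ∣ discr K → p ∣ m) (j : ℕ) (hj : 3 ≤ j) (q2 : ℕ) (hq0 : q2 ≠ 0)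
    (hq2 : Nat.Coprime q2 m) (ρ : ℤ) (hρ : ((m : ℤ) ^ 3) ∣ ρ - 1) (hc : IsCoprime ρ ((m ^ j * q2 : ℕ) : ℤ)) :
    ∃ y : 𝓞 K, y ≠ 0 ∧ TPos K y ∧ y - 1 ∈ Ideal.span {(m : 𝓞 K)} ∧
      ((m ^ j * q2 : ℕ) : ℤ) ∣ Algebra.norm ℤ y - ρ := by
  obtain ⟨y, hy1, hy2⟩ := norm_ls (K := K) m hm hn hd j hj q2 hq0 hq2 ρ hρ hc
  obtain ⟨k, hk1, hk2⟩ := exists_tpos y (c := m ^ j * q2) (Nat.mul_pos (pow_pos hm j) (Nat.pos_of_ne_zero hq0))
  refine ⟨_, hk2, hk1, ?_, ?_⟩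
  · have h5 : (m : 𝓞 K) ∣ ((m ^ j * q2 : ℕ) : 𝓞 K) :=
      Nat.cast_dvd_cast (dvd_mul_of_dvd_left (dvd_pow_self m (by omega)) q2)
    have : y + (k : 𝓞 K) * ((m ^ j * q2 : ℕ) : 𝓞 K) - 1 = (y - 1) + (k : 𝓞 K) * ((m ^ j * q2 : ℕ) : 𝓞 K) := by ring
    rw [this]
    exact add_mem hy1 (Ideal.mem_span_singleton.2 (dvd_mul_of_dvd_right h5 _))
  · have h6 := norm_eq_of_sub (K := K) (M := m ^ j * q2) (x := y + (k : 𝓞 K) * ((m ^ j * q2 : ℕ) : 𝓞 K)) (y := y) (by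
      rw [add_sub_cancel_left]
      exact Ideal.mul_mem_left _ _ (Ideal.mem_span_singleton_self _))
    rw [ZMod.intCast_eq_intCast_iff_dvd_sub] at h6
    obtain ⟨w, hw⟩ := h6
    obtain ⟨v, hv⟩ := hy2
    exact ⟨v - w, by linear_combination hv - hw⟩

end Pool.Agent.U637.NR
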