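import Pool.Agent.U637.NR.A3
import Pool.Agent.U637.NR.A4
import Pool.Agent.U637.TP.A3

/-! The primes with prime ideals in a narrow ray class: means in all residue classes. -/

set_option autoImplicit false
set_option linter.unusedSectionVars false

namespace Pool.Agent.U637.NR
open NumberField Finset Filter Topology
open Pool.Agent.Y767 (Mq Mq_cop Mq_ne_bot Mq_cancel Cls cls cls_pi cls_eq cls_of_mul card_dual finite_dual)
open Pool.Agent.N784.AD (T1 pi1 T1_one T1_tp T1_cop pi1_coe cls_card_le exists_rep)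
open Pool.Agent.Y773.IQ (cop_one cop_mono ne_zero_of_cop cop_mul)
open Pool.Agent.Y773 (cc TPos)
open Pool.Agent.U637.TP (MZ)
open ArithmeticFunction (vonMangoldt)

/-- primes in residue classes -/
lemma mean_ap {q : ℕ} (hq : q ≠ 0) (r : ℕ) (hr : r.Coprime q) :
    Tendsto (fun N : ℕ => (#((range (N + 1)).filter (fun p => p.Prime ∧ p ≡ r [MOD q])) : ℝ) /
      (Nat.primeCounting N : ℝ)) atTop (𝓝 ((q.totient : ℝ)⁻¹)) := by
  have : NeZero q := ⟨hq⟩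
  have ha : IsUnit (r : ZMod q) := (ZMod.isUnit_iff_coprime r q).2 hr
  have h1 := Pool.Agent.Helper923.PNT.pnt_residueClass ha
  have h2 : Tendsto (fun x : ℝ => (∑ n ∈ Icc 1 ⌊x⌋₊, (vonMangoldt n : ℂ) *
      (if n ≡ r [MOD q] then (1 : ℂ) else 0)) / (x : ℂ)) atTop (𝓝 ((((q.totient : ℝ)⁻¹ : ℝ)) : ℂ)) := by
    have h3 := (Complex.continuous_ofReal.tendsto _).comp h1
    refine h3.congr fun x => ?_
    simp only [Function.comp]
    push_cast
    congr 1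
    apply sum_congr rfl
    intro n _
    unfold ArithmeticFunction.vonMangoldt.residueClass
    by_cases h : n ≡ r [MOD q]
    · rw [if_pos h, mul_one, Set.indicator_of_mem]
      exact (ZMod.natCast_eq_natCast_iff n r q).2 h
    · rw [if_neg h, mul_zero, Set.indicator_of_notMem, Complex.ofReal_zero]
      intro h4
      exact h ((ZMod.natCast_eq_natCast_iff n r q).1 h4)
  have h5 := mean_primes _ 1 (fun n => by split_ifs <;> simp) _ h2
  rw [← tendsto_ofReal_iff' (𝕜 := ℂ)]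
  refine h5.congr fun N => ?_
  push_cast
  congr 1
  rw [← sum_filter, filter_filter, sum_const, nsmul_eq_mul, mul_one]

/-- the sum over the primes of a residue class -/
noncomputable def WW (w : ℕ → ℝ) (q r N : ℕ) : ℝ :=
  ∑ p ∈ (range (N + 1)).filter (fun p => p.Prime ∧ p ≡ r [MOD q]), w p

lemma WW_split (w : ℕ → ℝ) {q Q : ℕ} (hQ : Q ≠ 0) (hq : q ∣ Q) (r N : ℕ) :
    WW w q r N = ∑ r' ∈ (range Q).filter (fun r' => r' ≡ r [MOD q]), WW w Q r' N := by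
  classical
  have hm : ∀ p ∈ (range (N + 1)).filter (fun p => p.Prime ∧ p ≡ r [MOD q]),
      p % Q ∈ (range Q).filter (fun r' => r' ≡ r [MOD q]) := by
    intro p hp
    rw [mem_filter] at hp
    rw [mem_filter, mem_range]
    exact ⟨Nat.mod_lt _ (Nat.pos_of_ne_zero hQ), (((Nat.mod_modEq p Q).of_dvd hq)).trans hp.2.2⟩
  unfold WW
  rw [← sum_fiberwise_of_maps_to hm]
  apply sum_congr rfl
  intro r' hr'
  rw [mem_filter, mem_range] at hr'
  apply sum_congr _ fun _ _ => rfl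
  ext p
  simp only [mem_filter]
  constructor
  · rintro ⟨⟨h1, h2, h3⟩, h4⟩
    refine ⟨h1, h2, ?_⟩
    rw [← h4]
    exact (Nat.mod_modEq p Q).symm
  · rintro ⟨h1, h2, h3⟩
    refine ⟨⟨h1, h2, (h3.of_dvd hq).trans hr'.2⟩, ?_⟩
    rw [Nat.ModEq, Nat.mod_eq_of_lt hr'.1] at h3
    exact h3

lemma pc_tendsto : Tendsto (fun N : ℕ => (Nat.primeCounting N : ℝ)) atTop atTop := by
  exact tendsto_natCast_atTop_atTop.comp Nat.tendsto_primeCounting

/-- the residue classes which are not units -/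
lemma WW_nonunit (w : ℕ → ℝ) (H : ℝ) (hw : ∀ p, |w p| ≤ H) {q : ℕ} (hq : q ≠ 0) (r : ℕ) (hr : ¬ r.Coprime q) :
    Tendsto (fun N : ℕ => WW w q r N / (Nat.primeCounting N : ℝ)) atTop (𝓝 0) := by
  have hH : 0 ≤ H := (abs_nonneg _).trans (hw 0)
  have h1 : ∀ N, |WW w q r N| ≤ H * (q + 1) := by
    intro N
    unfold WW
    refine (abs_sum_le_sum_abs _ _).trans ((sum_le_sum fun p _ => hw p).trans ?_)
    rw [sum_const, nsmul_eq_mul, mul_comm]
    apply mul_le_mul_of_nonneg_left _ hH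
    have h2 : (range (N + 1)).filter (fun p => p.Prime ∧ p ≡ r [MOD q]) ⊆ range (q + 1) := by
      intro p hp
      rw [mem_filter] at hp
      rw [mem_range, Nat.lt_succ_iff]
      by_contra h3
      rw [not_le] at h3
      apply hr
      rw [Nat.Coprime, ← hp.2.2.gcd_eq]
      refine (Nat.Prime.coprime_iff_not_dvd hp.2.1).2 fun h4 => ?_
      exact absurd (Nat.le_of_dvd (Nat.pos_of_ne_zero hq) h4) (by omega)
    have h3 := card_le_card h2
    rw [card_range] at h3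
    exact_mod_cast h3
  have h2 : Tendsto (fun N : ℕ => H * (q + 1) * (Nat.primeCounting N : ℝ)⁻¹) atTop (𝓝 0) := by
    have := (tendsto_inv_atTop_zero.comp pc_tendsto).const_mul (H * (q + 1))
    simpa using this
  refine squeeze_zero_norm (fun N => ?_) h2
  rw [norm_div, Real.norm_eq_abs, Real.norm_eq_abs, abs_of_nonneg (Nat.cast_nonneg (α := ℝ) (Nat.primeCounting N)), div_eq_mul_inv]
  exact mul_le_mul_of_nonneg_right (h1 N) (by positivity)

lemma level (m : ℕ) (q0 : ℕ) (hq0 : q0 ≠ 0) : ∃ j q2 : ℕ, 3 ≤ j ∧ q2 ≠ 0 ∧ q2.Coprime m ∧ q0 ∣ m ^ j * q2 := by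
  induction q0 using induction_on_primes with
  | zero => exact absurd rfl hq0
  | one => exact ⟨3, 1, le_rfl, one_ne_zero, Nat.coprime_one_left m, one_dvd _⟩
  | prime_mul p a hp ih =>
    have ha0 : a ≠ 0 := by rintro rfl; simp at hq0
    obtain ⟨j, q2, hj, h2, h3, h4⟩ := ih ha0
    by_cases hpm : p ∣ m
    · refine ⟨j + 1, q2, by omega, h2, h3, ?_⟩
      rw [show m ^ (j + 1) * q2 = m * (m ^ j * q2) by ring]
      exact mul_dvd_mul hpm h4
    · refine ⟨j, p * q2, hj, mul_ne_zero hp.ne_zero h2, ?_, ?_⟩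
      · exact Nat.Coprime.mul_left ((Nat.Prime.coprime_iff_not_dvd hp).2 hpm) h3
      · rw [show m ^ j * (p * q2) = p * (m ^ j * q2) by ring]
        exact mul_dvd_mul_left p h4

section
variable {K : Type} [Field K] [NumberField K]

lemma span_ne_top {q : ℕ} (hq : 2 ≤ q) : Ideal.span {(q : 𝓞 K)} ≠ ⊤ := by
  intro h
  have h2 := congrArg Ideal.absNorm h
  rw [Ideal.absNorm_top, Ideal.absNorm_span_singleton] at h2
  have h3 := norm_intCast (K := K) (q : ℤ)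
  rw [Int.cast_natCast] at h3
  rw [h3, Int.natAbs_pow, Int.natAbs_natCast] at h2
  have h4 : 0 < Module.finrank ℚ K := Module.finrank_pos
  have h5 := (Nat.pow_eq_one.1 h2).resolve_right (by omega)
  omega

/-- translation -/
lemma SS_le {m q : ℕ} (hq : q ≠ 0) (hmq : m ∣ q) {htm : Ideal.span {(m : 𝓞 K)} ≠ ⊤}
    (htq : Ideal.span {(q : 𝓞 K)} ≠ ⊤) (c : Cls (pi1 htm)) (r r' : ℕ) (y : 𝓞 K) (hy0 : y ≠ 0) (hy : TPos K y)
    (hy1 : y - 1 ∈ Ideal.span {(m : 𝓞 K)}) (hyq : IsCoprime (Ideal.span {y}) (Ideal.span {(q : 𝓞 K)}))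
    (hN : Ideal.absNorm (Ideal.span {y}) * r ≡ r' [MOD q]) :
    (SS q htq c r).ncard ≤ (SS q htq c r').ncard := by
  have hfin := (cls_card_le (span_ne_bot (K := K) hq) htq).1
  have hle : Ideal.span {(q : 𝓞 K)} ≤ Ideal.span {(m : 𝓞 K)} := by
    rw [Ideal.span_singleton_le_span_singleton]
    exact Nat.cast_dvd_cast hmq
  obtain ⟨Y, hY⟩ : ∃ Y : Mq (Ideal.span {(q : 𝓞 K)}), (Y : Ideal (𝓞 K)) = Ideal.span {y} := ⟨⟨Ideal.span {y}, hyq⟩, rfl⟩
  obtain ⟨D, hD⟩ : ∃ D, D = cls (pi1 htq) Y := ⟨_, rfl⟩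
  refine Set.ncard_le_ncard_of_injOn (fun C => D * C) ?_ ?_ (Set.toFinite _)
  · rintro C ⟨𝔞, rfl, h2, h3, h4⟩
    have hc : IsCoprime ((Y * 𝔞 : Mq (Ideal.span {(q : 𝓞 K)})) : Ideal (𝓞 K))
        (Ideal.span {(m : 𝓞 K)}) := cop_mono hle (Mq_cop _)
    refine ⟨Y * 𝔞, ?_, ?_, hc, ?_⟩
    · rw [hD]; exact map_mul (cls (pi1 htq)) Y 𝔞
    · rw [Submonoid.coe_mul, map_mul, hY]
      exact (Nat.ModEq.mul_left _ h2).trans hN
    · rw [← h4]
      refine cls_of_mul (π := pi1 htm) (a := ⟨1, by rw [sub_self]; exact zero_mem _, Pool.Agent.Y767.tpos_one⟩)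
        (b := ⟨y, hy1, hy⟩) ?_
      apply Subtype.ext
      change Ideal.span {(1 : 𝓞 K)} * ((Y : Ideal (𝓞 K)) * (𝔞 : Ideal (𝓞 K))) = Ideal.span {y} * (𝔞 : Ideal (𝓞 K))
      rw [hY]
      rw [Ideal.span_singleton_one, ← Ideal.one_eq_top, one_mul]
  · intro C _ C' _ h
    exact mul_left_cancel h


/-- the density depends only on the residue class modulo `m ^ 3` -/
theorem mu_le_mu {m : ℕ} (hm : 2 ≤ m) (hn : Module.finrank ℚ K ∣ m)
    (hd : ∀ p : ℕ, p.Prime → (p : ℤ) ∣ discr K → p ∣ m) (j : ℕ) (hj : 3 ≤ j) (q2 : ℕ) (hq0 : q2 ≠ 0)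
    (hq2 : Nat.Coprime q2 m) {htm : Ideal.span {(m : 𝓞 K)} ≠ ⊤}
    (htq : Ideal.span {((m ^ j * q2 : ℕ) : 𝓞 K)} ≠ ⊤) (c : Cls (pi1 htm)) (r r' : ℕ)
    (hr : r.Coprime (m ^ j * q2)) (hr' : r'.Coprime (m ^ j * q2)) (hrr : r ≡ r' [MOD m ^ 3]) :
    mu (m ^ j * q2) htq c r ≤ mu (m ^ j * q2) htq c r' := by
  obtain ⟨q, hq⟩ : ∃ q, q = m ^ j * q2 := ⟨_, rfl⟩
  have hq0' : q ≠ 0 := by rw [hq]; positivity
  have hmq : m ∣ q := by rw [hq]; exact dvd_mul_of_dvd_left (dvd_pow_self m (by omega)) _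
  have hm3 : m ^ 3 ∣ q := by rw [hq]; exact dvd_mul_of_dvd_left (pow_dvd_pow m hj) _
  -- the inverse of `r`
  have hrc : IsCoprime (r : ℤ) (q : ℤ) := by rw [Nat.isCoprime_iff_coprime, hq]; exact hr
  obtain ⟨s, hs⟩ := exists_inv_int hrc
  have hrr' : ((m : ℤ) ^ 3) ∣ (r' : ℤ) - r := by
    have := (Nat.modEq_iff_dvd.1 hrr)
    exact_mod_cast this
  have hm3z : ((m : ℤ) ^ 3) ∣ (q : ℤ) := by exact_mod_cast hm3
  obtain ⟨y, hy0, hy, hy1, hy2⟩ := norm_ls_pos (K := K) m (by omega) hn hd j hj q2 hq0 hq2 (r' * s) (by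
    have h1 := hm3z.trans hs
    have : (r' : ℤ) * s - 1 = (r * s - 1) + s * (r' - r) := by ring
    rw [this]
    exact dvd_add h1 (dvd_mul_of_dvd_right hrr' _)) (by
    rw [← hq]
    apply IsCoprime.mul_left
    · rw [Nat.isCoprime_iff_coprime, hq]; exact hr'
    · obtain ⟨w, hw⟩ := hs
      exact ⟨r, -w, by linear_combination hw⟩)
  rw [← hq] at hy2
  have hN := Pool.Agent.Y772.TW.absNorm_tpos hy0 hy
  have hNm : Ideal.absNorm (Ideal.span {y}) * r ≡ r' [MOD q] := by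
    rw [Nat.modEq_iff_dvd]
    push_cast
    rw [hN]
    obtain ⟨w, hw⟩ := hy2
    obtain ⟨v, hv⟩ := hs
    exact ⟨-(w * r) - r' * v, by linear_combination (-(r : ℤ)) * hw - (r' : ℤ) * hv⟩
  have hyq : IsCoprime (Ideal.span {y}) (Ideal.span {(q : 𝓞 K)}) := by
    rw [Pool.Agent.Y772.TW.coprime_q]
    have h1 : Nat.Coprime (Ideal.absNorm (Ideal.span {y}) * r) q := by
      rw [Nat.Coprime, hNm.gcd_eq, hq]
      exact hr'
    exact Nat.Coprime.coprime_dvd_left (dvd_mul_right _ _) h1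
  unfold mu
  apply div_le_div_of_nonneg_right _ (Nat.cast_nonneg _)
  subst hq
  exact_mod_cast SS_le hq0' hmq htq c r r' y hy0 hy hy1 hyq hNm

theorem mu_eq {m : ℕ} (hm : 2 ≤ m) (hn : Module.finrank ℚ K ∣ m)
    (hd : ∀ p : ℕ, p.Prime → (p : ℤ) ∣ discr K → p ∣ m) (j : ℕ) (hj : 3 ≤ j) (q2 : ℕ) (hq0 : q2 ≠ 0)
    (hq2 : Nat.Coprime q2 m) {htm : Ideal.span {(m : 𝓞 K)} ≠ ⊤}
    (htq : Ideal.span {((m ^ j * q2 : ℕ) : 𝓞 K)} ≠ ⊤) (c : Cls (pi1 htm)) (r r' : ℕ)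
    (hr : r.Coprime (m ^ j * q2)) (hr' : r'.Coprime (m ^ j * q2)) (hrr : r ≡ r' [MOD m ^ 3]) :
    mu (m ^ j * q2) htq c r = mu (m ^ j * q2) htq c r' :=
  le_antisymm (mu_le_mu hm hn hd j hj q2 hq0 hq2 htq c r r' hr hr' hrr)
    (mu_le_mu hm hn hd j hj q2 hq0 hq2 htq c r' r hr' hr hrr.symm)

/-- the mean value modulo `m ^ 3` -/
noncomputable def gc {m : ℕ} {htm : Ideal.span {(m : 𝓞 K)} ≠ ⊤} (ht3 : Ideal.span {((m ^ 3 * 1 : ℕ) : 𝓞 K)} ≠ ⊤)
    (c : Cls (pi1 htm)) (n : ℕ) : ℝ :=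
  if n.Coprime m then (m ^ 3 * 1).totient * mu (m ^ 3 * 1) ht3 c (n % (m ^ 3)) else 0

lemma gc_mod {m : ℕ} {htm : Ideal.span {(m : 𝓞 K)} ≠ ⊤} (ht3 : Ideal.span {((m ^ 3 * 1 : ℕ) : 𝓞 K)} ≠ ⊤)
    (c : Cls (pi1 htm)) {n n' : ℕ} (h : n ≡ n' [MOD m ^ 3]) : gc ht3 c n = gc ht3 c n' := by
  unfold gc
  have h1 : n.Coprime m ↔ n'.Coprime m := by
    have : n ≡ n' [MOD m] := h.of_dvd (dvd_pow_self m (by norm_num))
    rw [Nat.Coprime, Nat.Coprime, this.gcd_eq]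
  rw [show n % (m ^ 3) = n' % (m ^ 3) from h]
  by_cases h2 : n.Coprime m
  · rw [if_pos h2, if_pos (h1.1 h2)]
  · rw [if_neg h2, if_neg (fun h3 => h2 (h1.2 h3))]

lemma gc_nonneg {m : ℕ} {htm : Ideal.span {(m : 𝓞 K)} ≠ ⊤} (ht3 : Ideal.span {((m ^ 3 * 1 : ℕ) : 𝓞 K)} ≠ ⊤)
    (c : Cls (pi1 htm)) (n : ℕ) : 0 ≤ gc ht3 c n := by
  unfold gc
  split_ifs
  · exact mul_nonneg (Nat.cast_nonneg _) (mu_nonneg _ _ _)
  · exact le_rfl

lemma gc_le {m : ℕ} (hm : 2 ≤ m) {htm : Ideal.span {(m : 𝓞 K)} ≠ ⊤} (ht3 : Ideal.span {((m ^ 3 * 1 : ℕ) : 𝓞 K)} ≠ ⊤)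
    (c : Cls (pi1 htm)) (n : ℕ) : gc ht3 c n ≤ (m ^ 3 * 1).totient := by
  unfold gc
  split_ifs
  · exact mul_le_of_le_one_right (Nat.cast_nonneg _) (mu_le (by positivity) _ _ _)
  · exact Nat.cast_nonneg _

lemma gc_pos {m : ℕ} (hm : 2 ≤ m) {htm : Ideal.span {(m : 𝓞 K)} ≠ ⊤} (ht3 : Ideal.span {((m ^ 3 * 1 : ℕ) : 𝓞 K)} ≠ ⊤)
    (𝔟 : Ideal (𝓞 K)) (hb : IsCoprime 𝔟 (Ideal.span {(m : 𝓞 K)})) : 0 < gc ht3 (cls (pi1 htm) ⟨𝔟, hb⟩) (Ideal.absNorm 𝔟) := by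
  have h1 := Pool.Agent.Y772.TW.coprime_q.1 hb
  unfold gc
  rw [if_pos h1]
  have h3 : Nat.Coprime (Ideal.absNorm 𝔟) (m ^ 3 * 1) := by rw [mul_one]; exact Nat.Coprime.pow_right 3 h1
  have h2 := mu_pos (m := m) (q := m ^ 3 * 1) (by positivity) (by rw [mul_one]; exact dvd_pow_self m (by norm_num)) (htm := htm) ht3
    𝔟 hb (Pool.Agent.Y772.TW.coprime_q.2 h3) (r := Ideal.absNorm 𝔟 % (m ^ 3)) (by
      rw [mul_one]; exact (Nat.mod_modEq _ _).symm)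
  have h4 : 0 < (m ^ 3 * 1).totient := Nat.totient_pos.2 (by positivity)
  positivity

/-- the limit in every residue class of a good level -/
theorem lim_level {m : ℕ} (hm : 2 ≤ m) (hn : Module.finrank ℚ K ∣ m)
    (hd : ∀ p : ℕ, p.Prime → (p : ℤ) ∣ discr K → p ∣ m) {htm : Ideal.span {(m : 𝓞 K)} ≠ ⊤}
    (ht3 : Ideal.span {((m ^ 3 * 1 : ℕ) : 𝓞 K)} ≠ ⊤) (c : Cls (pi1 htm))
    (j : ℕ) (hj : 3 ≤ j) (q2 : ℕ) (hq0 : q2 ≠ 0) (hq2 : Nat.Coprime q2 m)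
    (r : ℕ) : Tendsto (fun N : ℕ => WW (fun p => (nc htm c p : ℝ) - gc ht3 c p) (m ^ j * q2) r N /
      (Nat.primeCounting N : ℝ)) atTop (𝓝 0) := by
  classical
  obtain ⟨w, hw⟩ : ∃ w : ℕ → ℝ, ∀ p, w p = (nc htm c p : ℝ) - gc ht3 c p := ⟨_, fun _ => rfl⟩
  have hwf : (fun p => (nc htm c p : ℝ) - gc ht3 c p) = w := by funext p; rw [hw]
  rw [hwf]
  have hbotm := span_ne_bot (K := K) (q := m) (by omega)
  have hwb : ∀ p, |w p| ≤ Module.finrank ℚ K + (m ^ 3 * 1).totient := by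
    intro p
    rw [hw]
    have h1 : (nc htm c p : ℝ) ≤ Module.finrank ℚ K := by exact_mod_cast nc_le hbotm htm c p
    have h2 := gc_le hm ht3 c p
    have h3 := gc_nonneg ht3 c p
    have h4 : (0 : ℝ) ≤ nc htm c p := Nat.cast_nonneg _
    rw [abs_le]
    constructor <;> linarith
  -- the limits in the unit classes
  have hlim : ∀ (j : ℕ) (_ : 3 ≤ j) (q2 : ℕ) (_ : q2 ≠ 0) (_ : Nat.Coprime q2 m)
      (htq : Ideal.span {((m ^ j * q2 : ℕ) : 𝓞 K)} ≠ ⊤) (r : ℕ), r.Coprime (m ^ j * q2) →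
      Tendsto (fun N : ℕ => WW w (m ^ j * q2) r N / (Nat.primeCounting N : ℝ)) atTop
        (𝓝 (mu (m ^ j * q2) htq c r - gc ht3 c r * ((m ^ j * q2).totient : ℝ)⁻¹)) := by
    intro j hj q2 hq0 hq2 htq r hr
    have hqne : m ^ j * q2 ≠ 0 := by positivity
    have h1 := mean_nc (K := K) hqne (dvd_mul_of_dvd_left (dvd_pow_self m (by omega)) _) (htm := htm) htq c r hr
    have h2 := (mean_ap hqne r hr).const_mul (gc ht3 c r)
    refine (h1.sub h2).congr fun N => ?_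
    rw [← mul_div_assoc, ← sub_div]
    congr 1
    unfold WW
    rw [← nsmul_eq_mul', ← sum_const, ← sum_sub_distrib]
    apply sum_congr rfl
    intro p hp
    rw [hw, gc_mod ht3 c ((mem_filter.1 hp).2.2.of_dvd (dvd_mul_of_dvd_left (pow_dvd_pow m hj) _))]
  have ht : ∀ (j : ℕ) (_ : 3 ≤ j) (q2 : ℕ) (_ : q2 ≠ 0), Ideal.span {((m ^ j * q2 : ℕ) : 𝓞 K)} ≠ ⊤ := by
    intro j hj q2 hq0
    apply span_ne_top
    calc 2 ≤ m ^ 1 * 1 := by rw [pow_one, mul_one]; exact hm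
      _ ≤ m ^ j * q2 := Nat.mul_le_mul (Nat.pow_le_pow_right (by omega) (by omega)) (Nat.pos_of_ne_zero hq0)
  have htq := ht j hj q2 hq0
  have hqne : m ^ j * q2 ≠ 0 := by positivity
  by_cases hr : r.Coprime (m ^ j * q2)
  swap
  · exact WW_nonunit w _ hwb hqne r hr
  have hDr := hlim j hj q2 hq0 hq2 htq r hr
  obtain ⟨D, hD⟩ : ∃ D : ℝ, D = mu (m ^ j * q2) htq c r - gc ht3 c r * ((m ^ j * q2).totient : ℝ)⁻¹ := ⟨_, rfl⟩
  rw [← hD] at hDr
  have hrm : r.Coprime m := Nat.Coprime.coprime_dvd_right (dvd_mul_of_dvd_left (dvd_pow_self m (by omega)) _) hr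
  -- level `m ^ 3`
  have h3 : Tendsto (fun N : ℕ => WW w (m ^ 3 * 1) r N / (Nat.primeCounting N : ℝ)) atTop (𝓝 0) := by
    have h4 := hlim 3 le_rfl 1 one_ne_zero (Nat.coprime_one_left m) ht3 r (by
      rw [mul_one]; exact Nat.Coprime.pow_right 3 hrm)
    have h5 : mu (m ^ 3 * 1) ht3 c r - gc ht3 c r * ((m ^ 3 * 1).totient : ℝ)⁻¹ = 0 := by
      unfold gc
      rw [if_pos hrm]
      have h6 : mu (m ^ 3 * 1) ht3 c r = mu (m ^ 3 * 1) ht3 c (r % m ^ 3) := by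
        apply mu_eq hm hn hd 3 le_rfl 1 one_ne_zero (Nat.coprime_one_left m) ht3 c
        · rw [mul_one]; exact Nat.Coprime.pow_right 3 hrm
        · rw [mul_one]
          have h7 := Nat.Coprime.pow_right 3 hrm
          rw [Nat.Coprime, (Nat.mod_modEq r (m ^ 3)).gcd_eq]
          exact h7
        · exact (Nat.mod_modEq r (m ^ 3)).symm
      rw [h6]
      have h8 : ((m ^ 3 * 1).totient : ℝ) ≠ 0 := by
        have : 0 < (m ^ 3 * 1).totient := Nat.totient_pos.2 (by positivity)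
        exact_mod_cast this.ne'
      field_simp
      ring
    rwa [h5] at h4
  -- splitting
  have h4 : ∀ r' ∈ (range (m ^ j * q2)).filter (fun r' => r' ≡ r [MOD m ^ 3 * 1]),
      Tendsto (fun N : ℕ => WW w (m ^ j * q2) r' N / (Nat.primeCounting N : ℝ)) atTop
        (𝓝 (if r'.Coprime (m ^ j * q2) then D else 0)) := by
    intro r' hr'
    rw [mem_filter, mem_range] at hr'
    split_ifs with h5
    · have h6 := hlim j hj q2 hq0 hq2 htq r' h5
      have hrr : r' ≡ r [MOD m ^ 3] := by have := hr'.2; rwa [mul_one] at this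
      rw [mu_eq hm hn hd j hj q2 hq0 hq2 htq c r' r h5 hr hrr, gc_mod ht3 c hrr, ← hD] at h6
      exact h6
    · exact WW_nonunit w _ hwb hqne r' h5
  have h5 := tendsto_finsetSum _ h4
  have h6 : (fun N : ℕ => WW w (m ^ 3 * 1) r N / (Nat.primeCounting N : ℝ)) = fun N : ℕ =>
      ∑ r' ∈ (range (m ^ j * q2)).filter (fun r' => r' ≡ r [MOD m ^ 3 * 1]),
        WW w (m ^ j * q2) r' N / (Nat.primeCounting N : ℝ) := by
    funext N
    rw [WW_split w hqne (by rw [mul_one]; exact dvd_mul_of_dvd_left (pow_dvd_pow m hj) _) r N, sum_div]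
  rw [h6] at h3
  have h7 := tendsto_nhds_unique h5 h3
  rw [← sum_filter, sum_const, nsmul_eq_mul] at h7
  have h8 : 0 < #(((range (m ^ j * q2)).filter (fun r' => r' ≡ r [MOD m ^ 3 * 1])).filter
      (fun r' => r'.Coprime (m ^ j * q2))) := by
    rw [card_pos]
    refine ⟨r % (m ^ j * q2), ?_⟩
    rw [mem_filter, mem_filter, mem_range]
    refine ⟨⟨Nat.mod_lt _ (by positivity), ?_⟩, ?_⟩
    · exact (Nat.mod_modEq r (m ^ j * q2)).of_dvd (by
        rw [mul_one]; exact dvd_mul_of_dvd_left (pow_dvd_pow m hj) _)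
    · rw [Nat.Coprime, (Nat.mod_modEq r (m ^ j * q2)).gcd_eq]
      exact hr
  have h9 : D = 0 := by
    rcases mul_eq_zero.1 h7 with h | h
    · exact absurd h (by exact_mod_cast h8.ne')
    · exact h
  rwa [h9] at hDr

/-- **the primes with a prime ideal in a narrow ray class have the expected mean in every residue class** -/
theorem mz_nc {m : ℕ} (hm : 2 ≤ m) (hn : Module.finrank ℚ K ∣ m)
    (hd : ∀ p : ℕ, p.Prime → (p : ℤ) ∣ discr K → p ∣ m) {htm : Ideal.span {(m : 𝓞 K)} ≠ ⊤}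
    (ht3 : Ideal.span {((m ^ 3 * 1 : ℕ) : 𝓞 K)} ≠ ⊤) (c : Cls (pi1 htm)) (H : ℝ) (Q : ℕ) :
    MZ Q (fun p => ((nc htm c p : ℝ) - gc ht3 c p) / (2 * H)) := by
  classical
  intro q hq1 _ r ε hε
  obtain ⟨j, q2, hj, h2, h3, h4⟩ := level m q (by omega)
  have hqne : m ^ j * q2 ≠ 0 := by positivity
  have h5 := tendsto_finsetSum ((range (m ^ j * q2)).filter (fun r' => r' ≡ r [MOD q]))
    fun r' _ => lim_level hm hn hd ht3 c j hj q2 h2 h3 r'
  rw [sum_const_zero] at h5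
  have h6 := h5.div_const (2 * H)
  rw [zero_div] at h6
  have h7 : Tendsto (fun N : ℕ => |(∑ r' ∈ (range (m ^ j * q2)).filter (fun r' => r' ≡ r [MOD q]),
      WW (fun p => (nc htm c p : ℝ) - gc ht3 c p) (m ^ j * q2) r' N / (Nat.primeCounting N : ℝ)) / (2 * H)|) atTop (𝓝 0) := by
    simpa using h6.abs
  obtain ⟨N0, hN0⟩ := eventually_atTop.1 (h7.eventually (gt_mem_nhds hε))
  refine ⟨N0 + 2, fun N hN => ?_⟩
  have h8 := hN0 N (by omega)
  have hπ : (0 : ℝ) < Nat.primeCounting N := by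
    have : Nat.primeCounting N ≠ 0 := by
      rw [Ne, Nat.primeCounting_eq_zero_iff]
      omega
    exact_mod_cast Nat.pos_of_ne_zero this
  have h9 : ∑ p ∈ (Icc 1 N).filter (fun p => p.Prime ∧ p ≡ r [MOD q]), ((nc htm c p : ℝ) - gc ht3 c p) / (2 * H) =
      WW (fun p => (nc htm c p : ℝ) - gc ht3 c p) q r N / (2 * H) := by
    unfold WW
    rw [← sum_div]
    congr 1
    apply sum_congr _ fun _ _ => rfl
    ext p
    simp only [mem_filter, mem_Icc, mem_range]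
    constructor
    · rintro ⟨h1, h2⟩; exact ⟨by omega, h2⟩
    · rintro ⟨h1, h2⟩; exact ⟨⟨h2.1.one_lt.le, by omega⟩, h2⟩
  rw [h9, WW_split _ hqne h4 r N]
  rw [← sum_div, div_right_comm, abs_div, abs_of_pos hπ, div_lt_iff₀ hπ] at h8
  exact h8.le

end

end Pool.Agent.U637.NR
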