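import Pool.Agent.U637.NR.T2

/-! Prime values of polynomials, for almost all integral constant terms: lower bounds of the expected order. -/

set_option autoImplicit false

namespace Pool.Agent.U637.NR
open Finset Polynomial Filter
open Pool.Agent.TH204.WR
open Pool.Agent.TH204.HP (AA AA_nonneg eval_le bulk)
open Pool.Agent.H373R2.T7 (pz Vz mem_pz)
open Pool.Agent.TH892.SW (wt)

open Classical in
theorem win (n : ℕ) (hn1 : 1 ≤ n) (F : ℤ[X]) (hn : F.natDegree = n + 1) (δ : ℝ) (hδ : 0 < δ) :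
    ∃ η : ℝ, 0 < η ∧ ∃ B X0 : ℕ, ∀ x : ℕ, X0 ≤ x → ∃ Bad : Finset ℤ, (#Bad : ℝ) ≤ δ * x ∧
    ∀ t : ℤ, |t| ≤ x → t ∉ Bad → (∀ p : ℕ, p.Prime → rho F t p < p) →
      ∀ a₁ b₁ : ℤ, a₁ < b₁ →
      (∀ m ∈ Ioc a₁ b₁, 2 ≤ F.eval m + t ∧
        ((F.eval m + t : ℤ) : ℝ) ≤ ((b₁ : ℝ) - a₁) * (rt n x ^ n * Real.log x ^ 1) ∧
        ((F.eval m + t : ℤ) : ℝ) ≤ (x : ℝ) ^ 2) →
      Real.log x ^ B ≤ (b₁ : ℝ) - a₁ →
      η * (((b₁ : ℝ) - a₁) / Real.log x) ≤ #((Ioc a₁ b₁).filter (fun m => (F.eval m + t).natAbs.Prime)) := by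
  obtain ⟨B, X1, h1⟩ := both n hn1 F hn 1 1 (1 / 2) (by norm_num)
  obtain ⟨η0, hη0, y, hy⟩ := hh_low F (by omega) (δ / 2) (by positivity)
  have hev : ∀ᶠ x : ℕ in atTop, (max (max 2 (2 / δ)) (y : ℝ) ≤ Real.log x) ∧
      Real.log x ^ (3 * (B + 1) + 5) ≤ (x : ℝ) ^ (1 : ℝ) := by
    filter_upwards [evt_log_ge (max (max 2 (2 / δ)) (y : ℝ)), evt_log_pow (3 * (B + 1) + 5) 1 (by norm_num)] with x h1 h2
    exact ⟨h1, h2⟩
  obtain ⟨X2, hX2⟩ := eventually_atTop.1 hev
  refine ⟨η0 / 4, by positivity, B, max X1 X2, fun x hx => ?_⟩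
  obtain ⟨Bad, -, hB2, hB3⟩ := h1 x ((le_max_left _ _).trans hx)
  obtain ⟨hL, h3B⟩ := hX2 x ((le_max_right _ _).trans hx)
  rw [Real.rpow_one] at h3B
  obtain ⟨L, hLd⟩ : ∃ L, L = Real.log x := ⟨_, rfl⟩
  rw [← hLd] at hL h3B hB2
  have hL2 : 2 ≤ L := ((le_max_left _ _).trans (le_max_left _ _)).trans hL
  have hLδ : 2 / δ ≤ L := ((le_max_right _ _).trans (le_max_left _ _)).trans hL
  have hLy : (y : ℝ) ≤ L := (le_max_right _ _).trans hL
  have hL0 : 0 < L := by linarith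
  have hL1 : 1 ≤ L := by linarith
  have hx0 : (0 : ℝ) < x := by
    refine lt_of_lt_of_le ?_ h3B
    positivity
  have hx1 : 1 ≤ x := by
    have : 0 < x := by exact_mod_cast hx0
    omega
  obtain ⟨z, hz⟩ : ∃ z : ℕ, z = ⌈L ^ B⌉₊ + y := ⟨_, rfl⟩
  have hz1 : L ^ B ≤ z := by
    rw [hz]
    push_cast
    have := Nat.le_ceil (L ^ B)
    have h2 : (0 : ℝ) ≤ y := Nat.cast_nonneg _
    linarith
  have hLB1 : 1 ≤ L ^ B := one_le_pow₀ hL1
  have hev3 : (z : ℝ) ≤ 3 * L ^ (B + 1) := by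
    have h4 : (⌈L ^ B⌉₊ : ℝ) ≤ L ^ B + 1 := (Nat.ceil_lt_add_one (by positivity)).le
    rw [hz]
    push_cast
    have h5 : L ≤ L ^ (B + 1) := le_self_pow₀ hL1 (by omega)
    have h6 : L ^ B ≤ L ^ (B + 1) := pow_le_pow_right₀ hL1 (by omega)
    linarith
  have hz3 : z ^ 3 ≤ x := by
    have : (z : ℝ) ^ 3 ≤ x := by
      calc (z : ℝ) ^ 3 ≤ (3 * L ^ (B + 1)) ^ 3 := pow_le_pow_left₀ (Nat.cast_nonneg _) hev3 3
        _ = 27 * L ^ (3 * (B + 1)) := by rw [mul_pow, ← pow_mul, mul_comm (B + 1) 3]; norm_num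
        _ ≤ L ^ 5 * L ^ (3 * (B + 1)) := by
            apply mul_le_mul_of_nonneg_right _ (by positivity)
            calc (27 : ℝ) ≤ 2 ^ 5 := by norm_num
              _ ≤ L ^ 5 := pow_le_pow_left₀ (by norm_num) hL2 5
        _ = L ^ (3 * (B + 1) + 5) := by rw [← pow_add]; ring_nf
        _ ≤ x := h3B
    exact_mod_cast this
  have hyz : y ≤ z := by omega
  refine ⟨Bad ∪ (Icc (-(x : ℤ)) x).filter (fun t => (∀ p : ℕ, p.Prime → rho F t p < p) ∧ hh F t z < η0), ?_, ?_⟩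
  · have h4 := hy x z hx1 hz3 hyz
    have h5 : (#(Bad ∪ (Icc (-(x : ℤ)) x).filter (fun t => (∀ p : ℕ, p.Prime → rho F t p < p) ∧ hh F t z < η0)) : ℝ) ≤
        #Bad + #((Icc (-(x : ℤ)) x).filter (fun t => (∀ p : ℕ, p.Prime → rho F t p < p) ∧ hh F t z < η0)) := by
      exact_mod_cast card_union_le _ _
    have h6 : (x : ℝ) / L ^ 1 ≤ δ / 2 * x := by
      rw [pow_one, div_le_iff₀ hL0]
      rw [div_le_iff₀ hδ] at hLδ
      nlinarith
    linarith
  · intro t ht htB hadm a b hab hv hlen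
    rw [mem_union, not_or, mem_filter, not_and, not_and, not_lt] at htB
    have htI : t ∈ Icc (-(x : ℤ)) x := by
      rw [mem_Icc, ← abs_le]
      exact ht
    have hhl := htB.2 htI hadm
    obtain ⟨-, h5⟩ := hB3 t htI htB.1 hadm z (by rw [← hLd]; exact hz1) hz3
    obtain ⟨h6, -⟩ := h5 a b hab (fun m hm => ⟨(hv m hm).1, (hv m hm).2.1⟩)
    have h7 := (abs_le.1 (h6 hlen)).1
    have hba : (0 : ℝ) < (b : ℝ) - a := by
      have : (a : ℝ) < b := by exact_mod_cast hab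
      linarith
    have hxlog : Real.log ((x : ℝ) ^ 2) = 2 * L := by rw [Real.log_pow, hLd]; push_cast; ring
    have hS : ((b : ℝ) - a) * (1 / (2 * L)) ≤ ∑ m ∈ Ioc a b, wt (F.eval m + t).natAbs := by
      have h8 : ∑ m ∈ Ioc a b, (1 / (2 * L)) = ((b : ℝ) - a) * (1 / (2 * L)) := by
        rw [sum_const, Int.card_Ioc, nsmul_eq_mul]
        congr 1
        have : (((b - a).toNat : ℕ) : ℤ) = b - a := Int.toNat_of_nonneg (by linarith)
        exact_mod_cast this
      rw [← h8]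
      apply sum_le_sum
      intro m hm
      obtain ⟨v1, -, v3⟩ := hv m hm
      have e : (((F.eval m + t).natAbs : ℕ) : ℝ) = ((F.eval m + t : ℤ) : ℝ) := by
        rw [Nat.cast_natAbs, abs_of_nonneg (by linarith)]
      unfold wt
      rw [e]
      have h9 : (2 : ℝ) ≤ ((F.eval m + t : ℤ) : ℝ) := by exact_mod_cast v1
      apply one_div_le_one_div_of_le (Real.log_pos (by linarith))
      rw [← hxlog]
      exact Real.log_le_log (by linarith) v3
    obtain ⟨S, hSd⟩ : ∃ S, S = ∑ m ∈ Ioc a b, wt (F.eval m + t).natAbs := ⟨_, rfl⟩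
    rw [← hSd] at hS h7
    have hS0 : 0 ≤ S := le_trans (by positivity) hS
    have h10 : η0 * (((b : ℝ) - a) * (1 / (2 * L))) ≤ hh F t z * S := mul_le_mul hhl hS (by positivity) (hη0.le.trans hhl)
    have e2 : η0 / 4 * (((b : ℝ) - a) / L) = 1 / 2 * (η0 * (((b : ℝ) - a) * (1 / (2 * L)))) := by
      field_simp
      ring
    rw [← hLd, e2]
    linarith

/-- the number of the primes in a window is a number of primes on a half-line -/
lemma window_nat (F : ℤ[X]) (t : ℤ) (a b : ℤ) (ha : 0 ≤ a) (x : ℕ) (hb : b ≤ x) (hv : ∀ m ∈ Ioc a b, 2 ≤ F.eval m + t) :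
    #((Ioc a b).filter (fun m => (F.eval m + t).natAbs.Prime)) ≤
      #((Icc 1 x).filter (fun m : ℕ => (t + F.eval (m : ℤ)).toNat.Prime)) := by
  apply card_le_card_of_injOn (fun m : ℤ => m.toNat)
  · intro m hm
    rw [mem_coe, mem_filter, mem_Ioc] at hm
    have hm' : ((m.toNat : ℕ) : ℤ) = m := Int.toNat_of_nonneg (by linarith [hm.1.1])
    have h1 := hv m (mem_Ioc.2 hm.1)
    have h2 : (t + F.eval m).toNat = (F.eval m + t).natAbs := by omega
    have h3 : m.toNat ∈ (Icc 1 x).filter (fun m : ℕ => (t + F.eval (m : ℤ)).toNat.Prime) := by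
      rw [mem_filter, mem_Icc, hm', h2]
      exact ⟨⟨by omega, by omega⟩, hm.2⟩
    exact h3
  · intro m hm m' hm' h
    rw [mem_coe, mem_filter, mem_Ioc] at hm hm'
    simp only at h
    omega

lemma rt_ge (n : ℕ) (B X : ℕ) (hB : 1 ≤ B) : (X : ℝ) ≤ rt n (B * X ^ (n + 1)) := by
  have h1 : (X : ℝ) ^ (n + 1) ≤ rt n (B * X ^ (n + 1)) ^ (n + 1) := by
    rw [rt_pow]
    push_cast
    have : (1 : ℝ) ≤ B := by exact_mod_cast hB
    nlinarith [pow_nonneg (Nat.cast_nonneg (α := ℝ) X) (n + 1)]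
  exact le_of_pow_le_pow_left₀ (by omega) (rt_nonneg _ _) h1

open Classical in
/-- positive leading coefficient -/
theorem cnt_pos (n : ℕ) (hn1 : 1 ≤ n) (F : ℤ[X]) (hn : F.natDegree = n + 1) (hl : 0 < F.leadingCoeff) (B : ℕ) (hB : 1 ≤ B)
    (δ : ℝ) (hδ : 0 < δ) :
    ∃ η : ℝ, 0 < η ∧ ∃ X0 : ℕ, ∀ X : ℕ, X0 ≤ X → ∃ Bad : Finset ℤ, (#Bad : ℝ) ≤ δ * (X : ℝ) ^ (n + 1) ∧
    ∀ t : ℤ, |t| ≤ ((B * X ^ (n + 1) : ℕ) : ℤ) → t ∉ Bad → (∀ p : ℕ, p.Prime → rho F t p < p) →
      η * (X / Real.log X) ≤ #((Icc 1 (8 * B * X)).filter (fun m : ℕ => (t + F.eval (m : ℤ)).toNat.Prime)) := by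
  obtain ⟨η, hη, B', X1, h1⟩ := win n hn1 F hn (δ / B) (by positivity)
  obtain ⟨A, hA⟩ : ∃ A : ℕ, A = (AA F + AA F.eraseLead).toNat + 2 := ⟨_, rfl⟩
  have hA1 := AA_nonneg F
  have hA2 := AA_nonneg F.eraseLead
  have hA3 : AA F + 1 ≤ A := by omega
  have hA4 : 2 * AA F.eraseLead + 2 ≤ 2 * A := by omega
  have hBr : (1 : ℝ) ≤ B := by exact_mod_cast hB
  obtain ⟨D, hD⟩ : ∃ D : ℝ, D = (A : ℝ) * 2 ^ (n + 1) * (4 * B) ^ (n + 1) := ⟨_, rfl⟩
  have hev : ∀ᶠ x : ℕ in atTop, (D + 2 ≤ Real.log x) ∧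
      Real.log x ^ (B' + 1) ≤ (x : ℝ) ^ ((1 : ℝ) / (n + 1)) := by
    filter_upwards [evt_log_ge (D + 2), evt_log_pow (B' + 1) ((1 : ℝ) / (n + 1)) (by positivity)] with x h1 h2
    exact ⟨h1, h2⟩
  obtain ⟨X2, hX2⟩ := eventually_atTop.1 hev
  refine ⟨η * (4 * B) / (2 * (n + 1)), by positivity, X1 + X2 + A + 2 + B, fun X hX => ?_⟩
  have hX1 : 1 ≤ X := by omega
  have hXr : (1 : ℝ) ≤ X := by exact_mod_cast hX1
  obtain ⟨x, hx⟩ : ∃ x : ℕ, x = B * X ^ (n + 1) := ⟨_, rfl⟩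
  have hXx : X ≤ x := by
    rw [hx]
    calc X = 1 * X ^ 1 := by ring
      _ ≤ B * X ^ (n + 1) := Nat.mul_le_mul hB (Nat.pow_le_pow_right hX1 (by omega))
  obtain ⟨Bad, hB1, hB2⟩ := h1 x (by omega)
  obtain ⟨hL, hR⟩ := hX2 x (by omega)
  refine ⟨Bad, ?_, ?_⟩
  · refine hB1.trans (le_of_eq ?_)
    rw [hx]
    push_cast
    field_simp
  · intro t ht htB hadm
    rw [← hx] at ht
    obtain ⟨W, hW⟩ : ∃ W : ℤ, W = 4 * B * X := ⟨_, rfl⟩
    have hXz : (1 : ℤ) ≤ X := by exact_mod_cast hX1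
    have hBz : (1 : ℤ) ≤ B := by exact_mod_cast hB
    have hAX : (A : ℤ) ≤ X := by exact_mod_cast (by omega : A ≤ X)
    have hW1 : 2 * AA F.eraseLead + 2 ≤ W := by
      rw [hW]
      nlinarith
    have hWx : 4 * (x : ℤ) ≤ W ^ (n + 1) := by
      rw [hW, hx]
      push_cast
      rw [mul_pow, ← mul_assoc]
      apply mul_le_mul_of_nonneg_right _ (by positivity)
      exact le_self_pow₀ (by linarith) (by omega)
    have hWpos : 0 < W := by rw [hW]; positivity
    have hWr : (W : ℝ) = 4 * B * X := by rw [hW]; push_cast; ring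
    have hrt := rt_ge n B X hB
    rw [← hx] at hrt
    have hrtx : rt n x = (x : ℝ) ^ ((1 : ℝ) / (n + 1)) := rfl
    have hL1 : 1 ≤ Real.log x := by
      have : 0 ≤ D := by rw [hD]; positivity
      linarith
    have hL0 : 0 < Real.log x := by linarith
    have hval : ∀ m ∈ Ioc W (2 * W), 2 ≤ F.eval m + t ∧
        ((F.eval m + t : ℤ) : ℝ) ≤ D * (X : ℝ) ^ (n + 1) := by
      intro m hm
      rw [mem_Ioc] at hm
      obtain ⟨h4, h5⟩ := bulk F n hn hl x t ht W hW1 hWx (by omega) m hm.1 hm.2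
      refine ⟨h4, ?_⟩
      have h6 : ((F.eval m + t : ℤ) : ℝ) ≤ ((AA F : ℝ) + 1) * 2 ^ (n + 1) * (W : ℝ) ^ (n + 1) := by exact_mod_cast h5
      refine h6.trans ?_
      have h7 : (AA F : ℝ) + 1 ≤ A := by exact_mod_cast hA3
      rw [hWr, hD, mul_pow (4 * (B : ℝ)) (X : ℝ), ← mul_assoc]
      gcongr
    have hDn : 0 ≤ D := by rw [hD]; positivity
    have hlen : ((2 * W : ℤ) : ℝ) - (W : ℝ) = 4 * B * X := by push_cast; linarith
    have hxr : (x : ℝ) = B * (X : ℝ) ^ (n + 1) := by rw [hx]; push_cast; ring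
    have key := hB2 t ht htB hadm W (2 * W) (by linarith) (fun m hm => ?_) ?_
    · rw [hlen] at key
      have h8 := window_nat F t W (2 * W) hWpos.le (8 * B * X) (by rw [hW]; push_cast; linarith) (fun m hm => (hval m hm).1)
      have h9 : (#((Ioc W (2 * W)).filter (fun m => (F.eval m + t).natAbs.Prime)) : ℝ) ≤
        #((Icc 1 (8 * B * X)).filter (fun m : ℕ => (t + F.eval (m : ℤ)).toNat.Prime)) := by exact_mod_cast h8
      refine le_trans ?_ (key.trans h9)
      have hlx : Real.log x ≤ (2 * (n + 1)) * Real.log X := by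
        have hBX : (B : ℝ) ≤ X := by exact_mod_cast (by omega : B ≤ X)
        have hx' : (x : ℝ) ≤ (X : ℝ) ^ (2 * (n + 1)) := by
          rw [hxr]
          calc (B : ℝ) * (X : ℝ) ^ (n + 1) ≤ X * (X : ℝ) ^ (n + 1) := by gcongr
            _ = (X : ℝ) ^ (n + 2) := by ring
            _ ≤ _ := pow_le_pow_right₀ hXr (by omega)
        have h10 := Real.log_le_log (by exact_mod_cast (by omega : 0 < x)) hx'
        rw [Real.log_pow] at h10
        push_cast at h10
        exact h10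
      have hlX : 0 < Real.log X := Real.log_pos (by exact_mod_cast (by omega : 1 < X))
      have e1 : η * (4 * B) / (2 * (n + 1)) * (X / Real.log X) = η * (4 * B * X / ((2 * (n + 1)) * Real.log X)) := by
        field_simp
      rw [e1]
      gcongr
    · obtain ⟨v1, v2⟩ := hval m hm
      refine ⟨v1, ?_, ?_⟩
      · rw [hlen, pow_one]
        refine v2.trans ?_
        have h10 : (X : ℝ) ^ n ≤ rt n x ^ n := pow_le_pow_left₀ (by positivity) hrt n
        calc D * (X : ℝ) ^ (n + 1) = X * ((X : ℝ) ^ n * D) := by ring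
          _ ≤ 4 * B * X * (rt n x ^ n * Real.log x) := by
              apply mul_le_mul _ _ (by positivity) (by positivity)
              · nlinarith
              · exact mul_le_mul h10 (by linarith) hDn (pow_nonneg (rt_nonneg n x) n)
      · refine v2.trans ?_
        have h11 : (X : ℝ) ^ (n + 1) ≤ x := by
          rw [hxr]
          nlinarith [pow_nonneg (Nat.cast_nonneg (α := ℝ) X) (n + 1)]
        have h12 : D ≤ x := by
          have : Real.log x ≤ x := (Real.log_le_sub_one_of_pos (by exact_mod_cast (by omega : 0 < x))).trans (by linarith)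
          linarith
        rw [sq]
        exact mul_le_mul h12 h11 (by positivity) (by positivity)
    · rw [hlen]
      rw [← hrtx] at hR
      have hup : rt n x ≤ 4 * B * X := by
        have : rt n x ^ (n + 1) ≤ (4 * B * X) ^ (n + 1) := by
          rw [rt_pow, hxr, mul_pow (4 * (B : ℝ)) (X : ℝ)]
          apply mul_le_mul_of_nonneg_right _ (by positivity)
          calc (B : ℝ) ≤ 4 * B := by linarith
            _ ≤ (4 * B) ^ (n + 1) := le_self_pow₀ (by linarith) (by omega)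
        exact le_of_pow_le_pow_left₀ (by omega) (by positivity) this
      refine (le_trans ?_ hR).trans hup
      exact pow_le_pow_right₀ hL1 (by omega)

open Classical in
/-- large positive constant term -/
theorem cnt_neg (n : ℕ) (hn1 : 1 ≤ n) (F : ℤ[X]) (hn : F.natDegree = n + 1) (B : ℕ) (hB : 1 ≤ B)
    (δ : ℝ) (hδ : 0 < δ) (κ : ℝ) (hκ : 0 < κ) (hκB : κ ≤ 1) :
    ∃ η : ℝ, 0 < η ∧ ∃ J : ℕ, 1 ≤ J ∧ ∃ X0 : ℕ, ∀ X : ℕ, X0 ≤ X → ∃ Bad : Finset ℤ, (#Bad : ℝ) ≤ δ * (X : ℝ) ^ (n + 1) ∧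
    ∀ t : ℤ, κ * (X : ℝ) ^ (n + 1) ≤ t → t ≤ ((B * X ^ (n + 1) : ℕ) : ℤ) → t ∉ Bad → (∀ p : ℕ, p.Prime → rho F t p < p) →
      η * (X / Real.log X) ≤ #((Icc 1 (X / J)).filter (fun m : ℕ => (t + F.eval (m : ℤ)).toNat.Prime)) := by
  obtain ⟨η, hη, B', X1, h1⟩ := win n hn1 F hn (δ / B) (by positivity)
  have hA1 := AA_nonneg F
  have hBr : (1 : ℝ) ≤ B := by exact_mod_cast hB
  obtain ⟨J, hJ⟩ := exists_nat_ge (2 * (AA F : ℝ) / κ + 1)
  have hA1r : (0 : ℝ) ≤ AA F := by exact_mod_cast hA1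
  have hJ1 : (1 : ℝ) ≤ J := by
    have : 0 ≤ 2 * (AA F : ℝ) / κ := by positivity
    linarith
  have hJ1' : 1 ≤ J := by exact_mod_cast hJ1
  have hJA : 2 * (AA F : ℝ) ≤ κ * J := by
    have : 2 * (AA F : ℝ) / κ ≤ J := by linarith
    rw [div_le_iff₀ hκ] at this
    linarith
  have hev : ∀ᶠ x : ℕ in atTop, (8 * J * B + 2 ≤ Real.log x) ∧
      Real.log x ^ (B' + 1) ≤ (x : ℝ) ^ ((1 : ℝ) / (n + 1)) := by
    filter_upwards [evt_log_ge (8 * J * B + 2), evt_log_pow (B' + 1) ((1 : ℝ) / (n + 1)) (by positivity)] with x h1 h2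
    exact ⟨h1, h2⟩
  obtain ⟨X2, hX2⟩ := eventually_atTop.1 hev
  refine ⟨η / (4 * J * (n + 1)), by positivity, J, hJ1', X1 + X2 + B + 2 * J + 2 + ⌈4 / κ⌉₊, fun X hX => ?_⟩
  have hX1 : 1 ≤ X := by omega
  have hXr : (1 : ℝ) ≤ X := by exact_mod_cast hX1
  obtain ⟨x, hx⟩ : ∃ x : ℕ, x = B * X ^ (n + 1) := ⟨_, rfl⟩
  have hXx : X ≤ x := by
    rw [hx]
    calc X = 1 * X ^ 1 := by ring
      _ ≤ B * X ^ (n + 1) := Nat.mul_le_mul hB (Nat.pow_le_pow_right hX1 (by omega))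
  obtain ⟨Bad, hB1, hB2⟩ := h1 x (by omega)
  obtain ⟨hL, hR⟩ := hX2 x (by omega)
  refine ⟨Bad, ?_, ?_⟩
  · refine hB1.trans (le_of_eq ?_)
    rw [hx]
    push_cast
    field_simp
  · intro t ht1 ht2 htB hadm
    rw [← hx] at ht2
    have hXp : (X : ℝ) ≤ (X : ℝ) ^ (n + 1) := le_self_pow₀ hXr (by omega)
    have hκX : 4 ≤ κ * (X : ℝ) ^ (n + 1) := by
      have h3 : 4 / κ ≤ X := by
        refine (Nat.le_ceil _).trans ?_
        exact_mod_cast (by omega : ⌈4 / κ⌉₊ ≤ X)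
      rw [div_le_iff₀ hκ] at h3
      nlinarith
    have ht0 : (4 : ℝ) ≤ t := hκX.trans ht1
    have ht0' : (0 : ℤ) < t := by
      have : (0 : ℝ) < t := by linarith
      exact_mod_cast this
    have ht : |t| ≤ (x : ℤ) := by rw [abs_of_pos ht0']; exact ht2
    obtain ⟨H, hH⟩ : ∃ H : ℕ, H = X / J := ⟨_, rfl⟩
    rw [← hH]
    have hH1 : H * J ≤ X := by rw [hH]; exact Nat.div_mul_le_self _ _
    have hH2 : X < (H + 1) * J := by 
      rw [hH]
      have := Nat.div_add_mod X J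
      have h3 := Nat.mod_lt X hJ1'
      nlinarith
    have hHJ : (H : ℝ) * J ≤ X := by exact_mod_cast hH1
    have hH3 : (X : ℝ) ≤ 2 * J * H := by
      have h3 : X ≤ 2 * J * H := by
        have : 2 * J ≤ X := by omega
        nlinarith
      exact_mod_cast h3
    have hHpos : 1 ≤ H := by
      by_contra hcon
      have : H = 0 := by omega
      rw [this] at hH3
      simp at hH3
      linarith
    have hHr : (1 : ℝ) ≤ H := by exact_mod_cast hHpos
    have hxr : (x : ℝ) = B * (X : ℝ) ^ (n + 1) := by rw [hx]; push_cast; ring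
    have hval : ∀ m ∈ Ioc (0 : ℤ) H, 2 ≤ F.eval m + t ∧ ((F.eval m + t : ℤ) : ℝ) ≤ 2 * x := by
      intro m hm
      rw [mem_Ioc] at hm
      have h4 := eval_le F (n + 1) hn.le m (by rw [abs_of_pos hm.1]; linarith [hm.1])
      rw [abs_of_pos hm.1] at h4
      have h5 : |((F.eval m : ℤ) : ℝ)| ≤ t / 2 := by
        have h6 : |((F.eval m : ℤ) : ℝ)| ≤ (AA F : ℝ) * (m : ℝ) ^ (n + 1) := by exact_mod_cast h4
        have h7 : (m : ℝ) ≤ H := by exact_mod_cast hm.2
        have h8 : (m : ℝ) ^ (n + 1) ≤ (H : ℝ) ^ (n + 1) :=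
          pow_le_pow_left₀ (by exact_mod_cast hm.1.le) h7 _
        have h9 : J * (H : ℝ) ^ (n + 1) ≤ (X : ℝ) ^ (n + 1) := by
          calc (J : ℝ) * (H : ℝ) ^ (n + 1) ≤ (J : ℝ) ^ (n + 1) * (H : ℝ) ^ (n + 1) := by
                apply mul_le_mul_of_nonneg_right _ (by positivity)
                exact le_self_pow₀ hJ1 (by omega)
            _ = (H * J : ℝ) ^ (n + 1) := by rw [mul_pow, mul_comm]
            _ ≤ (X : ℝ) ^ (n + 1) := pow_le_pow_left₀ (by positivity) hHJ _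
        have h10 : (AA F : ℝ) * (H : ℝ) ^ (n + 1) ≤ κ * (X : ℝ) ^ (n + 1) / 2 := by
          have h11 : 2 * (AA F : ℝ) * (H : ℝ) ^ (n + 1) ≤ κ * (J * (H : ℝ) ^ (n + 1)) := by
            rw [← mul_assoc]
            exact mul_le_mul_of_nonneg_right hJA (by positivity)
          have h12 := mul_le_mul_of_nonneg_left h9 hκ.le
          linarith
        have h13 := mul_le_mul_of_nonneg_left h8 hA1r
        linarith
      rw [abs_le] at h5
      have htx : (t : ℝ) ≤ x := by exact_mod_cast ht2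
      constructor
      · have h6 : (2 : ℝ) ≤ ((F.eval m + t : ℤ) : ℝ) := by push_cast; linarith
        exact_mod_cast h6
      · push_cast
        linarith
    have hlen : (((H : ℕ) : ℤ) : ℝ) - ((0 : ℤ) : ℝ) = H := by push_cast; ring
    have hrt := rt_ge n B X hB
    rw [← hx] at hrt
    have hrtx : rt n x = (x : ℝ) ^ ((1 : ℝ) / (n + 1)) := rfl
    have hL1 : 1 ≤ Real.log x := by
      have : (0 : ℝ) ≤ 8 * J * B := by positivity
      linarith
    have hL0 : 0 < Real.log x := by linarith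
    have hx2 : (2 : ℝ) ≤ x := by
      have : 2 ≤ x := by omega
      exact_mod_cast this
    have key := hB2 t ht htB hadm 0 H (by exact_mod_cast hHpos) (fun m hm => ?_) ?_
    · rw [hlen] at key
      have h8 := window_nat F t 0 H le_rfl H le_rfl (fun m hm => (hval m hm).1)
      have h9 : (#((Ioc (0 : ℤ) H).filter (fun m => (F.eval m + t).natAbs.Prime)) : ℝ) ≤
        #((Icc 1 H).filter (fun m : ℕ => (t + F.eval (m : ℤ)).toNat.Prime)) := by exact_mod_cast h8
      refine le_trans ?_ (key.trans h9)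
      have hlx : Real.log x ≤ (2 * (n + 1)) * Real.log X := by
        have hBX : (B : ℝ) ≤ X := by exact_mod_cast (by omega : B ≤ X)
        have hx' : (x : ℝ) ≤ (X : ℝ) ^ (2 * (n + 1)) := by
          rw [hxr]
          calc (B : ℝ) * (X : ℝ) ^ (n + 1) ≤ X * (X : ℝ) ^ (n + 1) := by gcongr
            _ = (X : ℝ) ^ (n + 2) := by ring
            _ ≤ _ := pow_le_pow_right₀ hXr (by omega)
        have h10 := Real.log_le_log (by linarith) hx'
        rw [Real.log_pow] at h10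
        push_cast at h10
        exact h10
      have hlX : 0 < Real.log X := Real.log_pos (by exact_mod_cast (by omega : 1 < X))
      have e1 : η / (4 * J * (n + 1)) * (X / Real.log X) = η * ((X / (2 * J)) / ((2 * (n + 1)) * Real.log X)) := by
        rw [div_mul_div_comm, div_div, mul_div_assoc']
        congr 1
        ring
      rw [e1]
      have h14 : (X : ℝ) / (2 * J) ≤ H := by
        rw [div_le_iff₀ (by positivity)]
        linarith
      gcongr
    · obtain ⟨v1, v2⟩ := hval m hm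
      refine ⟨v1, ?_, ?_⟩
      · rw [hlen, pow_one]
        refine v2.trans ?_
        have h10 : (X : ℝ) ^ n ≤ rt n x ^ n := pow_le_pow_left₀ (by positivity) hrt n
        calc 2 * (x : ℝ) = X * ((X : ℝ) ^ n * (2 * B)) := by rw [hxr]; ring
          _ ≤ (2 * J * H) * ((X : ℝ) ^ n * (2 * B)) := mul_le_mul_of_nonneg_right hH3 (by positivity)
          _ = H * ((X : ℝ) ^ n * (4 * J * B)) := by ring
          _ ≤ H * (rt n x ^ n * Real.log x) := by
              apply mul_le_mul_of_nonneg_left _ (by positivity)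
              apply mul_le_mul h10 _ (by positivity) (pow_nonneg (rt_nonneg n x) n)
              have : (0 : ℝ) ≤ J * B := by positivity
              linarith
      · refine v2.trans ?_
        rw [sq]
        exact mul_le_mul_of_nonneg_right hx2 (by positivity)
    · rw [hlen]
      rw [← hrtx] at hR
      have hup : rt n x ≤ B * X := by
        have : rt n x ^ (n + 1) ≤ (B * X) ^ (n + 1) := by
          rw [rt_pow, hxr, mul_pow (B : ℝ) (X : ℝ)]
          apply mul_le_mul_of_nonneg_right _ (by positivity)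
          exact le_self_pow₀ hBr (by omega)
        exact le_of_pow_le_pow_left₀ (by omega) (by positivity) this
      have h15 : Real.log x ^ B' * Real.log x ≤ B * (2 * J * H) := by
        rw [← pow_succ]
        refine (hR.trans hup).trans ?_
        exact mul_le_mul_of_nonneg_left hH3 (by positivity)
      have h16 : (0 : ℝ) ≤ Real.log x ^ B' := by positivity
      have h17 : Real.log x ^ B' * (8 * J * B) ≤ B * (2 * J * H) := by
        refine le_trans ?_ h15
        apply mul_le_mul_of_nonneg_left _ h16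
        linarith
      have h18 : Real.log x ^ B' * (4 * (2 * J * B)) ≤ H * (2 * J * B) := by
        calc Real.log x ^ B' * (4 * (2 * J * B)) = Real.log x ^ B' * (8 * J * B) := by ring
          _ ≤ B * (2 * J * H) := h17
          _ = H * (2 * J * B) := by ring
      have h19 : (0 : ℝ) < 2 * J * B := by positivity
      nlinarith

end Pool.Agent.U637.NR
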