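import Pool.Agent.U637.NR.T1
import Pool.Agent.U637.NR.T3
import Pool.Agent.TH204.HP.H3

/-! Prime values of polynomials in sets of primes with prescribed mean values, for almost all constant terms. -/

set_option autoImplicit false

namespace Pool.Agent.U637.NR
open Finset Polynomial Filter
open Pool.Agent.TH204.WR
open Pool.Agent.TH204.HP (rho_lt_deg)
open Pool.Agent.TH204.QF (rho_lt)
open Pool.Agent.U637.TP (MZ pv)

/-- the deduction for one constant term -/
lemma deduce (h g : ℕ → ℝ) (H γ : ℝ) (hH : 1 ≤ H) (M1 : ℕ) (hM1 : 0 < M1)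
    (hg : ∀ m, g m = g (m % M1)) (F : ℤ[X]) (hM : ∀ w : ℤ, (M1 : ℤ) ∣ F.eval w) (t : ℤ) (htM : IsCoprime t (M1 : ℤ))
    (hγ : γ ≤ g (t % (M1 : ℤ)).toNat) (hγ0 : 0 < γ) (x : ℕ) (C E : ℝ)
    (h1 : C ≤ #((Icc 1 x).filter (fun m : ℕ => (t + F.eval (m : ℤ)).toNat.Prime)))
    (h2 : |∑ n ∈ Icc 1 x, pv (fun p => (h p - g p) / (2 * H)) (t + F.eval (n : ℤ))| ≤ E)
    (h3 : 2 * H * E < γ * C) :
    ∃ m : ℕ, 1 ≤ m ∧ m ≤ x ∧ ∃ q : ℕ, q.Prime ∧ t + F.eval (m : ℤ) = q ∧ 0 < h q ∧ ¬ q ∣ M1 := by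
  have hH0 : (0 : ℝ) < 2 * H := by linarith
  have e1 : ∑ n ∈ Icc 1 x, pv (fun p => (h p - g p) / (2 * H)) (t + F.eval (n : ℤ)) =
      (∑ n ∈ Icc 1 x, pv h (t + F.eval (n : ℤ)) - ∑ n ∈ Icc 1 x, pv g (t + F.eval (n : ℤ))) / (2 * H) := by
    rw [← sum_sub_distrib, sum_div]
    apply sum_congr rfl
    intro n _
    unfold pv
    split_ifs <;> ring
  have e2 : ∑ n ∈ Icc 1 x, pv g (t + F.eval (n : ℤ)) =
      g (t % (M1 : ℤ)).toNat * #((Icc 1 x).filter (fun m : ℕ => (t + F.eval (m : ℤ)).toNat.Prime)) := by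
    rw [card_filter]
    push_cast
    rw [mul_sum]
    apply sum_congr rfl
    intro n _
    unfold pv
    split_ifs with hp
    · rw [mul_one, hg]
      congr 1
      have h0 : 0 < t + F.eval (n : ℤ) := by
        by_contra hcon
        have : (t + F.eval (n : ℤ)).toNat = 0 := by omega
        rw [this] at hp
        exact Nat.not_prime_zero hp
      have hMz : (0 : ℤ) < M1 := by exact_mod_cast hM1
      have h5 : (((t + F.eval (n : ℤ)).toNat % M1 : ℕ) : ℤ) = (t + F.eval (n : ℤ)) % M1 := by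
        push_cast
        rw [Int.toNat_of_nonneg h0.le]
      have h6 : (t + F.eval (n : ℤ)) % (M1 : ℤ) = t % M1 := by
        rw [Int.add_emod, Int.emod_eq_zero_of_dvd (hM _), add_zero, Int.emod_emod_of_dvd _ dvd_rfl]
      rw [h6] at h5
      omega
    · rw [mul_zero]
  rw [e1, abs_div, abs_of_pos hH0, div_le_iff₀ hH0, e2] at h2
  have h4 := (abs_le.1 h2).1
  have h5 : 0 < ∑ n ∈ Icc 1 x, pv h (t + F.eval (n : ℤ)) := by
    have h6 : γ * C ≤ g (t % (M1 : ℤ)).toNat * #((Icc 1 x).filter (fun m : ℕ => (t + F.eval (m : ℤ)).toNat.Prime)) := by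
      calc γ * C ≤ γ * #((Icc 1 x).filter (fun m : ℕ => (t + F.eval (m : ℤ)).toNat.Prime)) :=
            mul_le_mul_of_nonneg_left h1 hγ0.le
        _ ≤ _ := mul_le_mul_of_nonneg_right hγ (Nat.cast_nonneg _)
    linarith
  obtain ⟨n, hn, hn2⟩ := exists_lt_of_sum_lt (s := Icc 1 x) (f := fun _ => (0 : ℝ))
    (g := fun n : ℕ => pv h (t + F.eval (n : ℤ))) (by simpa using h5)
  rw [mem_Icc] at hn
  unfold pv at hn2
  split_ifs at hn2 with hp
  · have h0 : 0 < t + F.eval (n : ℤ) := by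
      by_contra hcon
      have : (t + F.eval (n : ℤ)).toNat = 0 := by omega
      rw [this] at hp
      exact Nat.not_prime_zero hp
    refine ⟨n, hn.1, hn.2, _, hp, (Int.toNat_of_nonneg h0.le).symm, hn2, fun hq => ?_⟩
    have h7 : ((t + F.eval (n : ℤ)).toNat : ℤ) ∣ (M1 : ℤ) := by exact_mod_cast hq
    have h8 : ((t + F.eval (n : ℤ)).toNat : ℤ) ∣ t := by
      have h9 := h7.trans (hM n)
      rw [Int.toNat_of_nonneg h0.le] at h9 ⊢
      exact (dvd_add_left h9).1 dvd_rfl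
    have h10 := htM.isUnit_of_dvd' h8 h7
    have h11 := Int.natAbs_of_isUnit h10
    rw [Int.natAbs_natCast] at h11
    exact hp.one_lt.ne' h11
  · exact absurd hn2 (lt_irrefl _)

open Classical in
theorem prime_in (n : ℕ) (hn1 : 1 ≤ n) (F : ℤ[X]) (hn : F.natDegree = n + 1) (M1 : ℕ) (hM1 : 0 < M1)
    (hM : ∀ w : ℤ, (M1 : ℤ) ∣ F.eval w)
    (hbig : ∀ p : ℕ, p.Prime → (p ≤ n + 1 ∨ (p : ℤ) ∣ F.leadingCoeff) → p ∣ M1)
    (h g : ℕ → ℝ) (H γ : ℝ) (hH : 1 ≤ H) (hh0 : ∀ p, 0 ≤ h p) (hhH : ∀ p, h p ≤ H) (hgH : ∀ p, |g p| ≤ H)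
    (hg : ∀ m, g m = g (m % M1)) (hmz : ∀ Q, MZ Q (fun p => (h p - g p) / (2 * H))) (hγ0 : 0 < γ)
    (B : ℕ) (hB : 1 ≤ B) (ε κ : ℝ) (hε : 0 < ε) (hκ : 0 < κ) (hκ1 : κ ≤ 1) :
    ∃ X0 : ℕ, ∀ X : ℕ, X0 ≤ X → ∃ Bad : Finset ℤ, (#Bad : ℝ) ≤ ε * (X : ℝ) ^ (n + 1) ∧
      ∀ t : ℤ, |t| ≤ ((B * X ^ (n + 1) : ℕ) : ℤ) → t ∉ Bad → IsCoprime t (M1 : ℤ) →
        (0 < F.leadingCoeff ∨ κ * (X : ℝ) ^ (n + 1) ≤ t) → γ ≤ g (t % (M1 : ℤ)).toNat →
        ∃ m : ℕ, 1 ≤ m ∧ ∃ q : ℕ, q.Prime ∧ t + F.eval (m : ℤ) = q ∧ 0 < h q ∧ ¬ q ∣ M1 := by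
  have hadm : ∀ t : ℤ, IsCoprime t (M1 : ℤ) → ∀ p : ℕ, p.Prime → rho F t p < p := by
    intro t ht p hp
    by_cases hpM : p ∣ M1
    · apply rho_lt F t p hp
      refine ⟨0, fun hdiv => ?_⟩
      have h7 : (p : ℤ) ∣ (M1 : ℤ) := by exact_mod_cast hpM
      have h8 : (p : ℤ) ∣ t := (dvd_add_right (h7.trans (hM 0))).1 hdiv
      have h10 := ht.isUnit_of_dvd' h8 h7
      have h11 := Int.natAbs_of_isUnit h10
      rw [Int.natAbs_natCast] at h11
      exact hp.one_lt.ne' h11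
    · have h1 : ¬ (p ≤ n + 1 ∨ (p : ℤ) ∣ F.leadingCoeff) := fun h => hpM (hbig p hp h)
      rw [not_or, not_le] at h1
      exact rho_lt_deg F t p hp (by rw [hn]; exact h1.1) h1.2 (by omega)
  have hhb : ∀ p, |(h p - g p) / (2 * H)| ≤ 1 := by
    intro p
    rw [abs_div, abs_of_pos (by linarith : (0 : ℝ) < 2 * H), div_le_one (by linarith)]
    have h1 := abs_le.1 (hgH p)
    rw [abs_le]
    constructor
    · linarith [hh0 p]
    · linarith [hhH p]
  have hl0 : F.leadingCoeff ≠ 0 := by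
    rw [Ne, leadingCoeff_eq_zero]
    rintro rfl
    simp at hn
  have hBr : (1 : ℝ) ≤ B := by exact_mod_cast hB
  rcases lt_or_gt_of_ne hl0 with hl | hl
  · -- negative leading coefficient
    obtain ⟨η, hη, J, hJ, X1, h1⟩ := cnt_neg n hn1 F hn B hB (ε / 2) (by positivity) κ hκ hκ1
    have hJr : (1 : ℝ) ≤ J := by exact_mod_cast hJ
    obtain ⟨ε1, hε1⟩ : ∃ ε1 : ℝ, ε1 = min (ε / 2) (γ * η / (8 * H)) := ⟨_, rfl⟩
    have hε10 : 0 < ε1 := by rw [hε1]; positivity
    have hF'd : (-F).natDegree = n + 1 := by rw [natDegree_neg, hn]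
    obtain ⟨Q0, hQ0⟩ := singleZ (-F) (by omega) (by rw [leadingCoeff_neg]; linarith) (B * (2 * J) ^ (n + 1))
      (Nat.mul_pos hB (by positivity)) ε1 hε10
    obtain ⟨x1, hx1⟩ := hQ0 _ hhb (hmz Q0)
    rw [hF'd] at hx1
    refine ⟨X1 + J * (x1 + 2) + J * J + 2, fun X hX => ?_⟩
    obtain ⟨Bad1, hBad1, hc⟩ := h1 X (by nlinarith)
    obtain ⟨x, hx⟩ : ∃ x : ℕ, x = X / J := ⟨_, rfl⟩
    have hx1' : x1 + 2 ≤ x := by
      rw [hx]
      exact (Nat.le_div_iff_mul_le (by omega)).2 (by nlinarith)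
    have hJx : J ≤ x := by
      rw [hx]
      exact (Nat.le_div_iff_mul_le (by omega)).2 (by nlinarith)
    have hXx : X ≤ 2 * J * x := by
      have h3 := Nat.div_add_mod X J
      have h4 := Nat.mod_lt X hJ
      rw [← hx] at h3
      nlinarith
    have hxX : x ≤ X := by rw [hx]; exact Nat.div_le_self _ _
    have hA : B * X ^ (n + 1) ≤ B * (2 * J) ^ (n + 1) * x ^ (n + 1) := by
      rw [mul_assoc, ← mul_pow]
      exact Nat.mul_le_mul_left _ (Nat.pow_le_pow_left hXx _)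
    have hsing := hx1 x (by omega) (-1) (Or.inr rfl) (B * X ^ (n + 1)) hA
    obtain ⟨Bad2, hBad2⟩ : ∃ Bad2 : Finset ℤ, Bad2 = (Icc (-((B * X ^ (n + 1) : ℕ) : ℤ)) ((B * X ^ (n + 1) : ℕ) : ℤ)).filter
      (fun a : ℤ => ε1 * (x / Real.log x) < |∑ n ∈ Icc 1 x, pv (fun p => (h p - g p) / (2 * H)) (a + (-1) * (-F).eval (n : ℤ))|) :=
        ⟨_, rfl⟩
    rw [← hBad2] at hsing
    have hxr : (x : ℝ) ≤ X := by exact_mod_cast hxX
    have hx2 : (2 : ℝ) ≤ x := by exact_mod_cast (by omega : 2 ≤ x)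
    refine ⟨Bad1 ∪ Bad2, ?_, ?_⟩
    · have h5 : (#(Bad1 ∪ Bad2) : ℝ) ≤ #Bad1 + #Bad2 := by exact_mod_cast card_union_le _ _
      have h6 : ε1 * (x : ℝ) ^ (n + 1) ≤ ε / 2 * (X : ℝ) ^ (n + 1) := by
        apply mul_le_mul (by rw [hε1]; exact min_le_left _ _) (pow_le_pow_left₀ (by linarith) hxr _) (by positivity) (by positivity)
      linarith
    · intro t ht htB htM hcase hγ
      rw [mem_union, not_or] at htB
      have ht2 : κ * (X : ℝ) ^ (n + 1) ≤ t := by
        rcases hcase with h5 | h5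
        · exact absurd h5 (not_lt.2 hl.le)
        · exact h5
      have hcnt := hc t ht2 (abs_le.1 ht).2 htB.1 (hadm t htM)
      rw [← hx] at hcnt
      have hb2 : |∑ n ∈ Icc 1 x, pv (fun p => (h p - g p) / (2 * H)) (t + F.eval (n : ℤ))| ≤ ε1 * (x / Real.log x) := by
        have h7 := htB.2
        rw [hBad2, mem_filter, mem_Icc, not_and, not_lt] at h7
        have h8 := h7 (abs_le.1 ht)
        refine le_trans (le_of_eq ?_) h8
        congr 1
        apply sum_congr rfl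
        intro n _
        rw [eval_neg]
        congr 1
        ring
      obtain ⟨m, hm1, -, hm2⟩ := deduce h g H γ hH M1 hM1 hg F hM t htM hγ hγ0 x _ _ hcnt hb2 (by
        have hlX : Real.log X ≤ 2 * Real.log x := by
          have h9 : (X : ℝ) ≤ (x : ℝ) ^ (2 * 1 + 1) := by
            have h10 : (X : ℝ) ≤ 2 * J * x := by exact_mod_cast hXx
            have h11 : (J : ℝ) ≤ x := by exact_mod_cast hJx
            calc (X : ℝ) ≤ 2 * J * x := h10
              _ ≤ x * x * x := by gcongr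
              _ = _ := by ring
          have h9' : (X : ℝ) ≤ (x : ℝ) ^ 2 := by
            have h12 : X ≤ x * x := by
              have h3 := Nat.div_add_mod X J
              have h4 := Nat.mod_lt X hJ
              rw [← hx] at h3
              have h13 : J + 1 ≤ x := by
                rw [hx]
                exact (Nat.le_div_iff_mul_le (by omega)).2 (by nlinarith)
              nlinarith
            rw [sq]
            exact_mod_cast h12
          have h10 := Real.log_le_log (by linarith) h9'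
          rw [Real.log_pow] at h10
          push_cast at h10
          exact h10
        have hlx : 0 < Real.log x := Real.log_pos (by linarith)
        have hlX0 : 0 < Real.log X := Real.log_pos (by linarith)
        have h12 : (x : ℝ) / Real.log x ≤ 2 * (X / Real.log X) := by
          rw [← mul_div_assoc, div_le_div_iff₀ hlx hlX0]
          nlinarith
        have hXL : 0 < X / Real.log X := by
          have : (0 : ℝ) < X := by linarith
          positivity
        have h13 : ε1 ≤ γ * η / (8 * H) := by rw [hε1]; exact min_le_right _ _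
        rw [le_div_iff₀ (by positivity)] at h13
        calc 2 * H * (ε1 * (x / Real.log x)) ≤ 2 * H * (ε1 * (2 * (X / Real.log X))) := by gcongr
          _ = (ε1 * (8 * H)) * (X / Real.log X) / 2 := by ring
          _ ≤ (γ * η) * (X / Real.log X) / 2 := by gcongr
          _ < γ * (η * (X / Real.log X)) := by
              have : 0 < γ * η * (X / Real.log X) := by positivity
              linarith)
      exact ⟨m, hm1, hm2⟩
  · -- positive leading coefficient
    obtain ⟨η, hη, X1, h1⟩ := cnt_pos n hn1 F hn hl B hB (ε / 2) (by positivity)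
    obtain ⟨ε1, hε1⟩ : ∃ ε1 : ℝ, ε1 = min (ε / (2 * (8 * B) ^ (n + 1))) (γ * η / (32 * H * B)) := ⟨_, rfl⟩
    have hε10 : 0 < ε1 := by rw [hε1]; positivity
    obtain ⟨Q0, hQ0⟩ := singleZ F (by omega) hl B hB ε1 hε10
    obtain ⟨x1, hx1⟩ := hQ0 _ hhb (hmz Q0)
    rw [hn] at hx1
    refine ⟨X1 + x1 + 2, fun X hX => ?_⟩
    obtain ⟨Bad1, hBad1, hc⟩ := h1 X (by omega)
    obtain ⟨x, hx⟩ : ∃ x : ℕ, x = 8 * B * X := ⟨_, rfl⟩
    have hXx : X ≤ x := by rw [hx]; nlinarith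
    have hA : B * X ^ (n + 1) ≤ B * x ^ (n + 1) := Nat.mul_le_mul_left _ (Nat.pow_le_pow_left hXx _)
    have hsing := hx1 x (by omega) 1 (Or.inl rfl) (B * X ^ (n + 1)) hA
    obtain ⟨Bad2, hBad2⟩ : ∃ Bad2 : Finset ℤ, Bad2 = (Icc (-((B * X ^ (n + 1) : ℕ) : ℤ)) ((B * X ^ (n + 1) : ℕ) : ℤ)).filter
      (fun a : ℤ => ε1 * (x / Real.log x) < |∑ n ∈ Icc 1 x, pv (fun p => (h p - g p) / (2 * H)) (a + 1 * F.eval (n : ℤ))|) :=
        ⟨_, rfl⟩
    rw [← hBad2] at hsing
    have hxr : (x : ℝ) = 8 * B * X := by rw [hx]; push_cast; ring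
    have hX2 : (2 : ℝ) ≤ X := by exact_mod_cast (by omega : 2 ≤ X)
    refine ⟨Bad1 ∪ Bad2, ?_, ?_⟩
    · have h5 : (#(Bad1 ∪ Bad2) : ℝ) ≤ #Bad1 + #Bad2 := by exact_mod_cast card_union_le _ _
      have h6 : ε1 * (x : ℝ) ^ (n + 1) ≤ ε / 2 * (X : ℝ) ^ (n + 1) := by
        have h7 : ε1 ≤ ε / (2 * (8 * B) ^ (n + 1)) := by rw [hε1]; exact min_le_left _ _
        rw [le_div_iff₀ (by positivity)] at h7
        rw [hxr, mul_pow]
        have h8 : (0 : ℝ) ≤ (X : ℝ) ^ (n + 1) := by positivity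
        calc ε1 * ((8 * B) ^ (n + 1) * (X : ℝ) ^ (n + 1)) = (ε1 * (2 * (8 * B) ^ (n + 1))) / 2 * (X : ℝ) ^ (n + 1) := by ring
          _ ≤ ε / 2 * (X : ℝ) ^ (n + 1) := by gcongr
      linarith
    · intro t ht htB htM hcase hγ
      rw [mem_union, not_or] at htB
      have hcnt := hc t ht htB.1 (hadm t htM)
      rw [← hx] at hcnt
      have hb2 : |∑ n ∈ Icc 1 x, pv (fun p => (h p - g p) / (2 * H)) (t + F.eval (n : ℤ))| ≤ ε1 * (x / Real.log x) := by
        have h7 := htB.2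
        rw [hBad2, mem_filter, mem_Icc, not_and, not_lt] at h7
        have h8 := h7 (abs_le.1 ht)
        simpa using h8
      obtain ⟨m, hm1, -, hm2⟩ := deduce h g H γ hH M1 hM1 hg F hM t htM hγ hγ0 x _ _ hcnt hb2 (by
        have hlX0 : 0 < Real.log X := Real.log_pos (by linarith)
        have h12 : (x : ℝ) / Real.log x ≤ 8 * B * (X / Real.log X) := by
          rw [hxr, mul_div_assoc]
          apply mul_le_mul_of_nonneg_left _ (by positivity)
          apply div_le_div_of_nonneg_left (by positivity) hlX0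
          apply Real.log_le_log (by linarith)
          rw [← hxr]
          exact_mod_cast hXx
        have hXL : 0 < X / Real.log X := by positivity
        have h13 : ε1 ≤ γ * η / (32 * H * B) := by rw [hε1]; exact min_le_right _ _
        rw [le_div_iff₀ (by positivity)] at h13
        calc 2 * H * (ε1 * (x / Real.log x)) ≤ 2 * H * (ε1 * (8 * B * (X / Real.log X))) := by gcongr
          _ = (ε1 * (32 * H * B)) * (X / Real.log X) / 2 := by ring
          _ ≤ (γ * η) * (X / Real.log X) / 2 := by gcongr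
          _ < γ * (η * (X / Real.log X)) := by
              have : 0 < γ * η * (X / Real.log X) := by positivity
              linarith)
      exact ⟨m, hm1, hm2⟩

end Pool.Agent.U637.NR
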