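import Pool.Agent.U637.NR.A5
import Pool.Agent.U637.NR.T4

/-! Almost all shifts of a polynomial take norms of prime ideals of a given class as values. -/

set_option autoImplicit false
set_option linter.unusedSectionVars false

namespace Pool.Agent.U637.NR
open NumberField Finset Polynomial
open Pool.Agent.Y767 (Mq Mq_cop Cls cls)
open Pool.Agent.N784.AD (pi1)

variable {K : Type} [Field K] [NumberField K]

theorem prime_ideal_in {m : ℕ} (hm : 2 ≤ m) (hnm : Module.finrank ℚ K ∣ m)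
    (hd : ∀ p : ℕ, p.Prime → (p : ℤ) ∣ discr K → p ∣ m) {htm : Ideal.span {(m : 𝓞 K)} ≠ ⊤}
    (c : Cls (pi1 htm)) (n : ℕ) (hn1 : 1 ≤ n) (F : ℤ[X]) (hn : F.natDegree = n + 1)
    (hM : ∀ w : ℤ, ((m ^ 3 : ℕ) : ℤ) ∣ F.eval w)
    (hbig : ∀ p : ℕ, p.Prime → (p ≤ n + 1 ∨ (p : ℤ) ∣ F.leadingCoeff) → p ∣ m)
    (B : ℕ) (hB : 1 ≤ B) (ε κ : ℝ) (hε : 0 < ε) (hκ : 0 < κ) (hκ1 : κ ≤ 1) :
    ∃ X0 : ℕ, ∀ X : ℕ, X0 ≤ X → ∃ Bad : Finset ℤ, (#Bad : ℝ) ≤ ε * (X : ℝ) ^ (n + 1) ∧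
      ∀ t : ℤ, |t| ≤ ((B * X ^ (n + 1) : ℕ) : ℤ) → t ∉ Bad →
        (0 < F.leadingCoeff ∨ κ * (X : ℝ) ^ (n + 1) ≤ t) →
        ∀ (𝔟 : Mq (Ideal.span {(m : 𝓞 K)})), cls (pi1 htm) 𝔟 = c →
          ((m ^ 3 : ℕ) : ℤ) ∣ t - (Ideal.absNorm (𝔟 : Ideal (𝓞 K)) : ℤ) →
        ∃ w : ℕ, 1 ≤ w ∧ ∃ 𝔮 : Mq (Ideal.span {(m : 𝓞 K)}), cls (pi1 htm) 𝔮 = c ∧
          (Ideal.absNorm (𝔮 : Ideal (𝓞 K))).Prime ∧ t + F.eval (w : ℤ) = Ideal.absNorm (𝔮 : Ideal (𝓞 K)) := by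
  classical
  have ht3 : Ideal.span {((m ^ 3 * 1 : ℕ) : 𝓞 K)} ≠ ⊤ := by
    apply span_ne_top
    calc 2 ≤ m ^ 1 * 1 := by rw [pow_one, mul_one]; exact hm
      _ ≤ m ^ 3 * 1 := Nat.mul_le_mul_right _ (Nat.pow_le_pow_right (by omega) (by omega))
  have hbot := span_ne_bot (K := K) (q := m) (by omega)
  have hm3 : 0 < m ^ 3 := by positivity
  obtain ⟨H, hH⟩ : ∃ H : ℝ, H = Module.finrank ℚ K + (m ^ 3 * 1).totient := ⟨_, rfl⟩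
  have hfr : (1 : ℝ) ≤ Module.finrank ℚ K := by
    have : 0 < Module.finrank ℚ K := Module.finrank_pos
    exact_mod_cast this
  have htot : (0 : ℝ) ≤ (m ^ 3 * 1).totient := Nat.cast_nonneg _
  have hH1 : 1 ≤ H := by rw [hH]; linarith
  obtain ⟨γ, hγ0, hγ⟩ : ∃ γ : ℝ, 0 < γ ∧ ∀ a : ℕ, 0 < gc ht3 c a → γ ≤ gc ht3 c a := by
    obtain ⟨S, hS⟩ : ∃ S : Finset ℕ, S = (range (m ^ 3)).filter (fun a => 0 < gc ht3 c a) := ⟨_, rfl⟩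
    rcases S.eq_empty_or_nonempty with h0 | h0
    · refine ⟨1, one_pos, fun a ha => ?_⟩
      exfalso
      have h1 : a % m ^ 3 ∈ S := by
        rw [hS, mem_filter, mem_range]
        exact ⟨Nat.mod_lt _ hm3, by rwa [gc_mod ht3 c (Nat.mod_modEq a (m ^ 3))]⟩
      rw [h0] at h1
      simp at h1
    · refine ⟨S.inf' h0 (gc ht3 c), ?_, fun a ha => ?_⟩
      · rw [Finset.lt_inf'_iff]
        intro b hb
        rw [hS, mem_filter] at hb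
        exact hb.2
      · rw [← gc_mod ht3 c (Nat.mod_modEq a (m ^ 3))]
        apply Finset.inf'_le
        rw [hS, mem_filter, mem_range]
        exact ⟨Nat.mod_lt _ hm3, by rwa [gc_mod ht3 c (Nat.mod_modEq a (m ^ 3))]⟩
  obtain ⟨X0, hX0⟩ := prime_in n hn1 F hn (m ^ 3) hm3 hM (fun p hp h => (hbig p hp h).trans (dvd_pow_self m (by norm_num)))
    (fun p => (nc htm c p : ℝ)) (gc ht3 c) H γ hH1 (fun p => Nat.cast_nonneg _)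
    (fun p => by
      have h1 : (nc htm c p : ℝ) ≤ Module.finrank ℚ K := by exact_mod_cast nc_le hbot htm c p
      linarith)
    (fun p => by
      rw [abs_of_nonneg (gc_nonneg ht3 c p)]
      have := gc_le hm ht3 c p
      linarith)
    (fun a => (gc_mod ht3 c (Nat.mod_modEq a (m ^ 3))).symm)
    (fun Q => mz_nc hm hnm hd ht3 c H Q) hγ0 B hB ε κ hε hκ hκ1
  refine ⟨X0, fun X hX => ?_⟩
  obtain ⟨Bad, hBad, h1⟩ := hX0 X hX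
  refine ⟨Bad, hBad, fun t ht1 ht2 ht3' 𝔟 hb1 hb2 => ?_⟩
  have hbm := Pool.Agent.Y772.TW.coprime_q.1 (Mq_cop 𝔟)
  have htc : IsCoprime t ((m ^ 3 : ℕ) : ℤ) := by
    have h2 : IsCoprime (Ideal.absNorm (𝔟 : Ideal (𝓞 K)) : ℤ) ((m ^ 3 : ℕ) : ℤ) := by
      rw [Nat.isCoprime_iff_coprime]
      exact Nat.Coprime.pow_right 3 hbm
    obtain ⟨u, v, huv⟩ := h2
    obtain ⟨w, hw⟩ := hb2
    exact ⟨u, v - u * w, by linear_combination huv + u * hw⟩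
  have hg : γ ≤ gc ht3 c (t % ((m ^ 3 : ℕ) : ℤ)).toNat := by
    apply hγ
    have h2 : (t % ((m ^ 3 : ℕ) : ℤ)).toNat ≡ Ideal.absNorm (𝔟 : Ideal (𝓞 K)) [MOD m ^ 3] := by
      rw [Nat.modEq_iff_dvd]
      rw [Int.toNat_of_nonneg (Int.emod_nonneg _ (by exact_mod_cast hm3.ne'))]
      have h3 : ((m ^ 3 : ℕ) : ℤ) ∣ t - t % ((m ^ 3 : ℕ) : ℤ) := Int.dvd_self_sub_emod
      have h4 : (Ideal.absNorm (𝔟 : Ideal (𝓞 K)) : ℤ) - t % ((m ^ 3 : ℕ) : ℤ) =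
        (t - t % ((m ^ 3 : ℕ) : ℤ)) - (t - (Ideal.absNorm (𝔟 : Ideal (𝓞 K)) : ℤ)) := by ring
      rw [h4]
      exact dvd_sub h3 hb2
    rw [gc_mod ht3 c h2, ← hb1]
    exact gc_pos hm ht3 _ (Mq_cop 𝔟)
  obtain ⟨w, hw1, q, hq, hq1, hq2, -⟩ := h1 t ht1 ht2 htc ht3' hg
  obtain ⟨𝔮, h𝔮1, h𝔮2⟩ := nc_pos (htm := htm) (c := c) (p := q) (by exact_mod_cast hq2)
  exact ⟨w, hw1, 𝔮, h𝔮2, by rw [h𝔮1]; exact hq, by rw [h𝔮1]; exact hq1⟩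

end Pool.Agent.U637.NR
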