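import Pool.Agent.U637.NR.G0

/-! Moving an integer of the field to an integer with a given prime factor. -/

set_option autoImplicit false
set_option linter.unusedSectionVars false

namespace Pool.Agent.U637.NR
open NumberField Finset Polynomial
open Pool.Agent.Y767 (Mq Mq_cop Mq_cancel Cls cls cls_eq)
open Pool.Agent.N784.AD (pi1 pi1_coe T1_one T1_tp SameSign)
open Pool.Agent.Y773.IQ (cop_one ne_zero_of_cop)
open Pool.Agent.Y773 (TPos)

variable {K : Type} [Field K] [NumberField K]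

/-- the factorization of an integer of norm `D μ` -/
lemma split_ideal (z0 : 𝓞 K) (D : ℕ) (hD : D ≠ 0) (μ : ℤ) (hμ0 : μ ≠ 0) (hμ : Algebra.norm ℤ z0 = D * μ)
    (hc : IsCoprime μ (D : ℤ)) : ∃ 𝔡 𝔟 : Ideal (𝓞 K), Ideal.span {z0} = 𝔡 * 𝔟 ∧
      Ideal.absNorm 𝔡 = D ∧ Ideal.absNorm 𝔟 = μ.natAbs ∧ (μ : 𝓞 K) ∈ 𝔟 := by
  obtain ⟨u, v, huv⟩ := hc
  have huv' : ((u : ℤ) : 𝓞 K) * (μ : 𝓞 K) + (v : 𝓞 K) * (D : 𝓞 K) = 1 := by
    exact_mod_cast congrArg (Int.cast : ℤ → 𝓞 K) huv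
  have hN : Ideal.absNorm (Ideal.span {z0}) = D * μ.natAbs := by
    rw [Ideal.absNorm_span_singleton, hμ, Int.natAbs_mul, Int.natAbs_natCast]
  have hmem : (D : 𝓞 K) * (μ : 𝓞 K) ∈ Ideal.span {z0} := by
    have h1 := Ideal.absNorm_mem (Ideal.span {z0})
    rw [hN] at h1
    push_cast at h1
    rcases Int.natAbs_eq μ with h | h
    · have h2 : (μ : 𝓞 K) = (μ.natAbs : 𝓞 K) := by
        conv_lhs => rw [h]
        rw [Int.cast_natCast]
      rw [h2]; exact h1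
    · have h2 : (μ : 𝓞 K) = -(μ.natAbs : 𝓞 K) := by
        conv_lhs => rw [h]
        rw [Int.cast_neg, Int.cast_natCast]
      rw [h2, mul_neg]; exact neg_mem h1
  obtain ⟨I, hI⟩ : ∃ I : Ideal (𝓞 K), I = Ideal.span {z0} := ⟨_, rfl⟩
  rw [← hI] at hmem hN ⊢
  obtain ⟨𝔡, h𝔡⟩ : ∃ 𝔡 : Ideal (𝓞 K), 𝔡 = I ⊔ Ideal.span {(D : 𝓞 K)} := ⟨_, rfl⟩
  obtain ⟨𝔟, h𝔟⟩ : ∃ 𝔟 : Ideal (𝓞 K), 𝔟 = I ⊔ Ideal.span {(μ : 𝓞 K)} := ⟨_, rfl⟩
  have hI𝔡 : I ≤ 𝔡 := by rw [h𝔡]; exact le_sup_left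
  have hI𝔟 : I ≤ 𝔟 := by rw [h𝔟]; exact le_sup_left
  have hD𝔡 : (D : 𝓞 K) ∈ 𝔡 := by rw [h𝔡]; exact Ideal.mem_sup_right (Ideal.mem_span_singleton_self _)
  have hμ𝔟 : (μ : 𝓞 K) ∈ 𝔟 := by rw [h𝔟]; exact Ideal.mem_sup_right (Ideal.mem_span_singleton_self _)
  have hmul : I = 𝔡 * 𝔟 := by
    apply le_antisymm
    · intro x hx
      have e : x = ((u : ℤ) : 𝓞 K) * (x * (μ : 𝓞 K)) + (v : 𝓞 K) * ((D : 𝓞 K) * x) := by
        linear_combination -x * huv'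
      rw [e]
      exact add_mem (Ideal.mul_mem_left _ _ (Ideal.mul_mem_mul (hI𝔡 hx) hμ𝔟))
        (Ideal.mul_mem_left _ _ (Ideal.mul_mem_mul hD𝔡 (hI𝔟 hx)))
    · rw [h𝔡, h𝔟, Ideal.sup_mul, Ideal.mul_sup, Ideal.mul_sup]
      refine sup_le (sup_le Ideal.mul_le_left Ideal.mul_le_left) (sup_le Ideal.mul_le_right ?_)
      rw [Ideal.span_singleton_mul_span_singleton, Ideal.span_singleton_le_iff_mem]
      exact hmem
  have h1 : Ideal.absNorm 𝔡 * Ideal.absNorm 𝔟 = D * μ.natAbs := by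
    rw [← map_mul, ← hmul, hN]
  have hfr : 0 < Module.finrank ℚ K := Module.finrank_pos
  have h2 : Ideal.absNorm 𝔡 ∣ D ^ Module.finrank ℚ K := by
    have h3 : Ideal.absNorm 𝔡 ∣ Ideal.absNorm (Ideal.span {(D : 𝓞 K)}) :=
      Ideal.absNorm_dvd_absNorm_of_le ((Ideal.span_singleton_le_iff_mem 𝔡).2 hD𝔡)
    rw [Ideal.absNorm_span_singleton] at h3
    have h4 := norm_intCast (K := K) (D : ℤ)
    rw [Int.cast_natCast] at h4
    rwa [h4, Int.natAbs_pow, Int.natAbs_natCast] at h3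
  have h3 : Ideal.absNorm 𝔟 ∣ μ.natAbs ^ Module.finrank ℚ K := by
    have h3 : Ideal.absNorm 𝔟 ∣ Ideal.absNorm (Ideal.span {(μ : 𝓞 K)}) :=
      Ideal.absNorm_dvd_absNorm_of_le ((Ideal.span_singleton_le_iff_mem 𝔟).2 hμ𝔟)
    rw [Ideal.absNorm_span_singleton, norm_intCast, Int.natAbs_pow] at h3
    exact h3
  have hcop : Nat.Coprime D μ.natAbs := by
    have : IsCoprime (D : ℤ) μ := ⟨v, u, by linear_combination huv⟩
    rw [Int.isCoprime_iff_gcd_eq_one] at this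
    simpa [Int.gcd] using this
  have h4 : Ideal.absNorm 𝔡 ∣ D := by
    have h5 : Nat.Coprime (Ideal.absNorm 𝔡) μ.natAbs := Nat.Coprime.coprime_dvd_left h2 (Nat.Coprime.pow_left _ hcop)
    exact h5.dvd_of_dvd_mul_right (h1 ▸ dvd_mul_right _ _)
  have h5 : Ideal.absNorm 𝔟 ∣ μ.natAbs := by
    have h6 : Nat.Coprime (Ideal.absNorm 𝔟) D := Nat.Coprime.coprime_dvd_left h3 (Nat.Coprime.pow_left _ hcop.symm)
    exact h6.dvd_of_dvd_mul_left (h1 ▸ dvd_mul_left _ _)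
  have hμn : 0 < μ.natAbs := Int.natAbs_pos.2 hμ0
  have h6 := Nat.le_of_dvd (Nat.pos_of_ne_zero hD) h4
  have h7 := Nat.le_of_dvd hμn h5
  have h8 : Ideal.absNorm 𝔟 = μ.natAbs := by
    by_contra h9
    have h10 : Ideal.absNorm 𝔟 < μ.natAbs := lt_of_le_of_ne h7 h9
    have h11 : Ideal.absNorm 𝔡 * Ideal.absNorm 𝔟 < D * μ.natAbs := by
      calc Ideal.absNorm 𝔡 * Ideal.absNorm 𝔟 ≤ D * Ideal.absNorm 𝔟 := Nat.mul_le_mul_right _ h6
        _ < D * μ.natAbs := Nat.mul_lt_mul_of_pos_left h10 (Nat.pos_of_ne_zero hD)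
    omega
  refine ⟨𝔡, 𝔟, hmul, ?_, h8, hμ𝔟⟩
  rw [h8] at h1
  exact Nat.eq_of_mul_eq_mul_right hμn h1

/-- moving an integer to an integer with a given prime factor -/
theorem move {m : ℕ} {htm : Ideal.span {(m : 𝓞 K)} ≠ ⊤} (z0 : 𝓞 K) (D V : ℕ) (hD : D ≠ 0)
    (hDm : D ∣ m ^ V) (μ : ℤ) (hμ0 : μ ≠ 0) (hμ : Algebra.norm ℤ z0 = D * μ) (hc : IsCoprime μ (m : ℤ)) :
    ∃ 𝔟 : Mq (Ideal.span {(m : 𝓞 K)}), (Ideal.absNorm (𝔟 : Ideal (𝓞 K)) : ℤ) = |μ| ∧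
      ∀ 𝔮 : Mq (Ideal.span {(m : 𝓞 K)}), cls (pi1 htm) 𝔮 = cls (pi1 htm) 𝔟 →
        ∃ z : 𝓞 K, z - z0 ∈ Ideal.span {(m : 𝓞 K)} ∧ SameSign z z0 ∧
          Algebra.norm ℤ z = (D : ℤ) * (SignType.sign μ * Ideal.absNorm (𝔮 : Ideal (𝓞 K))) := by
  have hcD : IsCoprime μ (D : ℤ) := by
    have h1 : IsCoprime μ ((m : ℤ) ^ V) := IsCoprime.pow_right hc
    exact IsCoprime.of_isCoprime_of_dvd_right h1 (by exact_mod_cast hDm)
  obtain ⟨𝔡, 𝔟, h1, h2, h3, h4⟩ := split_ideal z0 D hD μ hμ0 hμ hcD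
  have hcop : IsCoprime 𝔟 (Ideal.span {(m : 𝓞 K)}) := by
    rw [Pool.Agent.Y772.TW.coprime_q, h3]
    rw [Int.isCoprime_iff_gcd_eq_one] at hc
    simpa [Int.gcd] using hc
  have hz0 : z0 ≠ 0 := by
    rintro rfl
    rw [Algebra.norm_zero] at hμ
    have : (D : ℤ) * μ ≠ 0 := mul_ne_zero (by exact_mod_cast hD) hμ0
    exact this hμ.symm
  refine ⟨⟨𝔟, hcop⟩, ?_, ?_⟩
  · change ((Ideal.absNorm 𝔟 : ℕ) : ℤ) = |μ|
    rw [h3, Int.natCast_natAbs]
  · intro 𝔮 h𝔮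
    have hcan := Mq_cancel htm
    obtain ⟨a, b, hab⟩ := cls_eq h𝔮
    have hab' := congrArg Subtype.val hab
    rw [Submonoid.coe_mul, Submonoid.coe_mul, pi1_coe, pi1_coe] at hab'
    change Ideal.span {(a : 𝓞 K)} * (𝔮 : Ideal (𝓞 K)) = Ideal.span {(b : 𝓞 K)} * 𝔟 at hab'
    obtain ⟨x, hx⟩ : ∃ x : 𝓞 K, x = a := ⟨_, rfl⟩
    obtain ⟨y, hy⟩ : ∃ y : 𝓞 K, y = b := ⟨_, rfl⟩
    have hx1 : x - 1 ∈ Ideal.span {(m : 𝓞 K)} := hx ▸ T1_one a
    have hy1 : y - 1 ∈ Ideal.span {(m : 𝓞 K)} := hy ▸ T1_one b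
    have hxp : TPos K x := hx ▸ T1_tp a
    have hyp : TPos K y := hy ▸ T1_tp b
    have hx0 : x ≠ 0 := ne_zero_of_cop htm (cop_one hx1)
    have hy0 : y ≠ 0 := ne_zero_of_cop htm (cop_one hy1)
    rw [← hx, ← hy] at hab'
    have e1 : Ideal.span {y * z0} = Ideal.span {x} * ((𝔮 : Ideal (𝓞 K)) * 𝔡) := by
      rw [← Ideal.span_singleton_mul_span_singleton, h1]
      calc Ideal.span {y} * (𝔡 * 𝔟) = (Ideal.span {y} * 𝔟) * 𝔡 := by ring
        _ = (Ideal.span {x} * (𝔮 : Ideal (𝓞 K))) * 𝔡 := by rw [hab']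
        _ = _ := by ring
    have e2 : y * z0 ∈ Ideal.span {x} := by
      have h5 : Ideal.span {y * z0} ≤ Ideal.span {x} := by rw [e1]; exact Ideal.mul_le_left
      exact h5 (Ideal.mem_span_singleton_self _)
    obtain ⟨z, hz⟩ := Ideal.mem_span_singleton'.1 e2
    have e3 : Ideal.span {z} = (𝔮 : Ideal (𝓞 K)) * 𝔡 := by
      apply mul_left_cancel₀ (a := Ideal.span {x})
      · rw [Ne, Ideal.zero_eq_bot, Ideal.span_singleton_eq_bot]; exact hx0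
      · rw [← e1, Ideal.span_singleton_mul_span_singleton, mul_comm x z, hz]
    have e4 : (Algebra.norm ℤ z).natAbs = Ideal.absNorm (𝔮 : Ideal (𝓞 K)) * D := by
      rw [← Ideal.absNorm_span_singleton, e3, map_mul, h2]
    have hNx := Pool.Agent.Y772.TW.norm_pos hx0 hxp
    have hNy := Pool.Agent.Y772.TW.norm_pos hy0 hyp
    have e5 : Algebra.norm ℤ z * Algebra.norm ℤ x = Algebra.norm ℤ y * (D * μ) := by
      rw [← map_mul, hz, map_mul, hμ]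
    refine ⟨z, ?_, ?_, ?_⟩
    · have : z - z0 = z0 * (y - 1) - z * (x - 1) := by linear_combination hz
      rw [this]
      exact sub_mem (Ideal.mul_mem_left _ _ hy1) (Ideal.mul_mem_left _ _ hx1)
    · intro σ
      have h5 : σ (z : K) * σ (x : K) = σ (y : K) * σ (z0 : K) := by
        have h6 : (z : K) * (x : K) = (y : K) * (z0 : K) := by
          have := congrArg (algebraMap (𝓞 K) K) hz
          rwa [map_mul, map_mul] at this
        calc σ (z : K) * σ (x : K) = σ ((z : K) * (x : K)) := (map_mul σ _ _).symm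
          _ = σ ((y : K) * (z0 : K)) := by rw [h6]
          _ = _ := map_mul σ _ _
      have h6 := hxp σ
      have h7 := hyp σ
      constructor
      · intro h8
        have h9 : 0 < σ (y : K) * σ (z0 : K) := h5 ▸ mul_pos h8 h6
        exact (pos_iff_pos_of_mul_pos h9).1 h7
      · intro h8
        have h9 : 0 < σ (z : K) * σ (x : K) := h5 ▸ mul_pos h7 h8
        exact (pos_iff_pos_of_mul_pos h9).2 h6
    · have hDz : (0 : ℤ) < D := by exact_mod_cast Nat.pos_of_ne_zero hD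
      rcases lt_or_gt_of_ne hμ0 with hneg | hpos
      · have h5 : Algebra.norm ℤ z < 0 := by
          by_contra h6
          rw [not_lt] at h6
          have h7 : 0 ≤ Algebra.norm ℤ z * Algebra.norm ℤ x := mul_nonneg h6 hNx.le
          have h8 : Algebra.norm ℤ y * (D * μ) < 0 := mul_neg_of_pos_of_neg hNy (mul_neg_of_pos_of_neg hDz hneg)
          omega
        rw [sign_neg hneg, SignType.coe_neg_one]
        have h6 : ((Algebra.norm ℤ z).natAbs : ℤ) = -Algebra.norm ℤ z := Int.ofNat_natAbs_of_nonpos h5.le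
        rw [e4] at h6
        push_cast at h6 ⊢
        linear_combination h6
      · have h5 : 0 < Algebra.norm ℤ z := by
          by_contra h6
          rw [not_lt] at h6
          have h7 : Algebra.norm ℤ z * Algebra.norm ℤ x ≤ 0 := mul_nonpos_of_nonpos_of_nonneg h6 hNx.le
          have h8 : 0 < Algebra.norm ℤ y * (D * μ) := mul_pos hNy (mul_pos hDz hpos)
          omega
        rw [sign_pos hpos, SignType.coe_one]
        have h6 : ((Algebra.norm ℤ z).natAbs : ℤ) = Algebra.norm ℤ z := Int.natAbs_of_nonneg h5.le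
        rw [e4] at h6
        push_cast at h6 ⊢
        linear_combination -h6

end Pool.Agent.U637.NR
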