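import Pool.Agent.U637.NR.G1
import Pool.Agent.TH204.HP.H3

/-! The core: approximate solutions of `N(z) = e (G(t) + k)` lead to solutions, for almost all `k`. -/

set_option autoImplicit false
set_option linter.unusedSectionVars false

namespace Pool.Agent.U637.NR
open NumberField Finset Polynomial
open Pool.Agent.Y767 (Mq Mq_cop Mq_cancel Cls cls cls_eq)
open Pool.Agent.N784.AD (pi1 pi1_coe T1_one T1_tp SameSign cls_card_le)
open Pool.Agent.Y773.IQ (cop_one ne_zero_of_cop)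
open Pool.Agent.Y773 (TPos)
open Pool.Agent.TH204.HP (exists_F)

/-- almost all integers of absolute value at most `B X ^ d` have the property `P X` -/
def AA (d B : ℕ) (P : ℕ → ℤ → Prop) : Prop := ∀ ε : ℝ, 0 < ε → ∃ X0 : ℕ, ∀ X : ℕ, X0 ≤ X → ∃ Bad : Finset ℤ,
  (#Bad : ℝ) ≤ ε * (X : ℝ) ^ d ∧ ∀ k : ℤ, |k| ≤ ((B * X ^ d : ℕ) : ℤ) → k ∉ Bad → P X k

lemma AA.mono {d B : ℕ} {P Q : ℕ → ℤ → Prop} (h : AA d B P) (hPQ : ∀ X k, P X k → Q X k) : AA d B Q := by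
  intro ε hε
  obtain ⟨X0, h0⟩ := h ε hε
  refine ⟨X0, fun X hX => ?_⟩
  obtain ⟨Bad, h1, h2⟩ := h0 X hX
  exact ⟨Bad, h1, fun k hk hkB => hPQ X k (h2 k hk hkB)⟩

/-- the property may use that `X` is large -/
lemma AA.mono' {d B : ℕ} {P Q : ℕ → ℤ → Prop} (h : AA d B P) (X1 : ℕ) (hPQ : ∀ X k, X1 ≤ X → |k| ≤ ((B * X ^ d : ℕ) : ℤ) → P X k → Q X k) :
    AA d B Q := by
  intro ε hε
  obtain ⟨X0, h0⟩ := h ε hε
  refine ⟨max X0 X1, fun X hX => ?_⟩
  obtain ⟨Bad, h1, h2⟩ := h0 X ((le_max_left _ _).trans hX)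
  exact ⟨Bad, h1, fun k hk hkB => hPQ X k ((le_max_right _ _).trans hX) hk (h2 k hk hkB)⟩

lemma AA.forall {d B : ℕ} {ι : Type} (s : Finset ι) (P : ι → ℕ → ℤ → Prop) (h : ∀ i ∈ s, AA d B (P i)) :
    AA d B (fun X k => ∀ i ∈ s, P i X k) := by
  classical
  induction s using Finset.induction_on with
  | empty =>
    intro ε hε
    exact ⟨0, fun X _ => ⟨∅, by simp; positivity, fun k _ _ i hi => absurd hi (by simp)⟩⟩
  | insert a s ha ih =>
    intro ε hε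
    obtain ⟨X1, h1⟩ := h a (mem_insert_self _ _) (ε / 2) (by positivity)
    obtain ⟨X2, h2⟩ := ih (fun i hi => h i (mem_insert_of_mem hi)) (ε / 2) (by positivity)
    refine ⟨max X1 X2, fun X hX => ?_⟩
    obtain ⟨B1, h3, h4⟩ := h1 X ((le_max_left _ _).trans hX)
    obtain ⟨B2, h5, h6⟩ := h2 X ((le_max_right _ _).trans hX)
    refine ⟨B1 ∪ B2, ?_, fun k hk hkB i hi => ?_⟩
    · have h7 : (#(B1 ∪ B2) : ℝ) ≤ #B1 + #B2 := by exact_mod_cast card_union_le _ _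
      linarith
    · rw [mem_union, not_or] at hkB
      rcases mem_insert.1 hi with rfl | hi
      · exact h4 k hk hkB.1
      · exact h6 k hk hkB.2 i hi

lemma AA.and {d B : ℕ} {P Q : ℕ → ℤ → Prop} (h1 : AA d B P) (h2 : AA d B Q) : AA d B (fun X k => P X k ∧ Q X k) := by
  have h := AA.forall (ι := Bool) (univ : Finset Bool) (fun b => if b then P else Q) (by
    intro b _
    cases b
    · simpa using h2
    · simpa using h1)
  exact h.mono fun X k hk => ⟨by simpa using hk true (mem_univ _), by simpa using hk false (mem_univ _)⟩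

/-- the small integers are few -/
lemma AA.large (n B : ℕ) (P : ℕ → ℤ → Prop)
    (h : ∀ κ : ℝ, 0 < κ → AA (n + 1) B (fun X k => κ * (X : ℝ) ^ (n + 1) ≤ |(k : ℝ)| → P X k)) : AA (n + 1) B P := by
  classical
  intro ε hε
  obtain ⟨X0, h0⟩ := h (ε / 16) (by positivity) (ε / 2) (by positivity)
  obtain ⟨X1, hX1⟩ := exists_nat_gt (16 / ε)
  refine ⟨max X0 (X1 + 1), fun X hX => ?_⟩
  obtain ⟨Bad, h1, h2⟩ := h0 X ((le_max_left _ _).trans hX)
  have hXX : X1 + 1 ≤ X := (le_max_right _ _).trans hX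
  have hX1r : (1 : ℝ) ≤ X := by exact_mod_cast (by omega : 1 ≤ X)
  have hXd : (16 / ε) ≤ (X : ℝ) ^ (n + 1) := by
    have h3 : (X1 : ℝ) ≤ X := by exact_mod_cast (by omega : X1 ≤ X)
    calc (16 / ε) ≤ X1 := hX1.le
      _ ≤ X := h3
      _ = (X : ℝ) ^ 1 := (pow_one _).symm
      _ ≤ (X : ℝ) ^ (n + 1) := pow_le_pow_right₀ hX1r (by omega)
  obtain ⟨R, hR⟩ : ∃ R : ℕ, R = ⌈ε / 16 * (X : ℝ) ^ (n + 1)⌉₊ := ⟨_, rfl⟩
  have hRle : (R : ℝ) ≤ ε / 16 * (X : ℝ) ^ (n + 1) + 1 := by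
    rw [hR]
    exact (Nat.ceil_lt_add_one (by positivity)).le
  refine ⟨Bad ∪ Icc (-(R : ℤ)) R, ?_, fun k hk hkB => ?_⟩
  · have h7 : (#(Bad ∪ Icc (-(R : ℤ)) R) : ℝ) ≤ #Bad + #(Icc (-(R : ℤ)) R) := by exact_mod_cast card_union_le _ _
    have h8 : (#(Icc (-(R : ℤ)) R) : ℝ) = 2 * R + 1 := by
      rw [Int.card_Icc]
      have : (((R : ℤ) + 1 - -(R : ℤ)).toNat : ℤ) = 2 * (R : ℤ) + 1 := by omega
      exact_mod_cast this
    have h9 : 1 ≤ ε / 16 * (X : ℝ) ^ (n + 1) := by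
      rw [div_le_iff₀ hε] at hXd
      linarith
    rw [h8] at h7
    have h10 : 0 ≤ ε * (X : ℝ) ^ (n + 1) := by positivity
    linarith
  · rw [mem_union, not_or] at hkB
    refine h2 k hk hkB.1 ?_
    have h3 := hkB.2
    rw [mem_Icc, not_and_or, not_le, not_le] at h3
    have h4 : (R : ℤ) < |k| := by
      rcases h3 with h3 | h3
      · rw [abs_of_neg (by omega)]
        omega
      · exact h3.trans_le (le_abs_self k)
    have h5 : (R : ℝ) ≤ |(k : ℝ)| := by exact_mod_cast h4.le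
    have h6 : ε / 16 * (X : ℝ) ^ (n + 1) ≤ R := by
      rw [hR]
      exact Nat.le_ceil _
    linarith

variable {K : Type} [Field K] [NumberField K]

/-- one residue class, one denominator, one sign, one ray class -/
lemma tuple {m : ℕ} (hm : 2 ≤ m) (hnm : Module.finrank ℚ K ∣ m)
    (hd : ∀ p : ℕ, p.Prime → (p : ℤ) ∣ discr K → p ∣ m) {htm : Ideal.span {(m : 𝓞 K)} ≠ ⊤}
    (G : ℤ[X]) (n : ℕ) (hn1 : 1 ≤ n) (hn : G.natDegree = n + 1) (e : ℤ) (he : e ≠ 0)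
    (hbig : ∀ p : ℕ, p.Prime → (p ≤ n + 1 ∨ (p : ℤ) ∣ e ∨ (p : ℤ) ∣ G.leadingCoeff) → p ∣ m) (B V : ℕ)
    (κ : ℝ) (hκ : 0 < κ) (r0 : ℤ) (D : ℕ) (hD : D ∣ m ^ V) (s : ℤ) (hs : s = 1 ∨ s = -1) (c : Cls (pi1 htm)) :
    AA (n + 1) B (fun X k => κ * (X : ℝ) ^ (n + 1) ≤ |(k : ℝ)| → (0 < s * e * G.leadingCoeff ∨ 0 < s * e * k) →
      ∀ (𝔟 : Mq (Ideal.span {(m : 𝓞 K)})), cls (pi1 htm) 𝔟 = c →
        ((D * m ^ 3 : ℕ) : ℤ) ∣ s * e * (G.eval r0 + k) - D * (Ideal.absNorm (𝔟 : Ideal (𝓞 K)) : ℤ) →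
        ∃ w : ℕ, ∃ 𝔮 : Mq (Ideal.span {(m : 𝓞 K)}), cls (pi1 htm) 𝔮 = c ∧
          (Ideal.absNorm (𝔮 : Ideal (𝓞 K))).Prime ∧
          s * e * (G.eval (r0 + (m ^ (V + 3) : ℕ) * (w : ℤ)) + k) = D * (Ideal.absNorm (𝔮 : Ideal (𝓞 K)) : ℤ)) := by
  classical
  intro ε hε
  have hse : s * e ≠ 0 := mul_ne_zero (by rcases hs with rfl | rfl <;> norm_num) he
  have hm0 : 0 < m := by omega
  have hD0 : D ≠ 0 := fun h => by
    rw [h, zero_dvd_iff] at hD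
    exact (pow_pos hm0 V).ne' hD
  have hDz : (0 : ℤ) < D := by exact_mod_cast Nat.pos_of_ne_zero hD0
  have hDr : (0 : ℝ) < D := by exact_mod_cast Nat.pos_of_ne_zero hD0
  have hG0 : G.leadingCoeff ≠ 0 := by
    rw [Ne, leadingCoeff_eq_zero]
    rintro rfl
    simp at hn
  obtain ⟨G1, hG1⟩ : ∃ G1 : ℤ[X], G1 = C (s * e) * G := ⟨_, rfl⟩
  have hG1d : G1.natDegree = n + 1 := by rw [hG1, natDegree_C_mul hse, hn]
  have hG1l : G1.leadingCoeff = s * e * G.leadingCoeff := by rw [hG1, leadingCoeff_mul, leadingCoeff_C]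
  obtain ⟨M, hM⟩ : ∃ M : ℕ, M = m ^ (V + 3) := ⟨_, rfl⟩
  have hM0 : M ≠ 0 := by rw [hM]; positivity
  have hDM : D * m ^ 3 ∣ M := by rw [hM, pow_add]; exact mul_dvd_mul_right hD _
  obtain ⟨F, hF1, hF2, hF3, hF4⟩ := exists_F G1 (by omega) M hM0 r0 D ((dvd_mul_right _ _).trans hDM)
  rw [hG1d] at hF1 hF2
  obtain ⟨C0, hC0⟩ : ∃ C0 : ℕ, C0 = (G.eval r0).natAbs := ⟨_, rfl⟩
  have hC0' : |G.eval r0| = (C0 : ℤ) := by rw [hC0, Int.natCast_natAbs]
  obtain ⟨E0, hE0⟩ : ∃ E0 : ℕ, E0 = (s * e).natAbs := ⟨_, rfl⟩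
  have hE0' : |s * e| = (E0 : ℤ) := by rw [hE0, Int.natCast_natAbs]
  have hE1 : 1 ≤ E0 := by rw [hE0]; exact Int.natAbs_pos.2 hse
  have hE1r : (1 : ℝ) ≤ E0 := by exact_mod_cast hE1
  obtain ⟨κ', hκ'⟩ : ∃ κ' : ℝ, κ' = min (κ / (2 * D)) 1 := ⟨_, rfl⟩
  have hκ'0 : 0 < κ' := by rw [hκ']; positivity
  obtain ⟨X0, hX0⟩ := prime_ideal_in (K := K) hm hnm hd c n hn1 F hF1 (fun w => hF4 w (m ^ 3) hDM)
    (fun p hp h => by
      rcases h with h | h
      · exact hbig p hp (Or.inl h)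
      · have h1 : (p : ℤ) ∣ G1.leadingCoeff * (M : ℤ) ^ (n + 1) := hF2 ▸ dvd_mul_of_dvd_right h _
        have hpp : Prime (p : ℤ) := Nat.prime_iff_prime_int.1 hp
        rcases hpp.dvd_or_dvd h1 with h2 | h2
        · rw [hG1l] at h2
          rcases hpp.dvd_or_dvd h2 with h3 | h3
          · rcases hpp.dvd_or_dvd h3 with h4 | h4
            · exfalso
              have h5 : IsUnit s := by rcases hs with rfl | rfl <;> simp
              exact hpp.not_isUnit (isUnit_of_dvd_unit h4 h5)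
            · exact hbig p hp (Or.inr (Or.inl h4))
          · exact hbig p hp (Or.inr (Or.inr h3))
        · have h3 := hpp.dvd_of_dvd_pow h2
          rw [hM] at h3
          have h4 : p ∣ m ^ (V + 3) := by exact_mod_cast h3
          exact hp.dvd_of_dvd_pow h4) (E0 * (B + C0) + 1) (by omega) ε κ' hε hκ'0 (by rw [hκ']; exact min_le_right _ _)
  obtain ⟨X1, hX1⟩ := exists_nat_gt (2 * (E0 : ℝ) * C0 / κ)
  refine ⟨max X0 (X1 + 1), fun X hX => ?_⟩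
  obtain ⟨Bad, hBad, h1⟩ := hX0 X ((le_max_left _ _).trans hX)
  have hXX : X1 + 1 ≤ X := (le_max_right _ _).trans hX
  have hX1r : (1 : ℝ) ≤ X := by exact_mod_cast (by omega : 1 ≤ X)
  obtain ⟨v, hv⟩ : ∃ v : ℤ → ℤ, ∀ k, v k = s * e * (G.eval r0 + k) := ⟨_, fun _ => rfl⟩
  obtain ⟨Bad', hBad'⟩ : ∃ Bad' : Finset ℤ, Bad' = (Icc (-((B * X ^ (n + 1) : ℕ) : ℤ)) ((B * X ^ (n + 1) : ℕ) : ℤ)).filter
    (fun k : ℤ => (D : ℤ) ∣ v k ∧ v k / D ∈ Bad) := ⟨_, rfl⟩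
  refine ⟨Bad', ?_, ?_⟩
  · refine le_trans ?_ hBad
    have h2 : #Bad' ≤ #Bad := by
      apply card_le_card_of_injOn (fun k => v k / D)
      · intro k hk
        rw [mem_coe, hBad', mem_filter] at hk
        exact hk.2.2
      · intro k hk k' hk' hkk
        rw [mem_coe, hBad', mem_filter] at hk hk'
        have h3 : v k / D = v k' / D := hkk
        have h4 : v k = v k' := by
          rw [← Int.ediv_mul_cancel hk.2.1, ← Int.ediv_mul_cancel hk'.2.1, h3]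
        rw [hv, hv] at h4
        have h5 := mul_left_cancel₀ hse h4
        linarith
    exact_mod_cast h2
  · intro k hk hkB hkκ hsign 𝔟 h𝔟 hdiv
    rw [← hv] at hdiv
    have hDv : (D : ℤ) ∣ v k := by
      have h2 : (D : ℤ) ∣ ((D * m ^ 3 : ℕ) : ℤ) := by push_cast; exact dvd_mul_right _ _
      have h3 := h2.trans hdiv
      exact (dvd_sub_left (dvd_mul_right _ _)).1 h3
    obtain ⟨t, ht⟩ := hDv
    have htB : t ∉ Bad := by
      intro h2
      apply hkB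
      rw [hBad', mem_filter, mem_Icc]
      refine ⟨abs_le.1 hk, ⟨t, ht⟩, ?_⟩
      rw [ht, Int.mul_ediv_cancel_left _ hDz.ne']
      exact h2
    have hXpos : (1 : ℤ) ≤ ((X : ℤ)) ^ (n + 1) := one_le_pow₀ (by omega)
    have ht1 : |t| ≤ (((E0 * (B + C0) + 1) * X ^ (n + 1) : ℕ) : ℤ) := by
      have h2 : |v k| ≤ E0 * (C0 + B * (X : ℤ) ^ (n + 1)) := by
        rw [hv, abs_mul, hE0']
        apply mul_le_mul_of_nonneg_left _ (Nat.cast_nonneg _)
        refine (abs_add_le _ _).trans ?_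
        rw [hC0']
        push_cast at hk
        linarith
      have h3 : |t| ≤ |v k| := by
        rw [ht, abs_mul, abs_of_pos hDz]
        exact le_mul_of_one_le_left (abs_nonneg t) (by omega)
      have hE0z : (0 : ℤ) ≤ E0 := Nat.cast_nonneg _
      have hC0z : (0 : ℤ) ≤ C0 := Nat.cast_nonneg _
      have h4 : (C0 : ℤ) ≤ C0 * (X : ℤ) ^ (n + 1) := le_mul_of_one_le_right hC0z hXpos
      push_cast
      calc |t| ≤ |v k| := h3
        _ ≤ E0 * (C0 + B * (X : ℤ) ^ (n + 1)) := h2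
        _ ≤ E0 * (C0 * (X : ℤ) ^ (n + 1) + B * (X : ℤ) ^ (n + 1)) := by
            apply mul_le_mul_of_nonneg_left _ hE0z
            linarith
        _ = E0 * (B + C0) * (X : ℤ) ^ (n + 1) := by ring
        _ ≤ _ := by nlinarith
    have hcase : 0 < F.leadingCoeff ∨ κ' * (X : ℝ) ^ (n + 1) ≤ t := by
      rcases hsign with h2 | h2
      · left
        have hMz : (0 : ℤ) < (M : ℤ) ^ (n + 1) := by
          have : (0 : ℤ) < M := by exact_mod_cast Nat.pos_of_ne_zero hM0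
          positivity
        have h3 : 0 < (D : ℤ) * F.leadingCoeff := by
          rw [hF2, hG1l]
          exact mul_pos h2 hMz
        exact (pos_iff_pos_of_mul_pos h3).1 hDz
      · right
        have h3 : |(k : ℝ)| - E0 * C0 ≤ (v k : ℝ) := by
          have h4 : |k| ≤ s * e * k := by
            have h5 : s * e * k = |s * e * k| := (abs_of_pos h2).symm
            rw [h5, abs_mul, hE0']
            exact le_mul_of_one_le_left (abs_nonneg k) (by exact_mod_cast hE1)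
          have h5 : -((E0 : ℤ) * C0) ≤ s * e * G.eval r0 := by
            have h6 : |s * e * G.eval r0| = E0 * C0 := by rw [abs_mul, hE0', hC0']
            have := neg_abs_le (s * e * G.eval r0)
            rw [h6] at this
            exact this
          have h6 : |k| - E0 * C0 ≤ v k := by
            rw [hv, mul_add]
            linarith
          exact_mod_cast h6
        have h4 : (E0 : ℝ) * C0 ≤ κ / 2 * (X : ℝ) ^ (n + 1) := by
          have h5 : 2 * (E0 : ℝ) * C0 / κ ≤ X := by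
            have : (X1 : ℝ) ≤ X := by exact_mod_cast (by omega : X1 ≤ X)
            linarith
          rw [div_le_iff₀ hκ] at h5
          have h6 : (X : ℝ) ≤ (X : ℝ) ^ (n + 1) := by
            calc (X : ℝ) = (X : ℝ) ^ 1 := (pow_one _).symm
              _ ≤ _ := pow_le_pow_right₀ hX1r (by omega)
          have h7 : (X : ℝ) * κ ≤ (X : ℝ) ^ (n + 1) * κ := mul_le_mul_of_nonneg_right h6 hκ.le
          linarith
        have h5 : κ / 2 * (X : ℝ) ^ (n + 1) ≤ (D : ℝ) * t := by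
          have h6 : (v k : ℝ) = D * t := by rw [ht]; push_cast; ring
          rw [← h6]
          linarith
        have h6 : κ' ≤ κ / (2 * D) := by rw [hκ']; exact min_le_left _ _
        have hXp : (0 : ℝ) ≤ (X : ℝ) ^ (n + 1) := by positivity
        calc κ' * (X : ℝ) ^ (n + 1) ≤ κ / (2 * D) * (X : ℝ) ^ (n + 1) := mul_le_mul_of_nonneg_right h6 hXp
          _ = (κ / 2 * (X : ℝ) ^ (n + 1)) / D := by field_simp
          _ ≤ ((D : ℝ) * t) / D := div_le_div_of_nonneg_right h5 hDr.le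
          _ = t := by field_simp
    have hm3 : ((m ^ 3 : ℕ) : ℤ) ∣ t - (Ideal.absNorm (𝔟 : Ideal (𝓞 K)) : ℤ) := by
      rw [ht, ← mul_sub] at hdiv
      push_cast at hdiv ⊢
      exact (mul_dvd_mul_iff_left hDz.ne').1 hdiv
    obtain ⟨w, -, 𝔮, hq1, hq2, hq3⟩ := h1 t ht1 htB hcase 𝔟 h𝔟 hm3
    refine ⟨w, 𝔮, hq1, hq2, ?_⟩
    have h2 := hF3 w
    have h3 : G1.eval (r0 + (M : ℤ) * w) - G1.eval r0 = s * e * G.eval (r0 + (M : ℤ) * w) - s * e * G.eval r0 := by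
      rw [hG1, eval_mul, eval_mul, eval_C, eval_C]
    rw [h3] at h2
    rw [← hM]
    have h4 := hv k
    rw [ht] at h4
    linear_combination -h2 - h4 + (D : ℤ) * hq3

/-- the core, with conditions at the real place -/
theorem core0 {m : ℕ} (hm : 2 ≤ m) (hnm : Module.finrank ℚ K ∣ m)
    (hd : ∀ p : ℕ, p.Prime → (p : ℤ) ∣ discr K → p ∣ m)
    (G : ℤ[X]) (n : ℕ) (hn1 : 1 ≤ n) (hn : G.natDegree = n + 1) (e : ℤ) (he : e ≠ 0)
    (hbig : ∀ p : ℕ, p.Prime → (p ≤ n + 1 ∨ (p : ℤ) ∣ e ∨ (p : ℤ) ∣ G.leadingCoeff) → p ∣ m) (B V : ℕ) :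
    AA (n + 1) B (fun _ k => ∀ (t0 : ℤ) (z0 : 𝓞 K) (D : ℕ) (μ : ℤ), D ∣ m ^ V → μ ≠ 0 → IsCoprime μ (m : ℤ) →
      Algebra.norm ℤ z0 = D * μ → ((D * m ^ 3 : ℕ) : ℤ) ∣ Algebra.norm ℤ z0 - e * (G.eval t0 + k) →
      (0 < μ * e * G.leadingCoeff ∨ 0 < μ * e * k) →
      ∃ (t : ℤ) (z : 𝓞 K), (m : ℤ) ∣ t - t0 ∧ z - z0 ∈ Ideal.span {(m : 𝓞 K)} ∧ SameSign z z0 ∧
        Algebra.norm ℤ z = e * (G.eval t + k) ∧ 0 < Algebra.norm ℤ z * μ) := by
  classical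
  have htm : Ideal.span {(m : 𝓞 K)} ≠ ⊤ := span_ne_top hm
  have hm0 : 0 < m := by omega
  have hbot := span_ne_bot (K := K) (q := m) (by omega)
  have := (cls_card_le hbot htm).1
  have := Fintype.ofFinite (Cls (pi1 htm))
  obtain ⟨M, hM⟩ : ∃ M : ℕ, M = m ^ (V + 3) := ⟨_, rfl⟩
  have hM0 : 0 < M := by rw [hM]; positivity
  have hMz : (0 : ℤ) < M := by exact_mod_cast hM0
  apply AA.large
  intro κ hκ
  have h := AA.forall (d := n + 1) (B := B) (ι := ℕ × ℕ × ℤ × Cls (pi1 htm))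
    ((range M) ×ˢ (m ^ V).divisors ×ˢ ({1, -1} : Finset ℤ) ×ˢ (univ : Finset (Cls (pi1 htm))))
    (fun i X k => κ * (X : ℝ) ^ (n + 1) ≤ |(k : ℝ)| → (0 < i.2.2.1 * e * G.leadingCoeff ∨ 0 < i.2.2.1 * e * k) →
      ∀ (𝔟 : Mq (Ideal.span {(m : 𝓞 K)})), cls (pi1 htm) 𝔟 = i.2.2.2 →
        ((i.2.1 * m ^ 3 : ℕ) : ℤ) ∣ i.2.2.1 * e * (G.eval (i.1 : ℤ) + k) - i.2.1 * (Ideal.absNorm (𝔟 : Ideal (𝓞 K)) : ℤ) →
        ∃ w : ℕ, ∃ 𝔮 : Mq (Ideal.span {(m : 𝓞 K)}), cls (pi1 htm) 𝔮 = i.2.2.2 ∧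
          (Ideal.absNorm (𝔮 : Ideal (𝓞 K))).Prime ∧
          i.2.2.1 * e * (G.eval ((i.1 : ℤ) + (m ^ (V + 3) : ℕ) * (w : ℤ)) + k) =
            i.2.1 * (Ideal.absNorm (𝔮 : Ideal (𝓞 K)) : ℤ))
    (by
      rintro ⟨r0, D, s, c⟩ hi
      simp only [mem_product, mem_range, Nat.mem_divisors, mem_insert, mem_singleton, mem_univ] at hi
      exact tuple hm hnm hd G n hn1 hn e he hbig B V κ hκ (r0 : ℤ) D hi.2.1.1 s hi.2.2.1 c)
  refine h.mono fun X k hk hκk t0 z0 D μ hDV hμ0 hμc hz0 hdiv hsign => ?_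
  have hD0 : D ≠ 0 := fun h => by
    rw [h, zero_dvd_iff] at hDV
    exact (pow_pos hm0 V).ne' hDV
  have hDM : D * m ^ 3 ∣ M := by rw [hM, pow_add]; exact mul_dvd_mul_right hDV _
  obtain ⟨𝔟, hb1, hb2⟩ := move (htm := htm) z0 D V hD0 hDV μ hμ0 hz0 hμc
  obtain ⟨s, hs⟩ : ∃ s : ℤ, s = SignType.sign μ := ⟨_, rfl⟩
  have hs1 : s = 1 ∨ s = -1 := by
    rcases lt_or_gt_of_ne hμ0 with h1 | h1
    · right; rw [hs, sign_neg h1, SignType.coe_neg_one]
    · left; rw [hs, sign_pos h1, SignType.coe_one]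
  have hsμ : s * |μ| = μ := by
    rw [hs]; exact sign_mul_abs μ
  have hsμ' : s * μ = |μ| := by
    rw [hs]; exact sign_mul_self μ
  have hss : s * s = 1 := by rcases hs1 with h1 | h1 <;> rw [h1] <;> norm_num
  have habs : 0 < |μ| := abs_pos.2 hμ0
  obtain ⟨r0, hr0⟩ : ∃ r0 : ℕ, (r0 : ℤ) = t0 % M := ⟨(t0 % M).toNat, Int.toNat_of_nonneg (Int.emod_nonneg _ hMz.ne')⟩
  have hr0M : r0 < M := by
    have := Int.emod_lt_of_pos t0 hMz
    rw [← hr0] at this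
    exact_mod_cast this
  have hMt : (M : ℤ) ∣ t0 - r0 := by rw [hr0]; exact Int.dvd_self_sub_emod
  have hGG : (M : ℤ) ∣ G.eval t0 - G.eval (r0 : ℤ) := hMt.trans (sub_dvd_eval_sub _ _ G)
  have hsign' : 0 < s * e * G.leadingCoeff ∨ 0 < s * e * k := by
    rcases hsign with h1 | h1
    · left
      have : μ * e * G.leadingCoeff = |μ| * (s * e * G.leadingCoeff) := by
        conv_lhs => rw [← hsμ]
        ring
      rw [this] at h1
      exact (pos_iff_pos_of_mul_pos h1).1 habs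
    · right
      have : μ * e * k = |μ| * (s * e * k) := by
        conv_lhs => rw [← hsμ]
        ring
      rw [this] at h1
      exact (pos_iff_pos_of_mul_pos h1).1 habs
  obtain ⟨w, 𝔮, hq1, hq2, hq3⟩ := hk ⟨r0, D, s, cls (pi1 htm) 𝔟⟩ (by
    simp only [mem_product, mem_range, Nat.mem_divisors, mem_insert, mem_singleton, mem_univ]
    exact ⟨hr0M, ⟨hDV, (pow_pos hm0 V).ne'⟩, hs1, trivial⟩) hκk hsign' 𝔟 rfl (by
    simp only
    rw [hb1]
    have h1 : ((D * m ^ 3 : ℕ) : ℤ) ∣ (M : ℤ) := by exact_mod_cast hDM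
    have h2 : s * e * (G.eval (r0 : ℤ) + k) - D * |μ| =
      -(s * (Algebra.norm ℤ z0 - e * (G.eval t0 + k))) - s * e * (G.eval t0 - G.eval (r0 : ℤ)) := by
      rw [hz0]
      linear_combination (-(D : ℤ)) * hsμ'.symm
    rw [h2]
    exact dvd_sub (dvd_neg.2 (dvd_mul_of_dvd_right hdiv _)) (dvd_mul_of_dvd_right (h1.trans hGG) _))
  simp only at hq1 hq3
  obtain ⟨z, hz1, hz2, hz3⟩ := hb2 𝔮 hq1
  rw [← hs] at hz3
  refine ⟨(r0 : ℤ) + (m ^ (V + 3) : ℕ) * (w : ℤ), z, ?_, hz1, hz2, ?_, ?_⟩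
  · have h1 : (m : ℤ) ∣ (M : ℤ) := by
      rw [hM]
      exact_mod_cast dvd_pow_self m (by omega)
    have h2 : (r0 : ℤ) + (m ^ (V + 3) : ℕ) * (w : ℤ) - t0 = (M : ℤ) * w - (t0 - r0) := by rw [hM]; ring
    rw [h2]
    exact dvd_sub (dvd_mul_of_dvd_left h1 _) (h1.trans hMt)
  · rw [hz3]
    linear_combination (-s) * hq3 + (e * (G.eval ((r0 : ℤ) + (m ^ (V + 3) : ℕ) * (w : ℤ)) + k)) * hss
  · have h1 : (0 : ℤ) < Ideal.absNorm (𝔮 : Ideal (𝓞 K)) := by exact_mod_cast hq2.pos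
    have h2 : (0 : ℤ) < D := by exact_mod_cast Nat.pos_of_ne_zero hD0
    have h3 : Algebra.norm ℤ z * μ = D * (Ideal.absNorm (𝔮 : Ideal (𝓞 K)) : ℤ) * |μ| := by
      rw [hz3]
      linear_combination (D : ℤ) * (Ideal.absNorm (𝔮 : Ideal (𝓞 K)) : ℤ) * hsμ'
    rw [h3]
    positivity

/-- the core -/
theorem core {m : ℕ} (hm : 2 ≤ m) (hnm : Module.finrank ℚ K ∣ m)
    (hd : ∀ p : ℕ, p.Prime → (p : ℤ) ∣ discr K → p ∣ m)
    (G : ℤ[X]) (n : ℕ) (hn1 : 1 ≤ n) (hn : G.natDegree = n + 1) (e : ℤ) (he : e ≠ 0)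
    (hbig : ∀ p : ℕ, p.Prime → (p ≤ n + 1 ∨ (p : ℤ) ∣ e ∨ (p : ℤ) ∣ G.leadingCoeff) → p ∣ m) (B V : ℕ) :
    AA (n + 1) B (fun _ k => ∀ (t0 : ℤ) (z0 : 𝓞 K) (D : ℕ) (μ : ℤ), D ∣ m ^ V → μ ≠ 0 → IsCoprime μ (m : ℤ) →
      Algebra.norm ℤ z0 = D * μ → ((D * m ^ 3 : ℕ) : ℤ) ∣ Algebra.norm ℤ z0 - e * (G.eval t0 + k) →
      (0 < μ * e * G.leadingCoeff ∨ Odd (n + 1) ∨ 0 < μ * e * k) →
      ∃ (t : ℤ) (z : 𝓞 K), (m : ℤ) ∣ t - t0 ∧ z - z0 ∈ Ideal.span {(m : 𝓞 K)} ∧ SameSign z z0 ∧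
        Algebra.norm ℤ z = e * (G.eval t + k) ∧ 0 < Algebra.norm ℤ z * μ) := by
  have hG0 : G.leadingCoeff ≠ 0 := by
    rw [Ne, leadingCoeff_eq_zero]
    rintro rfl
    simp at hn
  have h1 := core0 hm hnm hd G n hn1 hn e he hbig B V
  have hX : (-X : ℤ[X]).natDegree = 1 := by rw [natDegree_neg, natDegree_X]
  have hG' : (G.comp (-X)).natDegree = n + 1 := by rw [natDegree_comp, hn, hX, mul_one]
  have hGl : (G.comp (-X)).leadingCoeff = G.leadingCoeff * (-1) ^ (n + 1) := by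
    rw [leadingCoeff_comp (by rw [hX]; norm_num), leadingCoeff_neg, leadingCoeff_X, hn]
  have h2 := core0 hm hnm hd (G.comp (-X)) n hn1 hG' e he (fun p hp h => by
    apply hbig p hp
    rcases h with h | h | h
    · exact Or.inl h
    · exact Or.inr (Or.inl h)
    · right; right
      rw [hGl] at h
      rcases neg_one_pow_eq_or ℤ (n + 1) with h3 | h3
      · rwa [h3, mul_one] at h
      · rw [h3, mul_neg, mul_one, dvd_neg] at h
        exact h) B V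
  refine (h1.and h2).mono fun X k hk t0 z0 D μ hDV hμ0 hμc hz0 hdiv hsign => ?_
  by_cases hs1 : 0 < μ * e * G.leadingCoeff ∨ 0 < μ * e * k
  · exact hk.1 t0 z0 D μ hDV hμ0 hμc hz0 hdiv hs1
  · rw [not_or, not_lt] at hs1
    have hodd : Odd (n + 1) := by
      rcases hsign with h | h | h
      · exact absurd h (not_lt.2 hs1.1)
      · exact h
      · exact absurd h hs1.2
    obtain ⟨t, z, hz1, hz2, hz3, hz4, hz5⟩ := hk.2 (-t0) z0 D μ hDV hμ0 hμc hz0 (by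
      rw [eval_comp, eval_neg, eval_X, neg_neg]
      exact hdiv) (by
      left
      rw [hGl, hodd.neg_one_pow]
      have h3 : μ * e * G.leadingCoeff ≠ 0 := mul_ne_zero (mul_ne_zero hμ0 he) hG0
      have h4 := lt_of_le_of_ne hs1.1 h3
      linarith)
    refine ⟨-t, z, ?_, hz2, hz3, ?_, hz5⟩
    · have : -t - t0 = -(t - -t0) := by ring
      rw [this]
      exact dvd_neg.2 hz1
    · rw [hz4, eval_comp, eval_neg, eval_X]

end Pool.Agent.U637.NR
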