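import Pool.Agent.U637.NR.G2
import Pool.Agent.R479.NF.NForm
import Pool.Agent.Y772.HG.Sgn

/-! Integers of the field near to given `p`-adic numbers, with given signs. -/

set_option autoImplicit false
set_option linter.unusedSectionVars false

namespace Pool.Agent.U637.NR
open NumberField Finset Polynomial Module TensorProduct
open Pool.Agent.N784.AD (SameSign)
open Pool.Agent.Y773 (TPos)
open Pool.Agent.R479.NF (Ix Mt P P_int P_smul norm_eq_P leftMul_one_tmul)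
open Pool.Agent.TH204.HP (crt)

instance (p : Nat.Primes) : Fact (p : ℕ).Prime := ⟨p.2⟩

/-- integers near to `p`-adic integers -/
lemma near_int (T : Finset Nat.Primes) (Q : ℕ) (x : (p : Nat.Primes) → ℚ_[(p : ℕ)]) (hx : ∀ p ∈ T, ‖x p‖ ≤ 1) :
    ∃ a : ℤ, ∀ p ∈ T, ‖(a : ℚ_[(p : ℕ)]) - x p‖ ≤ (((p : ℕ) : ℝ) ^ Q)⁻¹ := by
  classical
  obtain ⟨r, hr⟩ : ∃ r : Nat.Primes → ℕ, ∀ p ∈ T, ‖((r p : ℕ) : ℚ_[(p : ℕ)]) - x p‖ ≤ (((p : ℕ) : ℝ) ^ Q)⁻¹ := by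
    have h : ∀ p : Nat.Primes, ∃ r : ℕ, p ∈ T → ‖((r : ℕ) : ℚ_[(p : ℕ)]) - x p‖ ≤ (((p : ℕ) : ℝ) ^ Q)⁻¹ := by
      intro p
      by_cases hp : p ∈ T
      · obtain ⟨u, hu⟩ : ∃ u : ℤ_[(p : ℕ)], (u : ℚ_[(p : ℕ)]) = x p := ⟨⟨x p, hx p hp⟩, rfl⟩
        refine ⟨u.appr Q, fun _ => ?_⟩
        have h1 := PadicInt.appr_spec Q u
        have h2 : ‖u - (u.appr Q : ℤ_[(p : ℕ)])‖ ≤ ((p : ℕ) : ℝ) ^ (-(Q : ℤ)) :=
          (PadicInt.norm_le_pow_iff_mem_span_pow _ Q).2 h1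
        rw [PadicInt.norm_def] at h2
        push_cast at h2
        rw [hu, zpow_neg, zpow_natCast] at h2
        rw [← norm_neg, neg_sub]
        exact h2
      · exact ⟨0, fun h => absurd h hp⟩
    choose r hr using h
    exact ⟨r, hr⟩
  obtain ⟨u, -, hu⟩ := crt T Q r
  refine ⟨u, fun p hp => ?_⟩
  have h1 : ‖((u : ℤ) : ℚ_[(p : ℕ)]) - ((r p : ℕ) : ℚ_[(p : ℕ)])‖ ≤ (((p : ℕ) : ℝ) ^ Q)⁻¹ := by
    have h2 := (Padic.norm_int_le_pow_iff_dvd (p := (p : ℕ)) ((u : ℤ) - r p) Q).2 (by exact_mod_cast hu p hp)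
    rw [zpow_neg, zpow_natCast] at h2
    push_cast at h2 ⊢
    exact h2
  have e : ((u : ℤ) : ℚ_[(p : ℕ)]) - x p = (((u : ℤ) : ℚ_[(p : ℕ)]) - ((r p : ℕ) : ℚ_[(p : ℕ)])) + (((r p : ℕ) : ℚ_[(p : ℕ)]) - x p) := by ring
  rw [e]
  exact (Padic.nonarchimedean _ _).trans (max_le h1 (hr p hp))

lemma near_dvd {p : ℕ} [Fact p.Prime] {a : ℤ} {Q : ℕ} (h : ‖(a : ℚ_[p])‖ ≤ ((p : ℝ) ^ Q)⁻¹) : ((p ^ Q : ℕ) : ℤ) ∣ a := by
  rw [← zpow_natCast, ← zpow_neg] at h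
  exact_mod_cast (Padic.norm_int_le_pow_iff_dvd (p := p) a Q).1 h

lemma dvd_near {p : ℕ} [Fact p.Prime] {a : ℤ} {Q : ℕ} (h : ((p ^ Q : ℕ) : ℤ) ∣ a) : ‖(a : ℚ_[p])‖ ≤ ((p : ℝ) ^ Q)⁻¹ := by
  rw [← zpow_natCast, ← zpow_neg]
  exact (Padic.norm_int_le_pow_iff_dvd (p := p) a Q).2 (by exact_mod_cast h)

section
variable {K : Type} [Field K] [NumberField K]

/-- the matrices of the multiplication over the integers -/
noncomputable def MZm (j : Ix K) : Matrix (Ix K) (Ix K) ℤ :=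
  Algebra.leftMulMatrix (RingOfIntegers.basis K) (RingOfIntegers.basis K j)

lemma Mt_int (j : Ix K) : Mt K j = (MZm (K := K) j).map (Int.cast : ℤ → ℚ) := by
  ext a b
  unfold Mt MZm
  rw [Matrix.map_apply, Algebra.leftMulMatrix_eq_repr_mul, Algebra.leftMulMatrix_eq_repr_mul]
  have h1 : (integralBasis K j) * (integralBasis K b) = algebraMap (𝓞 K) K (RingOfIntegers.basis K j * RingOfIntegers.basis K b) := by
    rw [map_mul, integralBasis_apply, integralBasis_apply]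
  rw [h1]
  exact integralBasis_repr_apply K _ _

/-- the norm form at `p`-adic integers -/
lemma P_padic (p : ℕ) [Fact p.Prime] (x : Ix K → ℤ_[p]) :
    P K ℚ_[p] (fun j => (x j : ℚ_[p])) =
      ((Matrix.det (∑ j, x j • (MZm (K := K) j).map (Int.cast : ℤ → ℤ_[p])) : ℤ_[p]) : ℚ_[p]) := by
  unfold P
  have h : ((Matrix.det (∑ j, x j • (MZm (K := K) j).map (Int.cast : ℤ → ℤ_[p])) : ℤ_[p]) : ℚ_[p]) =
      PadicInt.Coe.ringHom (Matrix.det (∑ j, x j • (MZm (K := K) j).map (Int.cast : ℤ → ℤ_[p]))) := rfl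
  rw [h, RingHom.map_det, map_sum]
  congr 1
  refine Finset.sum_congr rfl fun j _ => ?_
  ext a b
  simp [Mt_int, Matrix.map_apply, Matrix.smul_apply, RingHom.mapMatrix_apply]
  all_goals exact Or.inl rfl

/-- the norm form is a Lipschitz function -/
lemma P_lip (p : ℕ) [Fact p.Prime] (Q : ℕ) (x y : Ix K → ℚ_[p]) (hx : ∀ j, ‖x j‖ ≤ 1) (hy : ∀ j, ‖y j‖ ≤ 1)
    (hxy : ∀ j, ‖x j - y j‖ ≤ ((p : ℝ) ^ Q)⁻¹) : ‖P K ℚ_[p] x - P K ℚ_[p] y‖ ≤ ((p : ℝ) ^ Q)⁻¹ := by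
  obtain ⟨x', hx'⟩ : ∃ x' : Ix K → ℤ_[p], ∀ j, (x' j : ℚ_[p]) = x j := ⟨fun j => ⟨x j, hx j⟩, fun _ => rfl⟩
  obtain ⟨y', hy'⟩ : ∃ y' : Ix K → ℤ_[p], ∀ j, (y' j : ℚ_[p]) = y j := ⟨fun j => ⟨y j, hy j⟩, fun _ => rfl⟩
  have ex : x = fun j => (x' j : ℚ_[p]) := by funext j; rw [hx']
  have ey : y = fun j => (y' j : ℚ_[p]) := by funext j; rw [hy']
  obtain ⟨I, hI⟩ : ∃ I : Ideal ℤ_[p], I = Ideal.span {(p : ℤ_[p]) ^ Q} := ⟨_, rfl⟩
  have hmem : ∀ j, x' j - y' j ∈ I := by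
    intro j
    rw [hI, ← PadicInt.norm_le_pow_iff_mem_span_pow, zpow_neg, zpow_natCast, PadicInt.norm_def]
    push_cast
    rw [hx', hy']
    exact hxy j
  rw [ex, ey, P_padic, P_padic]
  have h1 : Matrix.det (∑ j, x' j • (MZm (K := K) j).map (Int.cast : ℤ → ℤ_[p])) -
      Matrix.det (∑ j, y' j • (MZm (K := K) j).map (Int.cast : ℤ → ℤ_[p])) ∈ I := by
    rw [← Ideal.Quotient.eq, RingHom.map_det, RingHom.map_det]
    congr 1
    ext a b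
    simp only [RingHom.mapMatrix_apply, Matrix.map_apply, Matrix.sum_apply, Matrix.smul_apply, map_sum, smul_eq_mul, map_mul]
    refine Finset.sum_congr rfl fun j _ => ?_
    rw [(Ideal.Quotient.eq (I := I)).2 (hmem j)]
  rw [hI, ← PadicInt.norm_le_pow_iff_mem_span_pow, zpow_neg, zpow_natCast, PadicInt.norm_def] at h1
  push_cast at h1
  exact h1

/-- given signs at the real embeddings, one by one -/
lemma exists_signs_one (M : ℕ) (hM : 0 < M) (S : (K →+* ℝ) → Prop) :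
    ∃ u : 𝓞 K, u ≠ 0 ∧ u - 1 ∈ Ideal.span {(M : 𝓞 K)} ∧ ∀ σ : K →+* ℝ, (0 < σ (u : K) ↔ S σ) := by
  classical
  have hfin : Finite (K →+* ℝ) := Pool.Agent.N784.AD.finite_real
  have := Fintype.ofFinite (K →+* ℝ)
  have hf := span_ne_bot (K := K) (q := M) (by omega)
  -- one negative sign
  have h1 : ∀ σ : K →+* ℝ, ∃ x : 𝓞 K, x ≠ 0 ∧ x - 1 ∈ Ideal.span {(M : 𝓞 K)} ∧ σ (x : K) < 0 ∧
      ∀ τ : K →+* ℝ, τ ≠ σ → 0 < τ (x : K) := by
    intro σ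
    obtain ⟨w, hw, hws⟩ := Pool.Agent.Y772.G.exists_rl σ
    obtain ⟨x, hx0, hx1, hx2, hx3⟩ := Pool.Agent.Y772.G.exists_neg hf w
    refine ⟨x, hx0, hx1, ?_, ?_⟩
    · rw [← hws]; exact hx2 hw
    · intro τ hτ
      obtain ⟨w', hw', hws'⟩ := Pool.Agent.Y772.G.exists_rl τ
      rw [← hws']
      apply hx3
      intro _ h2
      apply hτ
      ext y
      rw [← hws', ← hws, h2]
  choose z hz0 hz1 hz2 hz3 using h1
  have hmul : ∀ x y : 𝓞 K, x - 1 ∈ Ideal.span {(M : 𝓞 K)} → y - 1 ∈ Ideal.span {(M : 𝓞 K)} →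
      x * y - 1 ∈ Ideal.span {(M : 𝓞 K)} := by
    intro x y hx hy
    have : x * y - 1 = (x - 1) * y + (y - 1) := by ring
    rw [this]
    exact add_mem (Ideal.mul_mem_right _ _ hx) hy
  obtain ⟨s, hs⟩ : ∃ s : Finset (K →+* ℝ), s = univ.filter (fun σ => ¬ S σ) := ⟨_, rfl⟩
  refine ⟨∏ σ ∈ s, z σ, prod_ne_zero_iff.2 fun σ _ => hz0 σ, ?_, ?_⟩
  · induction s using Finset.induction_on generalizing S with
    | empty => simp
    | insert a s ha ih =>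
      rw [prod_insert ha]
      refine hmul _ _ (hz1 a) ?_
      clear ih hs
      induction s using Finset.induction_on with
      | empty => simp
      | insert b t hb ih2 =>
        rw [prod_insert hb]
        exact hmul _ _ (hz1 b) (ih2 (fun h => ha (mem_insert_of_mem h)))
  · intro τ
    have e : τ ((∏ σ ∈ s, z σ : 𝓞 K) : K) = ∏ σ ∈ s, τ (z σ : K) := by
      rw [RingOfIntegers.coe_eq_algebraMap, map_prod, map_prod]
    rw [e]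
    by_cases hτ : τ ∈ s
    · rw [← mul_prod_erase _ _ hτ]
      have h2 : 0 < ∏ σ ∈ s.erase τ, τ (z σ : K) := prod_pos fun σ hσ => hz3 σ τ (Finset.ne_of_mem_erase hσ).symm
      have h3 : τ (z τ : K) * ∏ σ ∈ s.erase τ, τ (z σ : K) < 0 := mul_neg_of_neg_of_pos (hz2 τ) h2
      rw [hs, mem_filter] at hτ
      exact ⟨fun h4 => absurd h4 (not_lt.2 h3.le), fun h4 => absurd h4 hτ.2⟩
    · have h2 : 0 < ∏ σ ∈ s, τ (z σ : K) := prod_pos fun σ hσ => hz3 σ τ (fun h => hτ (h ▸ hσ))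
      rw [hs, mem_filter, not_and, not_not] at hτ
      exact ⟨fun _ => hτ (mem_univ _), fun _ => h2⟩

/-- given signs and residue class -/
lemma exists_signs (M : ℕ) (hM : 0 < M) (S : (K →+* ℝ) → Prop) (z1 : 𝓞 K) :
    ∃ z0 : 𝓞 K, z0 ≠ 0 ∧ z0 - z1 ∈ Ideal.span {(M : 𝓞 K)} ∧ ∀ σ : K →+* ℝ, (0 < σ (z0 : K) ↔ S σ) := by
  obtain ⟨u, hu0, hu1, hu2⟩ := exists_signs_one M hM S
  obtain ⟨k, hk1, hk2⟩ := Pool.Agent.Y772.TW.exists_tpos z1 hM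
  obtain ⟨y, hy⟩ : ∃ y : 𝓞 K, y = z1 + (k : 𝓞 K) * (M : 𝓞 K) := ⟨_, rfl⟩
  rw [← hy] at hk1 hk2
  refine ⟨y * u, mul_ne_zero hk2 hu0, ?_, ?_⟩
  · have : y * u - z1 = y * (u - 1) + (k : 𝓞 K) * (M : 𝓞 K) := by rw [hy]; ring
    rw [this]
    exact add_mem (Ideal.mul_mem_left _ _ hu1) (Ideal.mul_mem_left _ _ (Ideal.mem_span_singleton_self _))
  · intro σ
    rw [← hu2 σ]
    have e : σ ((y * u : 𝓞 K) : K) = σ (y : K) * σ (u : K) := by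
      rw [RingOfIntegers.coe_eq_algebraMap, map_mul, map_mul]
    rw [e]
    have := hk1 σ
    exact ⟨fun h => (pos_iff_pos_of_mul_pos h).1 this, fun h => mul_pos this h⟩

end

end Pool.Agent.U637.NR
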