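import Pool.Agent.U637.NR.G3

/-! The signs of a real point. -/

set_option autoImplicit false
set_option linter.unusedSectionVars false

namespace Pool.Agent.U637.NR
open NumberField Finset Module TensorProduct
open Pool.Agent.Y773 (TPos)
open Pool.Agent.R479.NF (Ix Mt P P_int P_smul norm_eq_P leftMul_one_tmul)

lemma exists_mul_one {F A : Type} [Field F] [CommRing A] [Algebra F A] [Module.Finite F A] [Module.Free F A] (z : A)
    (h : Algebra.norm F z ≠ 0) : ∃ w, z * w = 1 := by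
  rw [Algebra.norm_apply] at h
  have h1 : IsUnit (LinearMap.mul F A z) :=
    (LinearMap.isUnit_iff_isUnit_det _).2 (isUnit_iff_ne_zero.2 h)
  obtain ⟨u, hu⟩ := h1
  refine ⟨(u⁻¹ : (Module.End F A)ˣ).val 1, ?_⟩
  have h2 : (u.val * (u⁻¹).val) (1 : A) = 1 := by rw [Units.mul_inv]; rfl
  rw [hu] at h2
  exact h2

section
variable {K : Type} [Field K] [NumberField K]

/-- the evaluation of an element of `ℝ ⊗ K` at a real embedding -/
noncomputable def ev (σ : K →+* ℝ) : ℝ ⊗[ℚ] K →ₐ[ℝ] ℝ :=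
  Algebra.TensorProduct.lift (AlgHom.id ℝ ℝ) (RingHom.equivRatAlgHom K ℝ σ) (fun _ _ => Commute.all _ _)

lemma ev_tmul (σ : K →+* ℝ) (a : ℝ) (y : K) : ev σ (a ⊗ₜ[ℚ] y) = a * σ y := by
  unfold ev
  rw [Algebra.TensorProduct.lift_tmul]
  rfl

lemma ev_coord (σ : K →+* ℝ) (z : ℝ ⊗[ℚ] K) :
    ev σ z = ∑ j, (Algebra.TensorProduct.basis ℝ (integralBasis K)).repr z j * σ (integralBasis K j) := by
  conv_lhs => rw [← (Algebra.TensorProduct.basis ℝ (integralBasis K)).sum_repr z]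
  rw [map_sum]
  refine Finset.sum_congr rfl fun j _ => ?_
  rw [map_smul, Algebra.TensorProduct.basis_apply, ev_tmul, one_mul, smul_eq_mul]

/-- rational elements with the signs of an integer -/
lemma norm_sign_rat (y : K) (z0 : 𝓞 K) (hy : y ≠ 0) (hz0 : z0 ≠ 0) (h : ∀ σ : K →+* ℝ, 0 < σ y * σ (z0 : K)) :
    0 < Algebra.norm ℚ y * ((Algebra.norm ℤ z0 : ℤ) : ℚ) := by
  obtain ⟨a, b, hb, hab⟩ := IsFractionRing.div_surjective (A := 𝓞 K) y
  have hb0 : b ≠ 0 := nonZeroDivisors.ne_zero hb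
  have hbK : (algebraMap (𝓞 K) K b) ≠ 0 := by simpa using hb0
  have ha : algebraMap (𝓞 K) K a = y * algebraMap (𝓞 K) K b := by
    rw [← hab, div_mul_cancel₀ _ hbK]
  have ha0 : a ≠ 0 := by
    rintro rfl
    rw [map_zero] at ha
    exact (mul_ne_zero hy hbK) ha.symm
  have htp : TPos K (a * b * z0) := by
    intro σ
    have e : σ ((a * b * z0 : 𝓞 K) : K) = (σ y * σ (z0 : K)) * (σ (algebraMap (𝓞 K) K b)) ^ 2 := by
      have e1 : ((a * b * z0 : 𝓞 K) : K) = y * (z0 : K) * (algebraMap (𝓞 K) K b) ^ 2 := by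
        change algebraMap (𝓞 K) K (a * b * z0) = _
        rw [map_mul, map_mul, ha]
        change _ * _ * algebraMap (𝓞 K) K z0 = y * algebraMap (𝓞 K) K z0 * _
        ring
      rw [e1, map_mul, map_mul, map_pow]
    rw [e]
    have h1 : σ (algebraMap (𝓞 K) K b) ≠ 0 := (map_ne_zero σ).2 hbK
    have h2 := h σ
    positivity
  have h1 := Pool.Agent.Y772.TW.norm_pos (mul_ne_zero (mul_ne_zero ha0 hb0) hz0) htp
  rw [map_mul, map_mul] at h1
  have h2 : ((Algebra.norm ℤ a : ℤ) : ℚ) = Algebra.norm ℚ y * ((Algebra.norm ℤ b : ℤ) : ℚ) := by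
    have h3 := Algebra.coe_norm_int a
    have h4 := Algebra.coe_norm_int b
    rw [h3, h4]
    have h5 := congrArg (Algebra.norm ℚ) ha
    rw [map_mul] at h5
    exact h5
  have h3 : (0 : ℚ) < ((Algebra.norm ℤ a * Algebra.norm ℤ b * Algebra.norm ℤ z0 : ℤ) : ℚ) := by exact_mod_cast h1
  push_cast at h3
  rw [h2] at h3
  have h4 : Algebra.norm ℚ y * ((Algebra.norm ℤ b : ℤ) : ℚ) * ((Algebra.norm ℤ b : ℤ) : ℚ) * ((Algebra.norm ℤ z0 : ℤ) : ℚ) =
      (Algebra.norm ℚ y * ((Algebra.norm ℤ z0 : ℤ) : ℚ)) * (((Algebra.norm ℤ b : ℤ) : ℚ)) ^ 2 := by ring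
  rw [h4] at h3
  exact pos_of_mul_pos_left h3 (sq_nonneg _)

lemma P_rat (q : Ix K → ℚ) : P K ℝ (fun j => (q j : ℝ)) = ((Algebra.norm ℚ (∑ j, q j • integralBasis K j) : ℚ) : ℝ) := by
  rw [P, Algebra.norm_eq_matrix_det (integralBasis K), map_sum]
  have h2 : ((Matrix.det (∑ j, Algebra.leftMulMatrix (integralBasis K) (q j • integralBasis K j)) : ℚ) : ℝ) =
      algebraMap ℚ ℝ (Matrix.det (∑ j, Algebra.leftMulMatrix (integralBasis K) (q j • integralBasis K j))) := rfl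
  rw [h2, RingHom.map_det, map_sum]
  congr 1
  refine Finset.sum_congr rfl fun j _ => ?_
  rw [map_smul]
  ext a b
  simp [Mt, Matrix.map_apply, Matrix.smul_apply]

/-- the sign of the norm of an element of `ℝ ⊗ K` -/
theorem real_sign (zr : ℝ ⊗[ℚ] K) (hzr : Algebra.norm ℝ zr ≠ 0) (z0 : 𝓞 K) (hz0 : z0 ≠ 0)
    (h : ∀ σ : K →+* ℝ, 0 < σ (z0 : K) ↔ 0 < ev σ zr) : 0 < Algebra.norm ℝ zr * ((Algebra.norm ℤ z0 : ℤ) : ℝ) := by
  classical
  have hfin : Finite (K →+* ℝ) := Pool.Agent.N784.AD.finite_real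
  have hN0 : ((Algebra.norm ℤ z0 : ℤ) : ℝ) ≠ 0 := by
    have : Algebra.norm ℤ z0 ≠ 0 := by
      rw [Ne, Algebra.norm_eq_zero_iff]
      exact hz0
    exact_mod_cast this
  obtain ⟨wr, hwr⟩ := exists_mul_one zr hzr
  have hprod : ∀ σ : K →+* ℝ, 0 < ev σ zr * σ (z0 : K) := by
    intro σ
    have h1 : ev σ zr ≠ 0 := by
      intro h2
      have h3 := congrArg (ev σ) hwr
      rw [map_mul, h2, zero_mul, map_one] at h3
      exact zero_ne_one h3
    have h2 : σ (z0 : K) ≠ 0 := by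
      rw [Ne, map_eq_zero]
      exact fun h => hz0 (NumberField.RingOfIntegers.coe_eq_zero_iff.mp h)
    by_cases h3 : 0 < σ (z0 : K)
    · exact mul_pos ((h σ).1 h3) h3
    · have h4 : σ (z0 : K) < 0 := lt_of_le_of_ne (not_lt.1 h3) h2
      have h5 : ¬ 0 < ev σ zr := fun h6 => h3 ((h σ).2 h6)
      exact mul_pos_of_neg_of_neg (lt_of_le_of_ne (not_lt.1 h5) h1) h4
  by_contra hcon
  rw [not_lt] at hcon
  have hneg : Algebra.norm ℝ zr * ((Algebra.norm ℤ z0 : ℤ) : ℝ) < 0 := lt_of_le_of_ne hcon (mul_ne_zero hzr hN0)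
  obtain ⟨x, hx⟩ : ∃ x : Ix K → ℝ, x = fun j => (Algebra.TensorProduct.basis ℝ (integralBasis K)).repr zr j := ⟨_, rfl⟩
  obtain ⟨Lf, hLf⟩ : ∃ Lf : (K →+* ℝ) → (Ix K → ℝ) → ℝ, Lf = fun σ x => ∑ j, x j * σ (integralBasis K j) := ⟨_, rfl⟩
  have hcont : Continuous (P K ℝ) := by
    unfold P
    fun_prop
  have hLc : ∀ σ, Continuous (Lf σ) := by
    intro σ
    rw [hLf]
    fun_prop
  obtain ⟨W, hW⟩ : ∃ W : Set (Ix K → ℝ), W = {x | P K ℝ x * ((Algebra.norm ℤ z0 : ℤ) : ℝ) < 0} ∩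
    ⋂ σ : K →+* ℝ, {x | 0 < Lf σ x * σ (z0 : K)} := ⟨_, rfl⟩
  have hWo : IsOpen W := by
    rw [hW]
    apply IsOpen.inter
    · exact isOpen_lt (hcont.mul continuous_const) continuous_const
    · exact isOpen_iInter_of_finite fun σ => isOpen_lt continuous_const ((hLc σ).mul continuous_const)
  have hxW : x ∈ W := by
    rw [hW]
    refine ⟨?_, Set.mem_iInter.2 fun σ => ?_⟩
    · change P K ℝ x * _ < 0
      rw [hx, ← norm_eq_P]
      exact hneg
    · change 0 < Lf σ x * _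
      rw [hLf, hx]
      have := hprod σ
      rw [ev_coord] at this
      exact this
  have hdense : DenseRange (fun q : Ix K → ℚ => fun j => (q j : ℝ)) :=
    DenseRange.piMap (fun _ => Rat.denseRange_cast)
  obtain ⟨q, hq⟩ := hdense.exists_mem_open hWo ⟨x, hxW⟩
  rw [hW] at hq
  obtain ⟨hq1, hq2⟩ := hq
  have hq1' : P K ℝ (fun j => (q j : ℝ)) * ((Algebra.norm ℤ z0 : ℤ) : ℝ) < 0 := hq1
  rw [P_rat] at hq1'
  obtain ⟨y, hy⟩ : ∃ y : K, y = ∑ j, q j • integralBasis K j := ⟨_, rfl⟩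
  rw [← hy] at hq1'
  have hσy : ∀ σ : K →+* ℝ, σ y = Lf σ (fun j => (q j : ℝ)) := by
    intro σ
    rw [hy, hLf, map_sum]
    refine Finset.sum_congr rfl fun j _ => ?_
    rw [Algebra.smul_def, map_mul]
    simp
  have h1 : Algebra.norm ℚ y * ((Algebra.norm ℤ z0 : ℤ) : ℚ) < 0 := by
    have : ((Algebra.norm ℚ y * ((Algebra.norm ℤ z0 : ℤ) : ℚ) : ℚ) : ℝ) < 0 := by
      push_cast
      exact hq1'
    exact_mod_cast this
  have hy0 : y ≠ 0 := by
    rintro rfl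
    rw [Algebra.norm_zero, zero_mul] at h1
    exact lt_irrefl _ h1
  have h2 := norm_sign_rat y z0 hy0 hz0 (fun σ => by
    rw [hσy]
    exact Set.mem_iInter.1 hq2 σ)
  exact absurd h2 (not_lt.2 h1.le)

end

end Pool.Agent.U637.NR
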