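import Pool.Agent.U637.NR.G4
import Pool.Agent.U637.OP.P2

/-! From local points to rational points. -/

set_option autoImplicit false
set_option linter.unusedSectionVars false

namespace Pool.Agent.U637.NR
open NumberField Finset Polynomial Module TensorProduct Filter Topology
open Pool.Agent.N784.AD (SameSign)
open Pool.Agent.Y773 (TPos)
open Pool.Agent.R479.NF (Ix Mt P P_int P_smul norm_eq_P leftMul_one_tmul)
open Pool.Agent.TH204.HP (crt GG GG_aeval GG_natDegree GG_lead prod_split mem_of_dvd_prod gcd_facts lip)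

/-- scaling the constant terms -/
lemma AA.scale {d B : ℕ} (a : ℕ) (ha : 0 < a) {P : ℕ → ℤ → Prop} (h : AA d (B * a) P) :
    AA d B (fun X k => P X (a * k)) := by
  classical
  intro ε hε
  obtain ⟨X0, h0⟩ := h ε hε
  refine ⟨X0, fun X hX => ?_⟩
  obtain ⟨Bad, h1, h2⟩ := h0 X hX
  have haz : (0 : ℤ) < a := by exact_mod_cast ha
  refine ⟨(Icc (-((B * X ^ d : ℕ) : ℤ)) ((B * X ^ d : ℕ) : ℤ)).filter (fun k => (a : ℤ) * k ∈ Bad), ?_, fun k hk hkB => ?_⟩
  · refine le_trans ?_ h1
    have h3 : #((Icc (-((B * X ^ d : ℕ) : ℤ)) ((B * X ^ d : ℕ) : ℤ)).filter (fun k => (a : ℤ) * k ∈ Bad)) ≤ #Bad := by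
      apply card_le_card_of_injOn (fun k => (a : ℤ) * k)
      · intro k hk
        rw [mem_coe, mem_filter] at hk
        exact hk.2
      · intro k _ k' _ hkk
        exact mul_left_cancel₀ haz.ne' hkk
    exact_mod_cast h3
  · refine h2 _ ?_ ?_
    · rw [abs_mul, abs_of_pos haz]
      calc (a : ℤ) * |k| ≤ a * ((B * X ^ d : ℕ) : ℤ) := mul_le_mul_of_nonneg_left hk haz.le
        _ = ((B * a * X ^ d : ℕ) : ℤ) := by push_cast; ring
    · intro h3
      apply hkB
      rw [mem_filter, mem_Icc]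
      exact ⟨abs_le.1 hk, h3⟩

/-- polynomials of even degree are bounded on one side -/
lemma even_bound (f : ℤ[X]) (hd : 1 ≤ f.natDegree) (he : Even f.natDegree) : ∃ C : ℝ, 0 ≤ C ∧ ∀ t : ℝ,
    (0 < f.leadingCoeff → -C ≤ aeval t f) ∧ (f.leadingCoeff < 0 → aeval t f ≤ C) := by
  -- positive leading coefficient
  have key : ∀ g : ℤ[X], 1 ≤ g.natDegree → Even g.natDegree → 0 < g.leadingCoeff → ∃ C : ℝ, 0 ≤ C ∧ ∀ t : ℝ, -C ≤ aeval t g := by
    intro g hg hge hgl
    obtain ⟨G, hG⟩ : ∃ G : ℝ[X], G = g.map (Int.castRingHom ℝ) := ⟨_, rfl⟩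
    have hinj : Function.Injective (Int.castRingHom ℝ) := Int.cast_injective
    have hGd : G.natDegree = g.natDegree := by rw [hG]; exact natDegree_map_eq_of_injective hinj g
    have hGl : G.leadingCoeff = g.leadingCoeff := by rw [hG, leadingCoeff_map_of_injective hinj]; rfl
    have hev : ∀ t : ℝ, aeval t g = G.eval t := by
      intro t
      rw [hG, eval_map, aeval_def]
      rfl
    have hdeg : 0 < G.degree := by rw [← natDegree_pos_iff_degree_pos, hGd]; omega
    have h1 : Tendsto (fun t : ℝ => G.eval t) atTop atTop :=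
      G.tendsto_atTop_of_leadingCoeff_nonneg hdeg (by rw [hGl]; exact_mod_cast hgl.le)
    have hX : (-X : ℝ[X]).natDegree = 1 := by rw [natDegree_neg, natDegree_X]
    have hG2 : (G.comp (-X)).leadingCoeff = G.leadingCoeff := by
      rw [leadingCoeff_comp (by rw [hX]; norm_num), leadingCoeff_neg, leadingCoeff_X, hGd, hge.neg_one_pow, mul_one]
    have hG3 : (G.comp (-X)).natDegree = G.natDegree := by rw [natDegree_comp, hX, mul_one]
    have h2 : Tendsto (fun t : ℝ => (G.comp (-X)).eval t) atTop atTop :=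
      (G.comp (-X)).tendsto_atTop_of_leadingCoeff_nonneg (by rw [← natDegree_pos_iff_degree_pos, hG3, hGd]; omega)
        (by rw [hG2, hGl]; exact_mod_cast hgl.le)
    have h3 : Tendsto (fun t : ℝ => G.eval t) atBot atTop := by
      have h4 := h2.comp tendsto_neg_atBot_atTop
      refine h4.congr fun t => ?_
      simp [Function.comp, eval_comp]
    have h4 : Tendsto (fun t : ℝ => G.eval t) (cocompact ℝ) atTop := by
      rw [cocompact_eq_atBot_atTop]
      exact h3.sup h1
    obtain ⟨t0, ht0⟩ := G.continuous.exists_forall_le h4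
    refine ⟨|G.eval t0|, abs_nonneg _, fun t => ?_⟩
    rw [hev]
    exact (neg_abs_le _).trans (ht0 t)
  rcases lt_trichotomy f.leadingCoeff 0 with h | h | h
  · obtain ⟨C, hC0, hC⟩ := key (-f) (by rwa [natDegree_neg]) (by rwa [natDegree_neg]) (by rw [leadingCoeff_neg]; omega)
    refine ⟨C, hC0, fun t => ⟨fun h1 => absurd h1 (not_lt.2 h.le), fun _ => ?_⟩⟩
    have := hC t
    rw [map_neg] at this
    linarith
  · exfalso
    rw [leadingCoeff_eq_zero] at h
    rw [h] at hd
    simp at hd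
  · obtain ⟨C, hC0, hC⟩ := key f hd he h
    exact ⟨C, hC0, fun t => ⟨fun _ => hC t, fun h1 => absurd h1 (not_lt.2 h.le)⟩⟩

/-- the condition at the real place -/
lemma real_cond (f : ℤ[X]) (hd : 1 ≤ f.natDegree) : ∃ C : ℝ, 0 ≤ C ∧ ∀ (μ c k : ℤ) (tr : ℝ), C < |(k : ℝ)| →
    0 < (μ : ℝ) * (c * (aeval tr f + k)) →
    0 < μ * c * f.leadingCoeff ∨ Odd f.natDegree ∨ 0 < μ * c * k := by
  rcases Nat.even_or_odd f.natDegree with he | ho
  · obtain ⟨C, hC0, hC⟩ := even_bound f hd he
    refine ⟨C, hC0, fun μ c k tr hk hpos => ?_⟩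
    by_cases h1 : 0 < μ * c * f.leadingCoeff
    · exact Or.inl h1
    right; right
    have hμc : μ * c ≠ 0 := by
      intro h2
      have h3 : (μ : ℝ) * c = 0 := by exact_mod_cast h2
      rw [← mul_assoc, h3, zero_mul] at hpos
      exact lt_irrefl _ hpos
    have hl : f.leadingCoeff ≠ 0 := by
      rw [Ne, leadingCoeff_eq_zero]
      rintro rfl
      simp at hd
    have h2 : μ * c * f.leadingCoeff < 0 := lt_of_le_of_ne (not_lt.1 h1) (mul_ne_zero hμc hl)
    rw [← mul_assoc] at hpos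
    rcases lt_or_gt_of_ne hμc with h3 | h3
    · have hl1 : 0 < f.leadingCoeff := by
        by_contra h4
        rw [not_lt] at h4
        have := mul_nonneg_of_nonpos_of_nonpos h3.le h4
        omega
      have h3r : (μ : ℝ) * c < 0 := by exact_mod_cast h3
      have h4 : aeval tr f + (k : ℝ) < 0 := by
        by_contra h5
        rw [not_lt] at h5
        have := mul_nonpos_of_nonpos_of_nonneg h3r.le h5
        linarith
      have h5 := (hC tr).1 hl1
      have h6 : (k : ℝ) < C := by linarith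
      have h7 : k < 0 := by
        by_contra h8
        rw [not_lt] at h8
        have h9 : (0 : ℝ) ≤ k := by exact_mod_cast h8
        rw [abs_of_nonneg h9] at hk
        linarith
      exact mul_pos_of_neg_of_neg h3 h7
    · have hl1 : f.leadingCoeff < 0 := by
        by_contra h4
        rw [not_lt] at h4
        have := mul_nonneg h3.le h4
        omega
      have h3r : 0 < (μ : ℝ) * c := by exact_mod_cast h3
      have h4 : 0 < aeval tr f + (k : ℝ) := (pos_iff_pos_of_mul_pos hpos).1 h3r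
      have h5 := (hC tr).2 hl1
      have h6 : -C < (k : ℝ) := by linarith
      have h7 : 0 < k := by
        by_contra h8
        rw [not_lt] at h8
        have h9 : (k : ℝ) ≤ 0 := by exact_mod_cast h8
        rw [abs_of_nonpos h9] at hk
        linarith
      exact mul_pos h3 h7
  · exact ⟨0, le_rfl, fun _ _ _ _ _ _ => Or.inr (Or.inl ho)⟩

/-- divisibility by a product of powers of primes -/
lemma prod_dvd (T : Finset Nat.Primes) (Q : ℕ) (a : ℤ) (h : ∀ p ∈ T, (((p : ℕ) ^ Q : ℕ) : ℤ) ∣ a) :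
    ((∏ p ∈ T, (p : ℕ) ^ Q : ℕ) : ℤ) ∣ a := by
  classical
  have h1 : (∏ p ∈ T, (((p : ℕ) ^ Q : ℕ) : ℤ)) ∣ a := by
    apply Finset.prod_dvd_of_coprime
    · intro p _ q _ hpq
      have h2 : Nat.Coprime ((p : ℕ) ^ Q) ((q : ℕ) ^ Q) :=
        Nat.Coprime.pow _ _ ((Nat.coprime_primes p.2 q.2).2 (fun h => hpq (Subtype.ext h)))
      exact Nat.isCoprime_iff_coprime.2 h2
    · exact h
  rwa [Nat.cast_prod]

lemma nat_dvd_prod (T : Finset Nat.Primes) (R ν : ℕ) (hν : 0 < ν) (hνR : ν ≤ R)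
    (hT : ∀ p : Nat.Primes, (p : ℕ) ∣ ν → p ∈ T) : ν ∣ ∏ p ∈ T, (p : ℕ) ^ R := by
  rw [Nat.dvd_iff_prime_pow_dvd_dvd]
  intro p k hp hpk
  rcases Nat.eq_zero_or_pos k with rfl | hk
  · simp
  · have h1 : (⟨p, hp⟩ : Nat.Primes) ∈ T := hT ⟨p, hp⟩ ((dvd_pow_self p hk.ne').trans hpk)
    have h2 : k ≤ R := by
      have h3 := Nat.le_of_dvd hν hpk
      have h4 := Nat.lt_pow_self hp.one_lt (n := k)
      omega
    exact (pow_dvd_pow p h2).trans (dvd_prod_of_mem (fun p : Nat.Primes => (p : ℕ) ^ R) h1)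

end Pool.Agent.U637.NR
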