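import Pool.Agent.U637.NR.G5

/-! Weak approximation for `N(z) = c (f(t) + k)`, for almost all `k`. -/

set_option autoImplicit false
set_option linter.unusedSectionVars false

namespace Pool.Agent.U637.NR
open NumberField Finset Polynomial Module TensorProduct Filter Topology
open Pool.Agent.N784.AD (SameSign)
open Pool.Agent.Y773 (TPos)
open Pool.Agent.R479.NF (Ix Mt P P_int P_smul norm_eq_P leftMul_one_tmul)
open Pool.Agent.TH204.HP (crt GG GG_aeval GG_natDegree GG_lead prod_split mem_of_dvd_prod gcd_facts lip one_lt_p p_pos)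

lemma norm_prodT (T : Finset Nat.Primes) (E : ℕ) (p : Nat.Primes) (hp : p ∈ T) :
    ‖((∏ q ∈ T, (q : ℕ) ^ E : ℕ) : ℚ_[(p : ℕ)])‖ = (((p : ℕ) : ℝ) ^ E)⁻¹ := by
  obtain ⟨m', h1, h2⟩ := prod_split T E p hp
  rw [h1]
  push_cast
  rw [norm_mul, norm_pow, Padic.norm_p, inv_pow]
  have h3 : ‖((m' : ℕ) : ℚ_[(p : ℕ)])‖ = 1 := by
    rw [Padic.norm_natCast_eq_one_iff]
    exact h2
  rw [h3, mul_one]

lemma norm_int_ge {p : ℕ} [Fact p.Prime] (c : ℤ) (hc : c ≠ 0) : ((p : ℝ) ^ c.natAbs)⁻¹ ≤ ‖(c : ℚ_[p])‖ := by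
  by_contra h
  rw [not_le] at h
  have h1 := near_dvd h.le
  have h2 := Nat.le_of_dvd (Int.natAbs_pos.2 hc) (Int.natCast_dvd.1 h1)
  have h3 := Nat.lt_pow_self (Fact.out : p.Prime).one_lt (n := c.natAbs)
  omega

section
variable {K : Type} [Field K] [NumberField K]

/-- the point `(t, z)` with coordinates in `F` lies on `N(z) = c (f(t) + k) ≠ 0` -/
def OnV (K : Type) [Field K] [NumberField K] (f : ℤ[X]) (c k : ℤ) {F : Type} [Field F] [Algebra ℚ F] (t : F)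
    (z : F ⊗[ℚ] K) : Prop :=
  aeval t f + (k : F) ≠ 0 ∧ Algebra.norm F z = (c : F) * (aeval t f + (k : F))

/-- the coordinates of an element of `F ⊗ K`, with respect to an integral basis of `K` -/
noncomputable def co {F : Type} [Field F] [Algebra ℚ F] (z : F ⊗[ℚ] K) (j : Ix K) : F :=
  (Algebra.TensorProduct.basis F (integralBasis K)).repr z j

/-- a `p`-adic point of level `N` -/
def Lv (K : Type) [Field K] [NumberField K] (f : ℤ[X]) (c : ℤ) (N : ℕ) (k : ℤ) (p : ℕ) [Fact p.Prime] (t : ℚ_[p])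
    (z : ℚ_[p] ⊗[ℚ] K) : Prop :=
  OnV K f c k t z ∧ ‖t‖ ≤ (p : ℝ) ^ N ∧ (∀ j, ‖co z j‖ ≤ (p : ℝ) ^ N) ∧ ((p : ℝ) ^ N)⁻¹ ≤ ‖aeval t f + (k : ℚ_[p])‖

lemma norm_repr (p : ℕ) [Fact p.Prime] (z0 : 𝓞 K) :
    P K ℚ_[p] (fun j => (((RingOfIntegers.basis K).repr z0 j : ℤ) : ℚ_[p])) = ((Algebra.norm ℤ z0 : ℤ) : ℚ_[p]) := by
  rw [P_int, (RingOfIntegers.basis K).sum_repr z0, ← Algebra.coe_norm_int]
  simp

lemma repr_mul_nat (M : ℕ) (w : 𝓞 K) (j : Ix K) :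
    (RingOfIntegers.basis K).repr ((M : 𝓞 K) * w) j = (M : ℤ) * (RingOfIntegers.basis K).repr w j := by
  have h : (M : 𝓞 K) * w = (M : ℤ) • w := by rw [zsmul_eq_mul]; push_cast; ring
  rw [h, map_zsmul]
  simp

/-- the construction of an integer near to the given points -/
lemma exists_z0 (T : Finset Nat.Primes) (Q a : ℕ) (z : (p : Nat.Primes) → ℚ_[(p : ℕ)] ⊗[ℚ] K)
    (hz : ∀ p ∈ T, ∀ j, ‖(a : ℚ_[(p : ℕ)]) * co (z p) j‖ ≤ 1) (S : (K →+* ℝ) → Prop) :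
    ∃ z0 : 𝓞 K, z0 ≠ 0 ∧ (∀ σ : K →+* ℝ, (0 < σ (z0 : K) ↔ S σ)) ∧
      (∀ p ∈ T, ∀ j, ‖(((RingOfIntegers.basis K).repr z0 j : ℤ) : ℚ_[(p : ℕ)]) - (a : ℚ_[(p : ℕ)]) * co (z p) j‖ ≤ (((p : ℕ) : ℝ) ^ Q)⁻¹) ∧
      ∀ p ∈ T, ‖((Algebra.norm ℤ z0 : ℤ) : ℚ_[(p : ℕ)]) - (a : ℚ_[(p : ℕ)]) ^ finrank ℚ K * Algebra.norm ℚ_[(p : ℕ)] (z p)‖ ≤
        (((p : ℕ) : ℝ) ^ Q)⁻¹ := by
  classical
  have h1 : ∀ j : Ix K, ∃ u : ℤ, ∀ p ∈ T, ‖(u : ℚ_[(p : ℕ)]) - (a : ℚ_[(p : ℕ)]) * co (z p) j‖ ≤ (((p : ℕ) : ℝ) ^ Q)⁻¹ :=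
    fun j => near_int T Q (fun p => (a : ℚ_[(p : ℕ)]) * co (z p) j) (fun p hp => hz p hp j)
  choose u hu using h1
  obtain ⟨M, hM⟩ : ∃ M : ℕ, M = ∏ p ∈ T, (p : ℕ) ^ Q := ⟨_, rfl⟩
  have hM0 : 0 < M := by rw [hM]; exact prod_pos fun p _ => pow_pos p.2.pos _
  obtain ⟨z0, hz0, hz1, hz2⟩ := exists_signs M hM0 S (∑ j, u j • RingOfIntegers.basis K j)
  obtain ⟨w, hw⟩ := Ideal.mem_span_singleton'.1 hz1
  have hrep : ∀ j, (RingOfIntegers.basis K).repr z0 j = u j + M * (RingOfIntegers.basis K).repr w j := by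
    intro j
    have h2 : z0 = (∑ j, u j • RingOfIntegers.basis K j) + (M : 𝓞 K) * w := by linear_combination -hw
    conv_lhs => rw [h2]
    rw [map_add, Finsupp.add_apply, repr_mul_nat, Basis.repr_sum_self]
  have hnear : ∀ p ∈ T, ∀ j, ‖(((RingOfIntegers.basis K).repr z0 j : ℤ) : ℚ_[(p : ℕ)]) - (a : ℚ_[(p : ℕ)]) * co (z p) j‖ ≤
      (((p : ℕ) : ℝ) ^ Q)⁻¹ := by
    intro p hp j
    rw [hrep]
    push_cast
    have e : ((u j : ℤ) : ℚ_[(p : ℕ)]) + (M : ℚ_[(p : ℕ)]) * (((RingOfIntegers.basis K).repr w j : ℤ) : ℚ_[(p : ℕ)]) -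
        (a : ℚ_[(p : ℕ)]) * co (z p) j = ((M : ℚ_[(p : ℕ)]) * (((RingOfIntegers.basis K).repr w j : ℤ) : ℚ_[(p : ℕ)])) +
          (((u j : ℤ) : ℚ_[(p : ℕ)]) - (a : ℚ_[(p : ℕ)]) * co (z p) j) := by ring
    rw [e]
    refine (Padic.nonarchimedean _ _).trans (max_le ?_ (hu j p hp))
    rw [norm_mul, hM, norm_prodT T Q p hp]
    exact mul_le_of_le_one_right (by positivity) (Padic.norm_int_le_one _)
  refine ⟨z0, hz0, hz2, hnear, fun p hp => ?_⟩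
  rw [← norm_repr, norm_eq_P, ← P_smul]
  exact P_lip (p : ℕ) Q _ _ (fun j => Padic.norm_int_le_one _) (fun j => hz p hp j) (fun j => hnear p hp j)

end

end Pool.Agent.U637.NR
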