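import Pool.Agent.U637.NR.G6

/-! Weak approximation for `N(z) = c (f(t) + k)`, for almost all `k`: the main step. -/

set_option autoImplicit false
set_option linter.unusedSectionVars false

namespace Pool.Agent.U637.NR
open NumberField Finset Polynomial Module TensorProduct Filter Topology
open Pool.Agent.N784.AD (SameSign)
open Pool.Agent.Y773 (TPos)
open Pool.Agent.R479.NF (Ix Mt P P_int P_smul norm_eq_P leftMul_one_tmul)
open Pool.Agent.TH204.HP (crt GG GG_aeval GG_natDegree GG_lead prod_split mem_of_dvd_prod gcd_facts lip one_lt_p p_pos)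

variable {K : Type} [Field K] [NumberField K]

/-- the primes which must be in the set `T` -/
def BadP (K : Type) [Field K] [NumberField K] (f : ℤ[X]) (c : ℤ) (T : Finset Nat.Primes) : Prop :=
  ∀ p : Nat.Primes, ((p : ℕ) ≤ f.natDegree ∨ (p : ℕ) ∣ finrank ℚ K ∨ ((p : ℕ) : ℤ) ∣ discr K ∨
    ((p : ℕ) : ℤ) ∣ c ∨ ((p : ℕ) : ℤ) ∣ f.leadingCoeff) → p ∈ T

/-- the rational point near to the local points -/
def Gp (K : Type) [Field K] [NumberField K] (f : ℤ[X]) (c : ℤ) (T : Finset Nat.Primes) (N : ℕ) (k : ℤ)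
    (t : (p : Nat.Primes) → ℚ_[(p : ℕ)]) (z : (p : Nat.Primes) → ℚ_[(p : ℕ)] ⊗[ℚ] K) (zr : ℝ ⊗[ℚ] K) : Prop :=
  ∃ (q : ℚ) (y : K), aeval q f + (k : ℚ) ≠ 0 ∧ Algebra.norm ℚ y = (c : ℚ) * (aeval q f + (k : ℚ)) ∧
    (∀ σ : K →+* ℝ, 0 < σ y ↔ 0 < ev σ zr) ∧
    ∀ p ∈ T, ‖(q : ℚ_[(p : ℕ)]) - t p‖ ≤ (((p : ℕ) : ℝ) ^ N)⁻¹ ∧
      ∀ j, ‖(((integralBasis K).repr y j : ℚ) : ℚ_[(p : ℕ)]) - co (z p) j‖ ≤ (((p : ℕ) : ℝ) ^ N)⁻¹

theorem wa_T (f : ℤ[X]) (n : ℕ) (hn1 : 1 ≤ n) (hn : f.natDegree = n + 1) (c : ℤ) (hc : c ≠ 0) (T : Finset Nat.Primes)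
    (hT : BadP K f c T) (N B : ℕ) :
    AA (n + 1) B (fun _ k => ∀ (t : (p : Nat.Primes) → ℚ_[(p : ℕ)]) (z : (p : Nat.Primes) → ℚ_[(p : ℕ)] ⊗[ℚ] K)
      (tr : ℝ) (zr : ℝ ⊗[ℚ] K), (∀ p ∈ T, Lv K f c N k (p : ℕ) (t p) (z p)) → OnV K f c k tr zr →
      Gp K f c T N k t z zr) := by
  classical
  obtain ⟨ν, hν⟩ : ∃ ν : ℕ, ν = finrank ℚ K := ⟨_, rfl⟩
  have hν0 : 0 < ν := by rw [hν]; exact finrank_pos
  obtain ⟨D0, hD0⟩ : ∃ D0 : ℕ, D0 = ∏ p ∈ T, (p : ℕ) ^ N := ⟨_, rfl⟩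
  have hD00 : 0 < D0 := by rw [hD0]; exact prod_pos fun p _ => pow_pos p.2.pos _
  obtain ⟨d2, hd2⟩ : ∃ d2 : ℕ, d2 = 2 * (n + 1) := ⟨_, rfl⟩
  obtain ⟨a, ha⟩ : ∃ a : ℕ, a = D0 ^ d2 := ⟨_, rfl⟩
  have ha0 : 0 < a := by rw [ha]; positivity
  have haz : (0 : ℤ) < a := by exact_mod_cast ha0
  obtain ⟨e, he⟩ : ∃ e : ℤ, e = c * (a : ℤ) ^ (ν - 1) := ⟨_, rfl⟩
  have he0 : e ≠ 0 := by rw [he]; exact mul_ne_zero hc (by positivity)
  have hea : e * a = c * (a : ℤ) ^ ν := by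
    rw [he, mul_assoc, ← pow_succ]
    congr 2
    omega
  obtain ⟨R, hR⟩ : ∃ R : ℕ, R = c.natAbs + ν + N * d2 * ν + 2 * N + N * d2 + 1 := ⟨_, rfl⟩
  obtain ⟨m, hm⟩ : ∃ m : ℕ, m = ∏ p ∈ T, (p : ℕ) ^ R := ⟨_, rfl⟩
  have hm0 : 0 < m := by rw [hm]; exact prod_pos fun p _ => pow_pos p.2.pos _
  have hTm : ∀ p : Nat.Primes, p ∈ T → (p : ℕ) ∣ m := by
    intro p hp
    rw [hm]
    exact (dvd_pow_self (p : ℕ) (by omega)).trans (dvd_prod_of_mem (fun p : Nat.Primes => (p : ℕ) ^ R) hp)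
  have hm2 : 2 ≤ m := by
    have h1 : (⟨2, Nat.prime_two⟩ : Nat.Primes) ∈ T := hT _ (Or.inl (by rw [hn]; change 2 ≤ n + 1; omega))
    exact Nat.le_of_dvd hm0 (hTm _ h1)
  have hnm : finrank ℚ K ∣ m := by
    rw [hm, ← hν]
    exact nat_dvd_prod T R ν hν0 (by omega) (fun p hp => hT p (Or.inr (Or.inl (by rw [← hν]; exact hp))))
  have hdm : ∀ p : ℕ, p.Prime → (p : ℤ) ∣ discr K → p ∣ m := fun p hp h =>
    hTm ⟨p, hp⟩ (hT ⟨p, hp⟩ (Or.inr (Or.inr (Or.inl h))))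
  have haT : ∀ p : ℕ, p.Prime → (p : ℤ) ∣ (a : ℤ) → p ∣ m := by
    intro p hp h
    have h1 : p ∣ D0 := by
      rw [ha] at h
      exact hp.dvd_of_dvd_pow (by exact_mod_cast h)
    rw [hD0] at h1
    exact hTm ⟨p, hp⟩ (mem_of_dvd_prod T N ⟨p, hp⟩ h1)
  obtain ⟨G, hG⟩ : ∃ G : ℤ[X], G = GG f D0 := ⟨_, rfl⟩
  have hGd : G.natDegree = n + 1 := by rw [hG, GG_natDegree f D0 hD00.ne', hn]
  have hGl : G.leadingCoeff = (D0 : ℤ) ^ (n + 1) * f.leadingCoeff := by rw [hG, GG_lead, hn]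
  have hGa : ∀ {F : Type} [Field F] [CharZero F] (x : F), aeval ((D0 : F) * x) G = (a : F) * aeval x f := by
    intro F _ _ x
    rw [hG, GG_aeval f D0 hD00.ne', hn, ha, hd2]
    push_cast
    rfl
  have hbig : ∀ p : ℕ, p.Prime → (p ≤ n + 1 ∨ (p : ℤ) ∣ e ∨ (p : ℤ) ∣ G.leadingCoeff) → p ∣ m := by
    intro p hp h
    have hpp : Prime (p : ℤ) := Nat.prime_iff_prime_int.1 hp
    rcases h with h | h | h
    · exact hTm ⟨p, hp⟩ (hT ⟨p, hp⟩ (Or.inl (by rw [hn]; exact h)))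
    · rw [he] at h
      rcases hpp.dvd_or_dvd h with h1 | h1
      · exact hTm ⟨p, hp⟩ (hT ⟨p, hp⟩ (Or.inr (Or.inr (Or.inr (Or.inl h1)))))
      · exact haT p hp (hpp.dvd_of_dvd_pow h1)
    · rw [hGl] at h
      rcases hpp.dvd_or_dvd h with h1 | h1
      · have h2 := hpp.dvd_of_dvd_pow h1
        apply haT p hp
        rw [ha]
        push_cast
        exact dvd_pow h2 (by omega)
      · exact hTm ⟨p, hp⟩ (hT ⟨p, hp⟩ (Or.inr (Or.inr (Or.inr (Or.inr h1)))))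
  have hcore := AA.scale a ha0 (core (K := K) hm2 hnm hdm G n hn1 hGd e he0 hbig (B * a) 1)
  obtain ⟨C, hC0, hC⟩ := real_cond f (by omega)
  apply AA.large
  intro κ hκ
  obtain ⟨X1, hX1⟩ := exists_nat_gt (C / κ)
  refine hcore.mono' (X1 + 1) fun X k hX hkX hk hκk t z tr zr hloc hreal => ?_
  -- `k` is not small
  have hCk : C < |(k : ℝ)| := by
    refine lt_of_lt_of_le ?_ hκk
    have h1 : (X1 : ℝ) ≤ X := by exact_mod_cast (by omega : X1 ≤ X)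
    have h2 : (1 : ℝ) ≤ X := by exact_mod_cast (by omega : 1 ≤ X)
    have h3 : (X : ℝ) ≤ (X : ℝ) ^ (n + 1) := by
      calc (X : ℝ) = (X : ℝ) ^ 1 := (pow_one _).symm
        _ ≤ _ := pow_le_pow_right₀ h2 (by omega)
    rw [div_lt_iff₀ hκ] at hX1
    have h4 : (X1 : ℝ) * κ ≤ (X : ℝ) ^ (n + 1) * κ := mul_le_mul_of_nonneg_right (h1.trans h3) hκ.le
    linarith
  obtain ⟨Q, hQ⟩ : ∃ Q : ℕ, Q = 4 * R := ⟨_, rfl⟩
  have hone : ∀ p : Nat.Primes, (1 : ℝ) < ((p : ℕ) : ℝ) := fun p => by exact_mod_cast p.2.one_lt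
  have hpos : ∀ p : Nat.Primes, (0 : ℝ) < ((p : ℕ) : ℝ) := fun p => by exact_mod_cast p.2.pos
  have hnD : ∀ p ∈ T, ‖(D0 : ℚ_[(p : ℕ)])‖ = (((p : ℕ) : ℝ) ^ N)⁻¹ := by
    intro p hp
    rw [hD0]
    exact norm_prodT T N p hp
  have hna : ∀ p ∈ T, ‖(a : ℚ_[(p : ℕ)])‖ = (((p : ℕ) : ℝ) ^ (N * d2))⁻¹ := by
    intro p hp
    rw [ha]
    push_cast
    rw [norm_pow, hnD p hp, inv_pow, ← pow_mul]
  have hmul1 : ∀ (p : Nat.Primes) (E F : ℕ), E ≤ F → (((p : ℕ) : ℝ) ^ F)⁻¹ * ((p : ℕ) : ℝ) ^ E ≤ 1 := by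
    intro p E F hEF
    have hp0 := hpos p
    rw [inv_mul_le_iff₀ (by positivity), mul_one]
    exact pow_le_pow_right₀ (hone p).le hEF
  have hpw : ∀ (p : Nat.Primes) (E : ℕ), E + N ≤ R → ((p : ℕ) : ℝ) ^ E * (((p : ℕ) : ℝ) ^ R)⁻¹ ≤ (((p : ℕ) : ℝ) ^ N)⁻¹ := by
    intro p E hE
    have hp0 := hpos p
    rw [← div_eq_mul_inv, div_le_iff₀ (by positivity), ← div_eq_inv_mul, le_div_iff₀ (by positivity), ← pow_add]
    exact pow_le_pow_right₀ (hone p).le hE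
  -- the integer `t0`
  have hDt : ∀ p ∈ T, ‖(D0 : ℚ_[(p : ℕ)]) * t p‖ ≤ 1 := by
    intro p hp
    rw [norm_mul, hnD p hp]
    have hp0 := hpos p
    exact (mul_le_mul_of_nonneg_left (hloc p hp).2.1 (by positivity)).trans (hmul1 p N N le_rfl)
  obtain ⟨t0, ht0⟩ := near_int T Q (fun p => (D0 : ℚ_[(p : ℕ)]) * t p) hDt
  -- the integer `z0`
  have haz1 : ∀ p ∈ T, ∀ j, ‖(a : ℚ_[(p : ℕ)]) * co (z p) j‖ ≤ 1 := by
    intro p hp j
    rw [norm_mul, hna p hp]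
    have hp0 := hpos p
    exact (mul_le_mul_of_nonneg_left ((hloc p hp).2.2.1 j) (by positivity)).trans
      (hmul1 p N (N * d2) (Nat.le_mul_of_pos_right N (by omega)))
  obtain ⟨z0, hz00, hz01, hz02, hz03⟩ := exists_z0 T Q a z haz1 (fun σ => 0 < ev σ zr)
  obtain ⟨v, hv⟩ : ∃ v : ℤ, v = Algebra.norm ℤ z0 := ⟨_, rfl⟩
  rw [← hv] at hz03
  have hv0 : v ≠ 0 := by
    rw [hv, Ne, Algebra.norm_eq_zero_iff]
    exact hz00
  -- the norm at the given points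
  have hval : ∀ p ∈ T, (a : ℚ_[(p : ℕ)]) ^ finrank ℚ K * Algebra.norm ℚ_[(p : ℕ)] (z p) =
      (e : ℚ_[(p : ℕ)]) * (aeval ((D0 : ℚ_[(p : ℕ)]) * t p) G + ((a * k : ℤ) : ℚ_[(p : ℕ)])) := by
    intro p hp
    rw [(hloc p hp).1.2, hGa, ← hν]
    have h1 : (e : ℚ_[(p : ℕ)]) * (a : ℚ_[(p : ℕ)]) = (c : ℚ_[(p : ℕ)]) * (a : ℚ_[(p : ℕ)]) ^ ν := by exact_mod_cast congrArg (Int.cast : ℤ → ℚ_[(p : ℕ)]) hea
    push_cast
    linear_combination (-(aeval (t p) f + (k : ℚ_[(p : ℕ)]))) * h1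
  have hvbig : ∀ p ∈ T, (((p : ℕ) : ℝ) ^ R)⁻¹ < ‖(a : ℚ_[(p : ℕ)]) ^ finrank ℚ K * Algebra.norm ℚ_[(p : ℕ)] (z p)‖ := by
    intro p hp
    have hp0 := hpos p
    rw [(hloc p hp).1.2, norm_mul, norm_mul, norm_pow, hna p hp, ← hν]
    have h1 := norm_int_ge (p := (p : ℕ)) c hc
    have h2 := (hloc p hp).2.2.2
    calc (((p : ℕ) : ℝ) ^ R)⁻¹ < (((p : ℕ) : ℝ) ^ (N * d2 * ν + (c.natAbs + N)))⁻¹ := by
          apply inv_strictAnti₀ (by positivity)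
          apply pow_lt_pow_right₀ (hone p)
          omega
      _ = ((((p : ℕ) : ℝ) ^ (N * d2))⁻¹) ^ ν * ((((p : ℕ) : ℝ) ^ c.natAbs)⁻¹ * (((p : ℕ) : ℝ) ^ N)⁻¹) := by
          rw [pow_add, pow_add, mul_inv, mul_inv, inv_pow, ← pow_mul]
      _ ≤ _ := by
          apply mul_le_mul_of_nonneg_left _ (by positivity)
          exact mul_le_mul h1 h2 (by positivity) (norm_nonneg _)
  have hQR : ∀ p : Nat.Primes, (((p : ℕ) : ℝ) ^ Q)⁻¹ ≤ (((p : ℕ) : ℝ) ^ R)⁻¹ := fun p => by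
    have hp0 := hpos p
    exact inv_anti₀ (by positivity) (pow_le_pow_right₀ (hone p).le (by omega))
  have hvR : ∀ p ∈ T, ¬ (((p : ℕ) ^ R : ℕ) : ℤ) ∣ v := by
    intro p hp h
    have h1 := dvd_near (p := (p : ℕ)) h
    have h2 := hvbig p hp
    have h3 : (a : ℚ_[(p : ℕ)]) ^ finrank ℚ K * Algebra.norm ℚ_[(p : ℕ)] (z p) = (v : ℚ_[(p : ℕ)]) -
      ((v : ℚ_[(p : ℕ)]) - (a : ℚ_[(p : ℕ)]) ^ finrank ℚ K * Algebra.norm ℚ_[(p : ℕ)] (z p)) := by ring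
    have h4 : ‖(a : ℚ_[(p : ℕ)]) ^ finrank ℚ K * Algebra.norm ℚ_[(p : ℕ)] (z p)‖ ≤ (((p : ℕ) : ℝ) ^ R)⁻¹ := by
      rw [h3, sub_eq_add_neg]
      refine (Padic.nonarchimedean _ _).trans (max_le h1 ?_)
      rw [norm_neg]
      exact (hz03 p hp).trans (hQR p)
    exact absurd h4 (not_le.2 h2)
  -- the congruence
  have hcong : ((∏ p ∈ T, (p : ℕ) ^ Q : ℕ) : ℤ) ∣ v - e * (G.eval t0 + a * k) := by
    apply prod_dvd
    intro p hp
    apply near_dvd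
    have h1 := hz03 p hp
    rw [hval p hp] at h1
    have h2 := lip G (t0 : ℚ_[(p : ℕ)]) ((D0 : ℚ_[(p : ℕ)]) * t p) (Padic.norm_int_le_one _) (hDt p hp)
    have h3 : ((G.eval t0 : ℤ) : ℚ_[(p : ℕ)]) = aeval (t0 : ℚ_[(p : ℕ)]) G := by
      have := aeval_algebraMap_apply ℚ_[(p : ℕ)] t0 G
      simp only [algebraMap_int_eq, eq_intCast] at this
      rw [this]
      simp
    have h4 : ((v - e * (G.eval t0 + a * k) : ℤ) : ℚ_[(p : ℕ)]) = ((v : ℚ_[(p : ℕ)]) -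
      (e : ℚ_[(p : ℕ)]) * (aeval ((D0 : ℚ_[(p : ℕ)]) * t p) G + ((a * k : ℤ) : ℚ_[(p : ℕ)]))) +
      -((e : ℚ_[(p : ℕ)]) * (aeval (t0 : ℚ_[(p : ℕ)]) G - aeval ((D0 : ℚ_[(p : ℕ)]) * t p) G)) := by
      rw [← h3]
      push_cast
      ring
    rw [h4]
    refine (Padic.nonarchimedean _ _).trans (max_le h1 ?_)
    rw [norm_neg, norm_mul]
    refine (mul_le_of_le_one_left (norm_nonneg _) (Padic.norm_int_le_one _)).trans (h2.trans (ht0 p hp))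
  -- the splitting of the norm
  obtain ⟨D, hD⟩ : ∃ D : ℕ, D = Nat.gcd v.natAbs m := ⟨_, rfl⟩
  have hDm : D ∣ m := by rw [hD]; exact Nat.gcd_dvd_right _ _
  have hDv : (D : ℤ) ∣ v := by rw [Int.natCast_dvd, hD]; exact Nat.gcd_dvd_left _ _
  obtain ⟨μ, hμ⟩ : ∃ μ : ℤ, μ = v / D := ⟨_, rfl⟩
  have hvμ : v = D * μ := by rw [hμ, Int.mul_ediv_cancel' hDv]
  have hμ0 : μ ≠ 0 := by
    intro h
    rw [h, mul_zero] at hvμ
    exact hv0 hvμ
  have hD0' : 0 < D := Nat.pos_of_dvd_of_pos hDm hm0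
  have hμT : ∀ p ∈ T, ¬ (((p : ℕ) : ℕ) : ℤ) ∣ μ := by
    intro p hp
    obtain ⟨m', h1, -⟩ := prod_split T R p hp
    have h2 := (gcd_facts v m (p : ℕ) R m' p.2 (by rw [hm, h1]) hm0.ne' (hvR p hp)).2
    rwa [← hD, ← hμ] at h2
  have hμc : IsCoprime μ (m : ℤ) := by
    rw [Int.isCoprime_iff_gcd_eq_one]
    change Nat.Coprime μ.natAbs m
    apply Nat.coprime_of_dvd
    intro p hp h1 h2
    rw [hm] at h2
    exact hμT _ (mem_of_dvd_prod T R ⟨p, hp⟩ h2) (Int.natCast_dvd.2 h1)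
  have hDm3 : ((D * m ^ 3 : ℕ) : ℤ) ∣ v - e * (G.eval t0 + a * k) := by
    refine dvd_trans ?_ hcong
    have h1 : ∏ p ∈ T, (p : ℕ) ^ Q = m ^ 4 := by
      rw [hm, ← prod_pow]
      apply prod_congr rfl
      intro p _
      rw [← pow_mul, hQ, mul_comm]
    rw [h1]
    have h2 : D * m ^ 3 ∣ m ^ 4 := by
      rw [show m ^ 4 = m * m ^ 3 by ring]
      exact mul_dvd_mul_right hDm _
    exact_mod_cast h2
  have hDr : (0 : ℝ) < D := by exact_mod_cast hD0'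
  have hsgn : 0 < (μ : ℝ) * (c * (aeval tr f + k)) := by
    have hcr : (c : ℝ) ≠ 0 := by exact_mod_cast hc
    have h1 := real_sign zr (by rw [hreal.2]; exact mul_ne_zero hcr hreal.1) z0 hz00 hz01
    rw [hreal.2, ← hv, hvμ] at h1
    push_cast at h1
    have h2 : (c : ℝ) * (aeval tr f + k) * (D * μ) = D * ((μ : ℝ) * (c * (aeval tr f + k))) := by ring
    rw [h2] at h1
    exact (pos_iff_pos_of_mul_pos h1).1 hDr
  have hcond : 0 < μ * e * G.leadingCoeff ∨ Odd (n + 1) ∨ 0 < μ * e * (a * k) := by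
    have hD0z : (0 : ℤ) < D0 := by exact_mod_cast hD00
    rcases hC μ c k tr hCk hsgn with h | h | h
    · left
      rw [hGl, he]
      have : μ * (c * (a : ℤ) ^ (ν - 1)) * ((D0 : ℤ) ^ (n + 1) * f.leadingCoeff) =
        (μ * c * f.leadingCoeff) * ((a : ℤ) ^ (ν - 1) * (D0 : ℤ) ^ (n + 1)) := by ring
      rw [this]
      exact mul_pos h (by positivity)
    · right; left
      rwa [hn] at h
    · right; right
      rw [he]
      have : μ * (c * (a : ℤ) ^ (ν - 1)) * (a * k) = (μ * c * k) * ((a : ℤ) ^ (ν - 1) * a) := by ring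
      rw [this]
      exact mul_pos h (by positivity)
  obtain ⟨t1, z1, h1, h2, h3, h4, h5⟩ := hk t0 z0 D μ (by rw [pow_one]; exact hDm) hμ0 hμc (by rw [← hv]; exact hvμ)
    (by rw [← hv]; exact hDm3) hcond
  -- the rational point
  have haq : (a : ℚ) ≠ 0 := by exact_mod_cast ha0.ne'
  have hDq : (D0 : ℚ) ≠ 0 := by exact_mod_cast hD00.ne'
  obtain ⟨q, hq⟩ : ∃ q : ℚ, q = t1 / D0 := ⟨_, rfl⟩
  obtain ⟨y, hy⟩ : ∃ y : K, y = (a : ℚ)⁻¹ • (algebraMap (𝓞 K) K z1) := ⟨_, rfl⟩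
  have hDqt : (D0 : ℚ) * q = t1 := by rw [hq]; field_simp
  have hGt : ((G.eval t1 : ℤ) : ℚ) = (a : ℚ) * aeval q f := by
    rw [← hGa, hDqt]
    have := aeval_algebraMap_apply ℚ t1 G
    simp only [algebraMap_int_eq, eq_intCast] at this
    rw [this]
    simp
  have hny : Algebra.norm ℚ y * (a : ℚ) ^ ν = ((Algebra.norm ℤ z1 : ℤ) : ℚ) := by
    have h6 : y * algebraMap ℚ K (a : ℚ) = algebraMap (𝓞 K) K z1 := by
      rw [hy, Algebra.smul_def, mul_right_comm, ← map_mul, inv_mul_cancel₀ haq, map_one, one_mul]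
    have h7 := congrArg (Algebra.norm ℚ) h6
    rw [map_mul, Algebra.norm_algebraMap, ← hν] at h7
    rw [h7, Algebra.coe_norm_int]
  have hnormy : Algebra.norm ℚ y = (c : ℚ) * (aeval q f + (k : ℚ)) := by
    have h6 : ((Algebra.norm ℤ z1 : ℤ) : ℚ) = (e : ℚ) * ((a : ℚ) * aeval q f + (a : ℚ) * k) := by
      rw [h4, ← hGt]
      push_cast
      ring
    have h7 : (e : ℚ) * (a : ℚ) = (c : ℚ) * (a : ℚ) ^ ν := by exact_mod_cast congrArg (Int.cast : ℤ → ℚ) hea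
    have h8 : (a : ℚ) ^ ν ≠ 0 := pow_ne_zero _ haq
    apply mul_right_cancel₀ h8
    rw [hny, h6]
    linear_combination (aeval q f + (k : ℚ)) * h7
  have hz1n : Algebra.norm ℤ z1 ≠ 0 := by
    intro h6
    rw [h6, zero_mul] at h5
    exact lt_irrefl _ h5
  refine ⟨q, y, ?_, hnormy, ?_, ?_⟩
  · intro h6
    rw [h6, mul_zero] at hnormy
    rw [hnormy, zero_mul] at hny
    have : Algebra.norm ℤ z1 = 0 := by exact_mod_cast hny.symm
    exact hz1n this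
  · intro σ
    rw [← hz01 σ, ← h3 σ]
    have h6 : σ y = ((a : ℝ))⁻¹ * σ (z1 : K) := by
      rw [hy, Algebra.smul_def, map_mul]
      congr 1
      have : σ (algebraMap ℚ K ((a : ℚ)⁻¹)) = (((a : ℚ)⁻¹ : ℚ) : ℝ) := by
        rw [eq_ratCast, map_ratCast]
      rw [this]
      push_cast
      rfl
    rw [h6]
    have har : (0 : ℝ) < ((a : ℝ))⁻¹ := by
      have : (0 : ℝ) < a := by exact_mod_cast ha0
      positivity
    exact ⟨fun h => (pos_iff_pos_of_mul_pos h).1 har, fun h => mul_pos har h⟩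
  · intro p hp
    have hp0 := hpos p
    have hmR : (((p : ℕ) ^ R : ℕ) : ℤ) ∣ (m : ℤ) := by
      rw [hm]
      exact_mod_cast dvd_prod_of_mem (fun p : Nat.Primes => (p : ℕ) ^ R) hp
    constructor
    · have h6 : ‖((t1 - t0 : ℤ) : ℚ_[(p : ℕ)])‖ ≤ (((p : ℕ) : ℝ) ^ R)⁻¹ := dvd_near (hmR.trans h1)
      have h7 : ‖(D0 : ℚ_[(p : ℕ)]) * ((q : ℚ_[(p : ℕ)]) - t p)‖ ≤ (((p : ℕ) : ℝ) ^ R)⁻¹ := by
        have h8 : (D0 : ℚ_[(p : ℕ)]) * (q : ℚ_[(p : ℕ)]) = (t1 : ℚ_[(p : ℕ)]) := by exact_mod_cast congrArg (Rat.cast : ℚ → ℚ_[(p : ℕ)]) hDqt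
        have h9 : (D0 : ℚ_[(p : ℕ)]) * ((q : ℚ_[(p : ℕ)]) - t p) = ((t1 - t0 : ℤ) : ℚ_[(p : ℕ)]) +
          ((t0 : ℚ_[(p : ℕ)]) - (D0 : ℚ_[(p : ℕ)]) * t p) := by
          push_cast
          linear_combination h8
        rw [h9]
        exact (Padic.nonarchimedean _ _).trans (max_le h6 ((ht0 p hp).trans (hQR p)))
      rw [norm_mul, hnD p hp, inv_mul_le_iff₀ (by positivity)] at h7
      refine h7.trans ?_
      exact hpw p N (by omega)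
    · intro j
      have h6 : ‖(((RingOfIntegers.basis K).repr z1 j - (RingOfIntegers.basis K).repr z0 j : ℤ) : ℚ_[(p : ℕ)])‖ ≤
          (((p : ℕ) : ℝ) ^ R)⁻¹ := by
        apply dvd_near
        refine hmR.trans ?_
        obtain ⟨w, hw⟩ := Ideal.mem_span_singleton'.1 h2
        have h7 : z1 = z0 + (m : 𝓞 K) * w := by linear_combination -hw
        rw [h7, map_add, Finsupp.add_apply, repr_mul_nat, add_sub_cancel_left]
        exact dvd_mul_right _ _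
      have h8 : (integralBasis K).repr y j = (a : ℚ)⁻¹ * (((RingOfIntegers.basis K).repr z1 j : ℤ) : ℚ) := by
        rw [hy, map_smul, Finsupp.smul_apply, smul_eq_mul]
        congr 1
        exact integralBasis_repr_apply K _ _
      have h9 : (a : ℚ_[(p : ℕ)]) * ((((integralBasis K).repr y j : ℚ) : ℚ_[(p : ℕ)])) =
          (((RingOfIntegers.basis K).repr z1 j : ℤ) : ℚ_[(p : ℕ)]) := by
        have h10 : (a : ℚ) * (integralBasis K).repr y j = (((RingOfIntegers.basis K).repr z1 j : ℤ) : ℚ) := by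
          rw [h8, ← mul_assoc, mul_inv_cancel₀ haq, one_mul]
        have h11 := congrArg (Rat.cast : ℚ → ℚ_[(p : ℕ)]) h10
        push_cast at h11
        exact h11
      have h7 : ‖(a : ℚ_[(p : ℕ)]) * ((((integralBasis K).repr y j : ℚ) : ℚ_[(p : ℕ)]) - co (z p) j)‖ ≤ (((p : ℕ) : ℝ) ^ R)⁻¹ := by
        have h10 : (a : ℚ_[(p : ℕ)]) * ((((integralBasis K).repr y j : ℚ) : ℚ_[(p : ℕ)]) - co (z p) j) =
          (((RingOfIntegers.basis K).repr z1 j - (RingOfIntegers.basis K).repr z0 j : ℤ) : ℚ_[(p : ℕ)]) +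
          ((((RingOfIntegers.basis K).repr z0 j : ℤ) : ℚ_[(p : ℕ)]) - (a : ℚ_[(p : ℕ)]) * co (z p) j) := by
          push_cast
          linear_combination h9
        rw [h10]
        exact (Padic.nonarchimedean _ _).trans (max_le h6 ((hz02 p hp j).trans (hQR p)))
      rw [norm_mul, hna p hp, inv_mul_le_iff₀ (by positivity)] at h7
      exact h7.trans (hpw p (N * d2) (by omega))

end Pool.Agent.U637.NR
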