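import Pool.Agent.U637.NR.G7

/-! Bounded local points; weak approximation for all adelic points. -/

set_option autoImplicit false
set_option linter.unusedSectionVars false

namespace Pool.Agent.U637.NR
open NumberField Finset Polynomial Module TensorProduct Filter Topology
open Pool.Agent.R479.NF (Ix Mt P P_int P_smul norm_eq_P leftMul_one_tmul root_near IsNp)
open Pool.Agent.TH204.HP (one_lt_p p_pos exists_pow_gt primes_upto)
open Pool.Agent.Y714.RC (PP)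
open Pool.Agent.U637.OP (LocV ElsV densV)

variable {K : Type} [Field K] [NumberField K]

lemma co_smul {p : ℕ} [Fact p.Prime] (s : ℚ_[p]) (z : ℚ_[p] ⊗[ℚ] K) (j : Ix K) : co (s • z) j = s * co z j := by
  unfold co
  rw [map_smul, Finsupp.smul_apply, smul_eq_mul]

lemma norm_smul' {p : ℕ} [Fact p.Prime] (s : ℚ_[p]) (z : ℚ_[p] ⊗[ℚ] K) :
    Algebra.norm ℚ_[p] (s • z) = s ^ finrank ℚ K * Algebra.norm ℚ_[p] z := by
  rw [norm_eq_P, norm_eq_P, ← P_smul]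
  congr 1
  funext j
  exact co_smul s z j

/-- norms of bounded size come from bounded elements -/
lemma bdd_norm (p : ℕ) [Fact p.Prime] (N1 : ℕ) : ∃ N2 : ℕ, ∀ v : ℚ_[p], ((p : ℝ) ^ N1)⁻¹ ≤ ‖v‖ → ‖v‖ ≤ (p : ℝ) ^ N1 →
    IsNp K p v → ∃ z : ℚ_[p] ⊗[ℚ] K, Algebra.norm ℚ_[p] z = v ∧ ∀ j, ‖co z j‖ ≤ (p : ℝ) ^ N2 := by
  classical
  have hp0 : (0 : ℝ) < p := p_pos
  have hp1 : (1 : ℝ) < p := one_lt_p
  have hν0 : finrank ℚ K ≠ 0 := finrank_pos.ne'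
  obtain ⟨A, hA⟩ : ∃ A : Set ℚ_[p], A = Metric.closedBall 0 ((p : ℝ) ^ N1) ∩ {v | ((p : ℝ) ^ N1)⁻¹ ≤ ‖v‖} := ⟨_, rfl⟩
  have hAc : IsCompact A := by
    rw [hA]
    exact (isCompact_closedBall _ _).inter_right (isClosed_le continuous_const continuous_norm)
  have key : ∃ N2 : ℕ, ∀ v ∈ A, IsNp K p v → ∃ z : ℚ_[p] ⊗[ℚ] K, Algebra.norm ℚ_[p] z = v ∧ ∀ j, ‖co z j‖ ≤ (p : ℝ) ^ N2 := by
    refine hAc.induction_on (p := fun W => ∃ N2 : ℕ, ∀ v ∈ W, IsNp K p v → ∃ z : ℚ_[p] ⊗[ℚ] K,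
      Algebra.norm ℚ_[p] z = v ∧ ∀ j, ‖co z j‖ ≤ (p : ℝ) ^ N2) ?_ ?_ ?_ ?_
    · exact ⟨0, fun v h => absurd h (by simp)⟩
    · rintro W W' hWW ⟨N2, h⟩
      exact ⟨N2, fun v hv => h v (hWW hv)⟩
    · rintro W W' ⟨N2, h⟩ ⟨N2', h'⟩
      refine ⟨max N2 N2', fun v hv hn => ?_⟩
      rcases hv with hv | hv
      · obtain ⟨z, h1, h2⟩ := h v hv hn
        exact ⟨z, h1, fun j => (h2 j).trans (pow_le_pow_right₀ hp1.le (le_max_left _ _))⟩
      · obtain ⟨z, h1, h2⟩ := h' v hv hn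
        exact ⟨z, h1, fun j => (h2 j).trans (pow_le_pow_right₀ hp1.le (le_max_right _ _))⟩
    · intro v0 hv0
      rw [hA] at hv0
      have hv0n : 0 < ‖v0‖ := lt_of_lt_of_le (by positivity) hv0.2
      have hv00 : v0 ≠ 0 := norm_pos_iff.1 hv0n
      have hνn : 0 < ‖((finrank ℚ K : ℕ) : ℚ_[p])‖ := norm_pos_iff.2 (by exact_mod_cast hν0)
      obtain ⟨ρ, hρ⟩ : ∃ ρ : ℝ, ρ = ‖((finrank ℚ K : ℕ) : ℚ_[p])‖ ^ 2 * ‖v0‖ := ⟨_, rfl⟩
      have hρ0 : 0 < ρ := by rw [hρ]; positivity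
      have hρle : ρ ≤ ‖v0‖ := by
        rw [hρ]
        apply mul_le_of_le_one_left hv0n.le
        apply pow_le_one₀ (norm_nonneg _)
        have := Padic.norm_int_le_one (p := p) (finrank ℚ K : ℤ)
        simpa using this
      have hroot : ∀ v ∈ Metric.ball v0 ρ, ∃ s : ℚ_[p], s ≠ 0 ∧ ‖s‖ = 1 ∧ v = v0 * s ^ finrank ℚ K := by
        intro v hv
        rw [Metric.mem_ball, dist_eq_norm] at hv
        obtain ⟨s, hs⟩ := root_near (finrank ℚ K) v v0 hv00 (by rw [← hρ]; exact hv)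
        have h1 : ‖v‖ = ‖v0‖ := by
          have h2 : v = (v - v0) + v0 := by ring
          rw [h2]
          rw [Padic.add_eq_max_of_ne (ne_of_lt (hv.trans_le hρle))]
          exact max_eq_right (hv.trans_le hρle).le
        have h3 : ‖s‖ ^ finrank ℚ K = 1 := by
          rw [hs, norm_mul, norm_pow] at h1
          have h4 : ‖v0‖ * ‖s‖ ^ finrank ℚ K = ‖v0‖ * 1 := by rw [h1, mul_one]
          exact mul_left_cancel₀ hv0n.ne' h4
        have h4 : ‖s‖ = 1 := (pow_eq_one_iff_of_nonneg (norm_nonneg _) hν0).1 h3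
        exact ⟨s, norm_pos_iff.1 (by rw [h4]; exact one_pos), h4, hs⟩
      by_cases hN : IsNp K p v0
      · obtain ⟨z0, hz0⟩ := hN
        obtain ⟨N2, hN2⟩ := exists_pow_gt (p := p) (∑ j, ‖co z0 j‖)
        refine ⟨Metric.ball v0 ρ, mem_nhdsWithin_of_mem_nhds (Metric.ball_mem_nhds v0 hρ0), N2, fun v hv _ => ?_⟩
        obtain ⟨s, -, hs1, hs2⟩ := hroot v hv
        refine ⟨s • z0, ?_, fun j => ?_⟩
        · rw [norm_smul', hz0, hs2, mul_comm]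
        · rw [co_smul, norm_mul, hs1, one_mul]
          exact (single_le_sum (f := fun j => ‖co z0 j‖) (fun _ _ => norm_nonneg _) (mem_univ j)).trans hN2.le
      · refine ⟨Metric.ball v0 ρ, mem_nhdsWithin_of_mem_nhds (Metric.ball_mem_nhds v0 hρ0), 0, fun v hv hv2 => ?_⟩
        exfalso
        obtain ⟨s, hs0, -, hs2⟩ := hroot v hv
        obtain ⟨z, hz⟩ := hv2
        apply hN
        refine ⟨s⁻¹ • z, ?_⟩
        rw [norm_smul', hz, hs2, inv_pow, mul_comm v0, ← mul_assoc, inv_mul_cancel₀ (pow_ne_zero _ hs0), one_mul]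
  obtain ⟨N2, h⟩ := key
  refine ⟨N2, fun v h1 h2 h3 => h v ?_ h3⟩
  rw [hA]
  exact ⟨by simpa using h2, h1⟩

/-- the local points can be chosen bounded -/
lemma bdd_local (f : ℤ[X]) (hd : 1 ≤ f.natDegree) (c : ℤ) (hc : c ≠ 0) (p : ℕ) [Fact p.Prime] (B : ℕ) (hB : 1 ≤ B)
    (η : ℝ) (hη : 0 < η) : ∃ N X0 : ℕ, ∀ X : ℕ, X0 ≤ X → ∃ Bad : Finset ℤ, (#Bad : ℝ) ≤ η * (X : ℝ) ^ f.natDegree ∧
      ∀ k : ℤ, |k| ≤ ((B * X ^ f.natDegree : ℕ) : ℤ) → k ∉ Bad →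
        (∃ (t : ℚ_[p]) (z : ℚ_[p] ⊗[ℚ] K), OnV K f c k t z) → ∃ (t : ℚ_[p]) (z : ℚ_[p] ⊗[ℚ] K), Lv K f c N k p t z := by
  classical
  have hp1 : (1 : ℝ) < p := one_lt_p
  have hp0 : (0 : ℝ) < p := p_pos
  obtain ⟨S, hS⟩ : ∃ S : (Fin 1 → ℚ_[p]) → Prop, S = fun b => IsNp K p ((c : ℚ_[p]) * b 0) := ⟨_, rfl⟩
  obtain ⟨f', hf'⟩ : ∃ f' : Fin 1 → ℤ[X], f' = fun _ => f := ⟨_, rfl⟩
  obtain ⟨N, X0, h⟩ := densV (p := p) (finrank ℚ K) finrank_pos.ne' S (by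
    rw [hS]
    rintro b w ⟨z, hz⟩ hw
    refine ⟨w 0 • z, ?_⟩
    rw [norm_smul', hz]
    ring) f' (by rw [hf']; exact fun _ => hd) B hB η hη
  obtain ⟨C, hC⟩ : ∃ C : ℕ, ∀ (t : ℚ_[p]) (k : ℤ), ‖t‖ ≤ (p : ℝ) ^ N → ‖aeval t f + (k : ℚ_[p])‖ ≤ (p : ℝ) ^ C := by
    obtain ⟨C, hC⟩ : ∃ C : ℕ, C = 2 * f.natDegree * N + N := ⟨_, rfl⟩
    refine ⟨C, fun t k ht => ?_⟩
    have h1 := Pool.Agent.U637.OP.lipB (p := p) f N t 0 ht (by simp)
    have h2 : aeval t f + (k : ℚ_[p]) = (aeval t f - aeval (0 : ℚ_[p]) f) + (aeval (0 : ℚ_[p]) f + (k : ℚ_[p])) := by ring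
    rw [h2]
    refine (Padic.nonarchimedean _ _).trans (max_le ?_ ?_)
    · refine h1.trans ?_
      rw [sub_zero, hC, pow_add]
      exact mul_le_mul_of_nonneg_left ht (by positivity)
    · have h3 : aeval (0 : ℚ_[p]) f + (k : ℚ_[p]) = ((f.eval 0 + k : ℤ) : ℚ_[p]) := by
        have := aeval_algebraMap_apply ℚ_[p] (0 : ℤ) f
        simp only [algebraMap_int_eq, eq_intCast, Int.cast_zero] at this
        rw [this]
        simp
      rw [h3]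
      exact (Padic.norm_int_le_one _).trans (one_le_pow₀ hp1.le)
  obtain ⟨N2, hN2⟩ := bdd_norm (K := K) p (N + C + c.natAbs)
  refine ⟨N + C + c.natAbs + N2, X0, fun X hX => ?_⟩
  obtain ⟨Bad, hBad⟩ : ∃ Bad : Finset ℤ, Bad = (Icc (-((B * X ^ f.natDegree : ℕ) : ℤ)) ((B * X ^ f.natDegree : ℕ) : ℤ)).filter
    (fun k => ElsV f' S (fun _ => k) ∧ ¬ LocV f' S N (fun _ => k)) := ⟨_, rfl⟩
  refine ⟨Bad, ?_, fun k hk hkB hex => ?_⟩
  · refine le_trans ?_ ((h X hX).trans (le_of_eq (by rw [hf']; simp)))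
    have h1 : #Bad ≤ #((Pool.Agent.R479.NF.box f' B X).filter (fun k => ElsV f' S k ∧ ¬ LocV f' S N k)) := by
      apply card_le_card_of_injOn (fun k : ℤ => (fun _ : Fin 1 => k))
      · intro k hk
        rw [mem_coe, hBad, mem_filter] at hk
        rw [mem_coe, mem_filter]
        refine ⟨?_, hk.2⟩
        unfold Pool.Agent.R479.NF.box
        rw [Fintype.mem_piFinset, hf']
        intro j
        exact hk.1
      · intro k _ k' _ hkk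
        exact congrFun hkk 0
    exact_mod_cast h1
  · have hels : ElsV f' S (fun _ => k) := by
      obtain ⟨t, z, h1, h2⟩ := hex
      refine ⟨t, fun j => ?_, ?_⟩
      · rw [hf']; exact h1
      · rw [hS, hf']
        exact ⟨z, h2⟩
    have hloc : LocV f' S N (fun _ => k) := by
      by_contra h1
      apply hkB
      rw [hBad, mem_filter, mem_Icc]
      exact ⟨abs_le.1 hk, hels, h1⟩
    obtain ⟨t, ht1, ht2, ht3⟩ := hloc
    have ht2' : ((p : ℝ) ^ N)⁻¹ ≤ ‖aeval t f + (k : ℚ_[p])‖ := by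
      have := ht2 0
      rw [hf'] at this
      exact this
    rw [hS, hf'] at ht3
    have ht3' : IsNp K p ((c : ℚ_[p]) * (aeval t f + (k : ℚ_[p]))) := ht3
    have hne : aeval t f + (k : ℚ_[p]) ≠ 0 := norm_pos_iff.1 (lt_of_lt_of_le (by positivity) ht2')
    have hv1 : ((p : ℝ) ^ (N + C + c.natAbs))⁻¹ ≤ ‖(c : ℚ_[p]) * (aeval t f + (k : ℚ_[p]))‖ := by
      rw [norm_mul]
      calc ((p : ℝ) ^ (N + C + c.natAbs))⁻¹ ≤ ((p : ℝ) ^ (c.natAbs + N))⁻¹ :=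
            inv_anti₀ (by positivity) (pow_le_pow_right₀ hp1.le (by omega))
        _ = ((p : ℝ) ^ c.natAbs)⁻¹ * ((p : ℝ) ^ N)⁻¹ := by rw [pow_add, mul_inv]
        _ ≤ _ := mul_le_mul (norm_int_ge c hc) ht2' (by positivity) (norm_nonneg _)
    have hv2 : ‖(c : ℚ_[p]) * (aeval t f + (k : ℚ_[p]))‖ ≤ (p : ℝ) ^ (N + C + c.natAbs) := by
      rw [norm_mul]
      calc ‖(c : ℚ_[p])‖ * ‖aeval t f + (k : ℚ_[p])‖ ≤ 1 * (p : ℝ) ^ C :=
            mul_le_mul (Padic.norm_int_le_one _) (hC t k ht1) (norm_nonneg _) zero_le_one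
        _ ≤ _ := by rw [one_mul]; exact pow_le_pow_right₀ hp1.le (by omega)
    obtain ⟨z, hz1, hz2⟩ := hN2 _ hv1 hv2 ht3'
    refine ⟨t, z, ⟨hne, hz1⟩, ht1.trans (pow_le_pow_right₀ hp1.le (by omega)),
      fun j => (hz2 j).trans (pow_le_pow_right₀ hp1.le (by omega)), ?_⟩
    exact (inv_anti₀ (by positivity) (pow_le_pow_right₀ hp1.le (by omega))).trans ht2'

end Pool.Agent.U637.NR
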