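import Pool.Agent.U637.NR.G8

/-! Weak approximation for `N(z) = c (f(t) + k)`, for almost all `k`: all adelic points. -/

set_option autoImplicit false
set_option linter.unusedSectionVars false

namespace Pool.Agent.U637.NR
open NumberField Finset Polynomial Module TensorProduct Filter Topology
open Pool.Agent.R479.NF (Ix)
open Pool.Agent.TH204.HP (one_lt_p p_pos exists_pow_gt primes_upto)

variable {K : Type} [Field K] [NumberField K]

lemma Lv.mono {f : ℤ[X]} {c : ℤ} {N N' : ℕ} {k : ℤ} {p : ℕ} [Fact p.Prime] {t : ℚ_[p]} {z : ℚ_[p] ⊗[ℚ] K}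
    (h : Lv K f c N k p t z) (hN : N ≤ N') : Lv K f c N' k p t z := by
  obtain ⟨h1, h2, h3, h4⟩ := h
  have hp1 : (1 : ℝ) < p := one_lt_p
  have h5 : (p : ℝ) ^ N ≤ (p : ℝ) ^ N' := pow_le_pow_right₀ hp1.le hN
  exact ⟨h1, h2.trans h5, fun j => (h3 j).trans h5, (inv_anti₀ (pow_pos p_pos _) h5).trans h4⟩

variable (K) in
lemma exists_bad (f : ℤ[X]) (hd : 1 ≤ f.natDegree) (c : ℤ) (hc : c ≠ 0) : ∃ T : Finset Nat.Primes, BadP K f c T := by
  obtain ⟨T, hT⟩ := primes_upto (f.natDegree + finrank ℚ K + (discr K).natAbs + c.natAbs + f.leadingCoeff.natAbs)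
  have hl : f.leadingCoeff ≠ 0 := by
    rw [Ne, leadingCoeff_eq_zero]
    rintro rfl
    simp at hd
  refine ⟨T, fun p hp => hT p ?_⟩
  rcases hp with h | h | h | h | h
  · omega
  · have := Nat.le_of_dvd (finrank_pos (R := ℚ) (M := K)) h
    omega
  · have := Nat.le_of_dvd (Int.natAbs_pos.2 (discr_ne_zero K)) (Int.natCast_dvd.1 h)
    omega
  · have := Nat.le_of_dvd (Int.natAbs_pos.2 hc) (Int.natCast_dvd.1 h)
    omega
  · have := Nat.le_of_dvd (Int.natAbs_pos.2 hl) (Int.natCast_dvd.1 h)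
    omega

/-- **weak approximation for almost all `k`, for all adelic points** -/
theorem wa_all (f : ℤ[X]) (hd : 2 ≤ f.natDegree) (c : ℤ) (hc : c ≠ 0) (T : Finset Nat.Primes) (N B : ℕ) (hB : 1 ≤ B) :
    AA f.natDegree B (fun _ k => ∀ (t : (p : Nat.Primes) → ℚ_[(p : ℕ)]) (z : (p : Nat.Primes) → ℚ_[(p : ℕ)] ⊗[ℚ] K)
      (tr : ℝ) (zr : ℝ ⊗[ℚ] K), (∀ p : Nat.Primes, OnV K f c k (t p) (z p)) →
      (∀ p ∈ T, Lv K f c N k (p : ℕ) (t p) (z p)) → OnV K f c k tr zr → Gp K f c T N k t z zr) := by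
  classical
  obtain ⟨n, hn⟩ : ∃ n, f.natDegree = n + 1 := ⟨f.natDegree - 1, by omega⟩
  obtain ⟨T0, hT0⟩ := exists_bad K f (by omega) c hc
  intro ε hε
  obtain ⟨η, hη⟩ : ∃ η, η = ε / (2 * (#T0 + 1)) := ⟨_, rfl⟩
  have hη0 : 0 < η := by rw [hη]; positivity
  have hloc := fun p : Nat.Primes => bdd_local (K := K) f (by omega) c hc (p : ℕ) B hB η hη0
  choose Np Xp hloc using hloc
  obtain ⟨N1, hN1⟩ : ∃ N1, N1 = N + ∑ p ∈ T0, Np p := ⟨_, rfl⟩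
  have hNp : ∀ p ∈ T0, Np p ≤ N1 := fun p hp => by
    have := single_le_sum (f := Np) (fun _ _ => Nat.zero_le _) hp
    omega
  obtain ⟨X0, h0⟩ := wa_T (K := K) f n (by omega) hn c hc (T ∪ T0) (fun p hp => mem_union_right _ (hT0 p hp)) N1 B (ε / 2) (by positivity)
  refine ⟨X0 + ∑ p ∈ T0, Xp p, fun X hX => ?_⟩
  have hXp : ∀ p ∈ T0, Xp p ≤ X := fun p hp => by
    have := single_le_sum (f := Xp) (fun _ _ => Nat.zero_le _) hp
    omega
  obtain ⟨Bad0, hB1, hB2⟩ := h0 X (by omega)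
  have hl : ∀ p : Nat.Primes, ∃ Bad : Finset ℤ, p ∈ T0 → ((#Bad : ℝ) ≤ η * (X : ℝ) ^ f.natDegree ∧
      ∀ k : ℤ, |k| ≤ ((B * X ^ f.natDegree : ℕ) : ℤ) → k ∉ Bad →
        (∃ (t : ℚ_[(p : ℕ)]) (z : ℚ_[(p : ℕ)] ⊗[ℚ] K), OnV K f c k t z) →
          ∃ (t : ℚ_[(p : ℕ)]) (z : ℚ_[(p : ℕ)] ⊗[ℚ] K), Lv K f c (Np p) k (p : ℕ) t z) := by
    intro p
    by_cases hp : p ∈ T0
    · obtain ⟨Bad, h1⟩ := hloc p X (hXp p hp)
      exact ⟨Bad, fun _ => h1⟩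
    · exact ⟨∅, fun h => absurd h hp⟩
  choose BP hBP using hl
  refine ⟨Bad0 ∪ T0.biUnion BP, ?_, ?_⟩
  · have h1 : (#(Bad0 ∪ T0.biUnion BP) : ℝ) ≤ #Bad0 + ∑ p ∈ T0, (#(BP p) : ℝ) := by
      exact_mod_cast (card_union_le _ _).trans (Nat.add_le_add_left card_biUnion_le _)
    have h2 : ∑ p ∈ T0, (#(BP p) : ℝ) ≤ #T0 * (η * (X : ℝ) ^ f.natDegree) := by
      rw [← nsmul_eq_mul, ← sum_const]
      exact sum_le_sum fun p hp => (hBP p hp).1
    have h3 : (#T0 : ℝ) * (η * (X : ℝ) ^ f.natDegree) ≤ ε / 2 * (X : ℝ) ^ f.natDegree := by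
      have e : (#T0 : ℝ) * (η * (X : ℝ) ^ f.natDegree) = (ε / 2 * (X : ℝ) ^ f.natDegree) * (#T0 / (#T0 + 1)) := by
        rw [hη]
        field_simp
      rw [e]
      apply mul_le_of_le_one_right (by positivity)
      rw [div_le_one (by positivity)]
      linarith
    rw [← hn] at hB1
    linarith
  · intro k hk hkB t z tr zr hV hT hr
    rw [mem_union, not_or] at hkB
    have hkB2 : ∀ p ∈ T0, k ∉ BP p := fun p hp h => hkB.2 (mem_biUnion.2 ⟨p, hp, h⟩)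
    have h1 : ∀ p : Nat.Primes, ∃ (t' : ℚ_[(p : ℕ)]) (z' : ℚ_[(p : ℕ)] ⊗[ℚ] K),
        (p ∈ T ∪ T0 → Lv K f c N1 k (p : ℕ) t' z') ∧ (p ∈ T → t' = t p ∧ z' = z p) := by
      intro p
      by_cases hp : p ∈ T
      · exact ⟨t p, z p, fun _ => (hT p hp).mono (by omega), fun _ => ⟨rfl, rfl⟩⟩
      · by_cases hp0 : p ∈ T0
        · obtain ⟨t', z', h2⟩ := (hBP p hp0).2 k hk (hkB2 p hp0) ⟨t p, z p, hV p⟩
          exact ⟨t', z', fun _ => h2.mono (hNp p hp0), fun h => absurd h hp⟩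
        · exact ⟨0, 0, fun h => by rcases mem_union.1 h with h | h <;> [exact absurd h hp; exact absurd h hp0],
            fun h => absurd h hp⟩
    choose t' z' h2 h3 using h1
    obtain ⟨q, y, h4, h5, h6, h7⟩ := hB2 k (by rw [← hn]; exact hk) hkB.1 t' z' tr zr (fun p hp => h2 p hp) hr
    refine ⟨q, y, h4, h5, h6, fun p hp => ?_⟩
    obtain ⟨h8, h9⟩ := h7 p (mem_union_left _ hp)
    rw [(h3 p hp).1] at h8
    rw [(h3 p hp).2] at h9
    have hp1 : (1 : ℝ) < ((p : ℕ) : ℝ) := by exact_mod_cast p.2.one_lt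
    have hle : (((p : ℕ) : ℝ) ^ N1)⁻¹ ≤ (((p : ℕ) : ℝ) ^ N)⁻¹ :=
      inv_anti₀ (by positivity) (pow_le_pow_right₀ hp1.le (by omega))
    exact ⟨h8.trans hle, fun j => (h9 j).trans hle⟩

end Pool.Agent.U637.NR
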