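import Mathlib
import Pool.Agent.Y932.HB.Base
import Pool.Agent.R479.NF.Thin

/-! A finite sieve: one residue class for each prime of a set with divergent sum of reciprocals. -/

set_option autoImplicit false
set_option linter.unusedSectionVars false

namespace Pool.Agent.U637.NR
open Finset
open Pool.Agent.Y214.HB (Obs Kind NoRoot Dv evQ toK)

/-- finite subsets with a small product -/
lemma dv_prod {S : Set ℕ} (h : Dv S) (hS : ∀ p ∈ S, p.Prime) (δ : ℝ) (hδ : 0 < δ) :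
    ∃ F : Finset ℕ, (∀ p ∈ F, p ∈ S) ∧ ∏ p ∈ F, (1 - 1 / (p : ℝ)) < δ := by
  classical
  have h0 : ∀ k : ℕ, 0 ≤ S.indicator (fun k : ℕ => (1 : ℝ) / k) k := by
    intro k
    apply Set.indicator_nonneg
    intro x _
    positivity
  have h1 : ¬ ∃ c : ℝ, ∀ u : Finset ℕ, ∑ k ∈ u, S.indicator (fun k : ℕ => (1 : ℝ) / k) k ≤ c := by
    rintro ⟨c, hc⟩
    exact h (summable_of_sum_le h0 hc)
  push Not at h1
  obtain ⟨u, hu⟩ := h1 (-Real.log δ)
  refine ⟨u.filter (fun p => p ∈ S), fun p hp => (mem_filter.1 hp).2, ?_⟩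
  have h2 : ∑ k ∈ u, S.indicator (fun k : ℕ => (1 : ℝ) / k) k = ∑ k ∈ u.filter (fun p => p ∈ S), (1 : ℝ) / k := by
    rw [sum_filter]
    exact sum_congr rfl fun k _ => by rw [Set.indicator_apply]
  rw [h2] at hu
  have h3 : ∏ p ∈ u.filter (fun p => p ∈ S), (1 - 1 / (p : ℝ)) ≤ ∏ p ∈ u.filter (fun p => p ∈ S), Real.exp (-(1 / (p : ℝ))) := by
    apply prod_le_prod
    · intro p hp
      have h4 : (1 : ℝ) ≤ p := by exact_mod_cast (hS p (mem_filter.1 hp).2).one_lt.le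
      rw [sub_nonneg, div_le_one (by linarith)]
      exact h4
    · intro p _
      have := Real.add_one_le_exp (-(1 / (p : ℝ)))
      linarith
  refine h3.trans_lt ?_
  rw [← Real.exp_sum, sum_neg_distrib]
  calc Real.exp (-∑ k ∈ u.filter (fun p => p ∈ S), (1 : ℝ) / k) < Real.exp (Real.log δ) := Real.exp_lt_exp.2 (by linarith)
    _ = δ := Real.exp_log hδ

/-- the sieve -/
lemma sieve (F : Finset ℕ) (hF : ∀ p ∈ F, p.Prime) (κ : ℕ → ℤ) (M : ℕ) :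
    (#{k ∈ Icc (-(M : ℤ)) M | ∀ p ∈ F, ¬ (p : ℤ) ∣ k - κ p} : ℝ) ≤
      (∏ p ∈ F, (1 - 1 / (p : ℝ))) * (2 * M + 1) + ∏ p ∈ F, (p : ℝ) := by
  classical
  obtain ⟨Q, hQ⟩ : ∃ Q, Q = ∏ p ∈ F, p := ⟨_, rfl⟩
  have hQ0 : 0 < Q := by rw [hQ]; exact prod_pos fun p hp => (hF p hp).pos
  have hpQ : ∀ p ∈ F, p ∣ Q := fun p hp => by rw [hQ]; exact dvd_prod_of_mem _ hp
  obtain ⟨K0, hK0⟩ : ∃ K0 : ℤ, ∀ p ∈ F, (p : ℤ) ∣ K0 - κ p := by
    have hpp : Set.Pairwise (F : Set ℕ) (Function.onFun Nat.Coprime (fun p : ℕ => p)) := by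
      intro p hp q hq hne
      exact (Nat.coprime_primes (hF p hp) (hF q hq)).2 hne
    obtain ⟨x, hx⟩ := Nat.chineseRemainderOfFinset (fun p : ℕ => (κ p % (p : ℤ)).toNat) (fun p : ℕ => p) F
      (fun p hp => (hF p hp).ne_zero) hpp
    refine ⟨x, fun p hp => ?_⟩
    have h1 := hx p hp
    have hp0 : (0 : ℤ) < p := by exact_mod_cast (hF p hp).pos
    have h2 : ((p : ℕ) : ℤ) ∣ (((κ p % (p : ℤ)).toNat : ℕ) : ℤ) - (x : ℤ) := (Nat.modEq_iff_dvd).1 h1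
    rw [Int.toNat_of_nonneg (Int.emod_nonneg _ hp0.ne')] at h2
    have h3 : (p : ℤ) ∣ κ p - κ p % (p : ℤ) := Int.dvd_self_sub_emod
    have : (x : ℤ) - κ p = -((κ p % (p : ℤ) - x) + (κ p - κ p % (p : ℤ))) := by ring
    rw [this]
    exact dvd_neg.2 (dvd_add h2 h3)
  obtain ⟨s, hs⟩ : ∃ s : ℤ, s = (Q : ℤ) * (M + |K0|) := ⟨_, rfl⟩
  have hQ1 : (1 : ℤ) ≤ Q := by exact_mod_cast hQ0
  have hs1 : (M : ℤ) + |K0| ≤ s := by
    rw [hs]
    have : (0 : ℤ) ≤ (M : ℤ) + |K0| := by positivity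
    nlinarith
  have hK1 : -|K0| ≤ K0 ∧ K0 ≤ |K0| := abs_le.1 le_rfl
  obtain ⟨a, ha⟩ : ∃ a : ℕ, (a : ℤ) = s - M - K0 := ⟨(s - M - K0).toNat, Int.toNat_of_nonneg (by omega)⟩
  have hcard : #{k ∈ Icc (-(M : ℤ)) M | ∀ p ∈ F, ¬ (p : ℤ) ∣ k - κ p} ≤ #{x ∈ Ico a (a + (2 * M + 1)) | Q.Coprime x} := by
    apply card_le_card_of_injOn (fun k : ℤ => (k + s - K0).toNat)
    · intro k hk
      simp only [coe_filter, Set.mem_ofPred_eq, mem_Icc] at hk
      obtain ⟨⟨hk1, hk2⟩, hk3⟩ := hk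
      have e : (((k + s - K0).toNat : ℕ) : ℤ) = k + s - K0 := Int.toNat_of_nonneg (by omega)
      simp only [coe_filter, Set.mem_ofPred_eq, mem_Ico]
      refine ⟨⟨by omega, by omega⟩, ?_⟩
      rw [hQ]
      apply Nat.Coprime.prod_left
      intro p hp
      rw [Nat.Prime.coprime_iff_not_dvd (hF p hp)]
      intro hd
      apply hk3 p hp
      have h1 : (p : ℤ) ∣ k + s - K0 := by
        rw [← e]
        exact_mod_cast hd
      have h2 : (p : ℤ) ∣ s := by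
        rw [hs]
        exact dvd_mul_of_dvd_left (by exact_mod_cast hpQ p hp) _
      have : k - κ p = (k + s - K0) - s + (K0 - κ p) := by ring
      rw [this]
      exact dvd_add (dvd_sub h1 h2) (hK0 p hp)
    · intro k hk k' hk' h
      simp only [coe_filter, Set.mem_ofPred_eq, mem_Icc] at hk hk'
      simp only at h
      omega
  have h1 : #{x ∈ Ico a (a + (2 * M + 1)) | Q.Coprime x} ≤ Nat.totient Q * ((2 * M + 1) / Q + 1) :=
    Nat.Ico_filter_coprime_le a (2 * M + 1) hQ0.ne'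
  have h2 : ((Nat.totient Q : ℕ) : ℝ) = Q * ∏ p ∈ F, (1 - 1 / (p : ℝ)) := by
    have h3 := Nat.totient_eq_mul_prod_factors Q
    have h4 : Q.primeFactors = F := by rw [hQ]; exact Nat.primeFactors_prod hF
    rw [h4] at h3
    have h5 : ((Nat.totient Q : ℚ) : ℝ) = (((Q : ℚ) * ∏ p ∈ F, (1 - (p : ℚ)⁻¹) : ℚ) : ℝ) := by rw [h3]
    push_cast at h5
    rw [h5]
    simp only [one_div]
  have hQr : (0 : ℝ) < Q := by exact_mod_cast hQ0
  have hpr : ∏ p ∈ F, (1 - 1 / (p : ℝ)) ≤ 1 := by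
    apply prod_le_one
    · intro p hp
      have h4 : (1 : ℝ) ≤ p := by exact_mod_cast (hF p hp).one_lt.le
      rw [sub_nonneg, div_le_one (by linarith)]
      exact h4
    · intro p hp
      have : (0 : ℝ) ≤ 1 / (p : ℝ) := by positivity
      linarith
  have hpr0 : 0 ≤ ∏ p ∈ F, (1 - 1 / (p : ℝ)) := by
    apply prod_nonneg
    intro p hp
    have h4 : (1 : ℝ) ≤ p := by exact_mod_cast (hF p hp).one_lt.le
    rw [sub_nonneg, div_le_one (by linarith)]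
    exact h4
  have h6 : ((((2 * M + 1) / Q : ℕ) : ℕ) : ℝ) ≤ (2 * M + 1) / Q := by
    have := Nat.cast_div_le (α := ℝ) (m := 2 * M + 1) (n := Q)
    push_cast at this
    exact this
  calc (#{k ∈ Icc (-(M : ℤ)) M | ∀ p ∈ F, ¬ (p : ℤ) ∣ k - κ p} : ℝ) ≤ ((Nat.totient Q * ((2 * M + 1) / Q + 1) : ℕ) : ℝ) := by
        exact_mod_cast hcard.trans h1
    _ = (Q * ∏ p ∈ F, (1 - 1 / (p : ℝ))) * ((((2 * M + 1) / Q : ℕ) : ℝ) + 1) := by
        push_cast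
        rw [h2]
    _ ≤ (Q * ∏ p ∈ F, (1 - 1 / (p : ℝ))) * ((2 * M + 1) / Q + 1) := by
        apply mul_le_mul_of_nonneg_left _ (by positivity)
        linarith
    _ = (∏ p ∈ F, (1 - 1 / (p : ℝ))) * (2 * M + 1) + (∏ p ∈ F, (1 - 1 / (p : ℝ))) * Q := by
        field_simp
    _ ≤ (∏ p ∈ F, (1 - 1 / (p : ℝ))) * (2 * M + 1) + Q := by
        have : (∏ p ∈ F, (1 - 1 / (p : ℝ))) * Q ≤ 1 * Q := mul_le_mul_of_nonneg_right hpr hQr.le
        linarith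
    _ = _ := by rw [hQ]; push_cast; rfl

end Pool.Agent.U637.NR
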