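import Pool.Agent.U637.NR.H1
import Pool.Agent.U637.NR.G9

/-! Local points of `N(z) = c (f(t) + k)` near to the classes which obstruct a cover of the total space. -/

set_option autoImplicit false
set_option linter.unusedSectionVars false

namespace Pool.Agent.U637.NR
open NumberField Finset Polynomial Module TensorProduct
open Pool.Agent.R479.NF (Ix)
open Pool.Agent.Y214.HB (Obs Kind NoRoot Dv evQ toK)
open Pool.Agent.TH204.HP (one_lt_p p_pos)

lemma eval_aeval_X {n : ℕ} (g : ℤ[X]) (v : Fin n → ℤ) (i : Fin n) :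
    MvPolynomial.eval v (Polynomial.aeval (MvPolynomial.X i : MvPolynomial (Fin n) ℤ) g) = g.eval (v i) := by
  rw [Polynomial.aeval_def, Polynomial.hom_eval₂, MvPolynomial.eval_X]
  have : (MvPolynomial.eval v).comp (algebraMap ℤ (MvPolynomial (Fin n) ℤ)) = RingHom.id ℤ := Subsingleton.elim _ _
  rw [this, Polynomial.eval₂_id]

/-- the polynomial `f'(t) z₀` -/
noncomputable def Gx (f : ℤ[X]) (n : ℕ) : MvPolynomial (Fin (n + 2)) ℤ :=
  Polynomial.aeval (MvPolynomial.X 0 : MvPolynomial (Fin (n + 2)) ℤ) (derivative f) * MvPolynomial.X 1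

lemma Gx_eval (f : ℤ[X]) (n : ℕ) (v : Fin (n + 2) → ℤ) : MvPolynomial.eval v (Gx f n) = (derivative f).eval (v 0) * v 1 := by
  rw [Gx, map_mul, eval_aeval_X, MvPolynomial.eval_X]

lemma Gx_ne (f : ℤ[X]) (hf : derivative f ≠ 0) (n : ℕ) : Gx f n ≠ 0 := by
  intro h
  apply hf
  apply Polynomial.funext
  intro x
  have h1 := Gx_eval f n (Function.update (fun _ => (1 : ℤ)) 0 x)
  rw [h, map_zero, Function.update_self, Function.update_of_ne (by simp : (1 : Fin (n + 2)) ≠ 0), mul_one] at h1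
  rw [← h1, eval_zero]

/-- one cover -/
lemma obs_one {n : ℕ} (f : ℤ[X]) (hf : derivative f ≠ 0) (Bs : Finset ℕ)
    {Q : Polynomial (MvPolynomial (Fin (n + 2)) ℤ)} (hQ : Kind Q) (δ : ℝ) (hδ : 0 < δ) :
    ∃ (F : Finset ℕ) (a : ℕ → Fin (n + 2) → ℤ), (∀ p ∈ F, p.Prime ∧ p ∉ Bs ∧ Obs Q p (a p) ∧
      ¬ (p : ℤ) ∣ (derivative f).eval (a p 0) ∧ ¬ (p : ℤ) ∣ a p 1) ∧ ∏ p ∈ F, (1 - 1 / (p : ℝ)) < δ := by
  classical
  have h1 := Pool.Agent.Y932.HB.t_BASE Pool.Agent.Y155.HB.t_SPEC Pool.Agent.Y972.HB.t_NR (n + 1) _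
    (Pool.Agent.R479.NF.kind_mul (Gx_ne f hf n) hQ)
  have h2 := Pool.Agent.Y932.HB.dv_of (T := (Bs : Set ℕ)) (S := {p : ℕ | p ∉ Bs ∧ (p.Prime ∧ ∃ a : Fin (n + 2) → ℤ,
    (∃ i, ¬ (p : ℤ) ∣ a i) ∧ Obs (Polynomial.C (Gx f n) * Q) p a)}) (Finset.finite_toSet Bs) h1
    (fun p hp hpB => ⟨fun h => hpB h, hp⟩)
  obtain ⟨F, hF, hF2⟩ := dv_prod h2 (fun p hp => hp.2.1) δ hδ
  have hex : ∀ p : ℕ, ∃ a : Fin (n + 2) → ℤ, p ∈ F → Obs (Polynomial.C (Gx f n) * Q) p a := by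
    intro p
    by_cases hp : p ∈ F
    · obtain ⟨-, -, a, -, ha⟩ := hF p hp
      exact ⟨a, fun _ => ha⟩
    · exact ⟨0, fun h => absurd h hp⟩
  choose a ha using hex
  refine ⟨F, a, fun p hp => ?_, hF2⟩
  obtain ⟨hob1, hob2⟩ := ha p hp
  obtain ⟨hpB, hpp, -⟩ := hF p hp
  have hG : ¬ (p : ℤ) ∣ MvPolynomial.eval (a p) (Gx f n) := by
    intro hd
    apply hob1
    rw [Polynomial.leadingCoeff_mul, Polynomial.leadingCoeff_C, map_mul]
    exact Dvd.dvd.mul_right hd _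
  rw [Gx_eval] at hG
  refine ⟨hpp, hpB, ⟨fun hd => hob1 ?_, fun w hd => hob2 w ?_⟩, fun hd => hG (Dvd.dvd.mul_right hd _),
    fun hd => hG (Dvd.dvd.mul_left hd _)⟩
  · rw [Polynomial.leadingCoeff_mul, Polynomial.leadingCoeff_C, map_mul]
    exact Dvd.dvd.mul_left hd _
  · rw [Polynomial.map_mul, Polynomial.map_C, Polynomial.eval_mul, Polynomial.eval_C]
    exact Dvd.dvd.mul_left hd _

/-- several covers, disjoint sets of primes -/
lemma obs_fin {n l : ℕ} (f : ℤ[X]) (hf : derivative f ≠ 0) (Bs : Finset ℕ)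
    (Q : Fin l → Polynomial (MvPolynomial (Fin (n + 2)) ℤ)) (hQ : ∀ i, Kind (Q i)) (δ : ℝ) (hδ : 0 < δ) (A : Finset (Fin l)) :
    ∃ (F : Fin l → Finset ℕ) (a : Fin l → ℕ → Fin (n + 2) → ℤ), (∀ i ∈ A, ∀ p ∈ F i, p.Prime ∧ p ∉ Bs ∧ Obs (Q i) p (a i p) ∧
      ¬ (p : ℤ) ∣ (derivative f).eval (a i p 0) ∧ ¬ (p : ℤ) ∣ a i p 1) ∧ (∀ i ∈ A, ∏ p ∈ F i, (1 - 1 / (p : ℝ)) < δ) ∧
      ∀ i ∈ A, ∀ j ∈ A, i ≠ j → Disjoint (F i) (F j) := by
  classical
  induction A using Finset.induction_on with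
  | empty => exact ⟨fun _ => ∅, fun _ _ => 0, by simp, by simp, by simp⟩
  | insert i A hi ih =>
    obtain ⟨F, a, h1, h2, h3⟩ := ih
    obtain ⟨F0, a0, h4, h5⟩ := obs_one f hf (Bs ∪ A.biUnion F) (hQ i) δ hδ
    have hne : ∀ j ∈ A, j ≠ i := fun j hj h => hi (h ▸ hj)
    have hdis : ∀ j ∈ A, Disjoint F0 (F j) := by
      intro j hj
      rw [Finset.disjoint_left]
      intro p hp hpj
      exact (h4 p hp).2.1 (mem_union_right _ (mem_biUnion.2 ⟨j, hj, hpj⟩))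
    refine ⟨Function.update F i F0, Function.update a i a0, ?_, ?_, ?_⟩
    · intro j hj p hp
      rcases Finset.mem_insert.1 hj with rfl | hj
      · rw [Function.update_self] at hp
        rw [Function.update_self]
        obtain ⟨h6, h7, h8⟩ := h4 p hp
        exact ⟨h6, fun h => h7 (mem_union_left _ h), h8⟩
      · rw [Function.update_of_ne (hne j hj)] at hp
        rw [Function.update_of_ne (hne j hj)]
        exact h1 j hj p hp
    · intro j hj
      rcases Finset.mem_insert.1 hj with rfl | hj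
      · rw [Function.update_self]
        exact h5
      · rw [Function.update_of_ne (hne j hj)]
        exact h2 j hj
    · intro j hj j' hj' hjj
      rcases Finset.mem_insert.1 hj with g1 | g1
      · rcases Finset.mem_insert.1 hj' with g2 | g2
        · exact absurd (g1.trans g2.symm) hjj
        · rw [g1, Function.update_self, Function.update_of_ne (hne j' g2)]
          exact hdis j' g2
      · rcases Finset.mem_insert.1 hj' with g2 | g2
        · rw [g2, Function.update_self, Function.update_of_ne (hne j g1)]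
          exact (hdis j g1).symm
        · rw [Function.update_of_ne (hne j g1), Function.update_of_ne (hne j' g2)]
          exact h3 j g1 j' g2 hjj

section
variable {K : Type} [Field K] [NumberField K]

/-- the integer of `K` with the coordinates `a₁, …` -/
noncomputable def za {n : ℕ} (e : Fin (n + 1) ≃ Ix K) (a : Fin (n + 2) → ℤ) : 𝓞 K :=
  ∑ j, a (e.symm j).succ • RingOfIntegers.basis K j

lemma za_repr {n : ℕ} (e : Fin (n + 1) ≃ Ix K) (a : Fin (n + 2) → ℤ) (j : Ix K) :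
    (RingOfIntegers.basis K).repr (za e a) j = a (e.symm j).succ := by
  rw [za, Basis.repr_sum_self]

lemma za_ne {n : ℕ} (e : Fin (n + 1) ≃ Ix K) (a : Fin (n + 2) → ℤ) (h : a 1 ≠ 0) : za e a ≠ 0 := by
  intro h0
  have h1 := za_repr e a (e 0)
  rw [h0, map_zero, Finsupp.zero_apply, e.symm_apply_apply] at h1
  exact h h1.symm

lemma co_za {n : ℕ} (e : Fin (n + 1) ≃ Ix K) (a : Fin (n + 2) → ℤ) (p : ℕ) [Fact p.Prime] (j : Ix K) :
    co ((1 : ℚ_[p]) ⊗ₜ[ℚ] ((za e a : 𝓞 K) : K)) j = (a (e.symm j).succ : ℚ_[p]) := by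
  rw [co, Algebra.TensorProduct.basis_repr_tmul]
  have h1 : (integralBasis K).repr ((za e a : 𝓞 K) : K) j = ((a (e.symm j).succ : ℤ) : ℚ) := by
    rw [← za_repr e a j]
    exact integralBasis_repr_apply K (za e a) j
  rw [Finsupp.smul_apply, Finsupp.mapRange_apply, h1]
  simp

lemma hens (f : ℤ[X]) (c : ℤ) {p : ℕ} [hp : Fact p.Prime] (hpc : ¬ (p : ℤ) ∣ c) (k a0 m : ℤ)
    (h0 : (p : ℤ) ∣ c * (f.eval a0 + k) - m) (h1 : ¬ (p : ℤ) ∣ (derivative f).eval a0) :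
    ∃ t : ℚ_[p], ‖t‖ ≤ 1 ∧ ‖t - (a0 : ℚ_[p])‖ < 1 ∧ (m : ℚ_[p]) = (c : ℚ_[p]) * (aeval t f + (k : ℚ_[p])) := by
  obtain ⟨F, hF⟩ : ∃ F : ℤ[X], F = C c * (f + C k) - C m := ⟨_, rfl⟩
  have e1 : Polynomial.aeval ((a0 : ℤ) : ℤ_[p]) F = ((c * (f.eval a0 + k) - m : ℤ) : ℤ_[p]) := by
    rw [hF]
    simp only [map_sub, map_mul, map_add, aeval_C]
    have : aeval ((a0 : ℤ) : ℤ_[p]) f = ((f.eval a0 : ℤ) : ℤ_[p]) := by
      rw [← eq_intCast (algebraMap ℤ ℤ_[p]) a0, Polynomial.aeval_algebraMap_apply, Polynomial.coe_aeval_eq_eval, eq_intCast]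
    rw [this]
    simp only [eq_intCast]
    push_cast
    ring
  have e2 : Polynomial.aeval ((a0 : ℤ) : ℤ_[p]) (derivative F) = ((c * (derivative f).eval a0 : ℤ) : ℤ_[p]) := by
    rw [hF]
    simp only [derivative_sub, derivative_C_mul, derivative_add, derivative_C, add_zero, sub_zero, map_mul, aeval_C]
    have : aeval ((a0 : ℤ) : ℤ_[p]) (derivative f) = (((derivative f).eval a0 : ℤ) : ℤ_[p]) := by
      rw [← eq_intCast (algebraMap ℤ ℤ_[p]) a0, Polynomial.aeval_algebraMap_apply, Polynomial.coe_aeval_eq_eval, eq_intCast]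
    rw [this]
    simp only [eq_intCast]
    push_cast
    ring
  have n1 : ‖Polynomial.aeval ((a0 : ℤ) : ℤ_[p]) F‖ < 1 := by
    rw [e1]
    exact (PadicInt.norm_int_lt_one_iff_dvd _).2 h0
  have n2 : ‖Polynomial.aeval ((a0 : ℤ) : ℤ_[p]) (derivative F)‖ = 1 := by
    rw [e2]
    refine le_antisymm (PadicInt.norm_le_one _) ?_
    by_contra h
    rcases (Nat.prime_iff_prime_int.1 hp.out).dvd_or_dvd ((PadicInt.norm_int_lt_one_iff_dvd _).1 (not_le.1 h)) with h2 | h2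
    · exact hpc h2
    · exact h1 h2
  obtain ⟨z0, hz1, hz2, -⟩ := hensels_lemma (F := F) (a := ((a0 : ℤ) : ℤ_[p]))
    (by rw [n2, one_pow]; exact n1)
  rw [n2] at hz2
  refine ⟨(z0 : ℚ_[p]), PadicInt.norm_le_one _, ?_, ?_⟩
  · have h3 : ((z0 : ℤ_[p]) : ℚ_[p]) - (a0 : ℚ_[p]) = ((z0 - ((a0 : ℤ) : ℤ_[p]) : ℤ_[p]) : ℚ_[p]) := by
      push_cast
      rfl
    rw [h3, ← PadicInt.norm_def]
    exact hz2
  · have h4 : ((aeval z0 F : ℤ_[p]) : ℚ_[p]) = 0 := by rw [hz1]; rfl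
    have h5 : ((aeval z0 F : ℤ_[p]) : ℚ_[p]) = aeval ((z0 : ℤ_[p]) : ℚ_[p]) F := by
      have := Polynomial.aeval_algHom_apply (PadicInt.Coe.ringHom.toIntAlgHom : ℤ_[p] →ₐ[ℤ] ℚ_[p]) z0 F
      exact this.symm
    rw [h5, hF] at h4
    simp only [map_sub, map_mul, map_add, aeval_C] at h4
    simp only [eq_intCast] at h4
    linear_combination -h4

end

end Pool.Agent.U637.NR
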