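import Pool.Agent.U637.NR.H2

/-! Rational points of `N(z) = c (f(t) + k)` outside thin sets of the total space, for almost all `k`. -/

set_option autoImplicit false
set_option linter.unusedSectionVars false

namespace Pool.Agent.U637.NR
open NumberField Finset Polynomial Module TensorProduct
open Pool.Agent.R479.NF (Ix)
open Pool.Agent.Y214.HB (Obs Kind NoRoot Dv evQ toK)
open Pool.Agent.TH204.HP (one_lt_p p_pos)

variable {K : Type} [Field K] [NumberField K]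

/-- the coordinates of the rational point -/
noncomputable def pt {n : ℕ} (e : Fin (n + 1) ≃ Ix K) (q : ℚ) (y : K) : Fin (n + 2) → ℚ :=
  Fin.cons q (fun j => (integralBasis K).repr y (e j))

lemma exists_kap (f : ℤ[X]) (c : ℤ) {p : ℕ} (hp : p.Prime) (hpc : ¬ (p : ℤ) ∣ c) (a0 m : ℤ) :
    ∃ κ : ℤ, ∀ k : ℤ, (p : ℤ) ∣ k - κ → (p : ℤ) ∣ c * (f.eval a0 + k) - m := by
  have hpp : Prime (p : ℤ) := Nat.prime_iff_prime_int.1 hp
  obtain ⟨u, v, huv⟩ := (Irreducible.coprime_iff_not_dvd hpp.irreducible).2 hpc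
  refine ⟨v * m - f.eval a0, fun k hk => ?_⟩
  have : c * (f.eval a0 + k) - m = c * (k - (v * m - f.eval a0)) - p * (u * m) := by
    linear_combination m * huv
  rw [this]
  exact dvd_sub (dvd_mul_of_dvd_right hk _) (dvd_mul_right _ _)

/-- a local point in the class `a` -/
lemma loc_za {n : ℕ} (e : Fin (n + 1) ≃ Ix K) (f : ℤ[X]) (c : ℤ) {p : ℕ} [hp : Fact p.Prime] (hpc : ¬ (p : ℤ) ∣ c)
    (a : Fin (n + 2) → ℤ) (ha : ¬ (p : ℤ) ∣ a 1) (h1 : ¬ (p : ℤ) ∣ (derivative f).eval (a 0)) (k : ℤ)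
    (h0 : (p : ℤ) ∣ c * (f.eval (a 0) + k) - Algebra.norm ℤ (za e a)) (N : ℕ) (hN : (Algebra.norm ℤ (za e a)).natAbs ≤ N) :
    ∃ t : ℚ_[p], ‖t - (a 0 : ℚ_[p])‖ < 1 ∧ Lv K f c N k p t ((1 : ℚ_[p]) ⊗ₜ[ℚ] ((za e a : 𝓞 K) : K)) := by
  obtain ⟨t, ht1, ht2, ht3⟩ := hens f c hpc k (a 0) (Algebra.norm ℤ (za e a)) h0 h1
  have hz : za e a ≠ 0 := za_ne e a (fun h => ha (by rw [h]; exact dvd_zero _))
  have hm : Algebra.norm ℤ (za e a) ≠ 0 := by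
    rw [Ne, Algebra.norm_eq_zero_iff]
    exact hz
  have hp1 : (1 : ℝ) < p := one_lt_p
  have hmp : ((Algebra.norm ℤ (za e a) : ℤ) : ℚ_[p]) ≠ 0 := by exact_mod_cast hm
  have hfk : aeval t f + (k : ℚ_[p]) ≠ 0 := by
    intro h
    rw [h, mul_zero] at ht3
    exact hmp ht3
  have hcn : ‖(c : ℚ_[p])‖ = 1 := by
    refine le_antisymm (Padic.norm_int_le_one _) ?_
    by_contra h
    exact hpc (Padic.norm_intCast_lt_one_iff.1 (not_le.1 h))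
  refine ⟨t, ht2, ⟨hfk, ?_⟩, ht1.trans (one_le_pow₀ hp1.le), fun j => ?_, ?_⟩
  · rw [Pool.Agent.R479.NF.norm_one_tmul, ← ht3, ← Algebra.coe_norm_int]
    simp
  · rw [co_za]
    exact (Padic.norm_int_le_one _).trans (one_le_pow₀ hp1.le)
  · have h2 : ‖aeval t f + (k : ℚ_[p])‖ = ‖((Algebra.norm ℤ (za e a) : ℤ) : ℚ_[p])‖ := by
      rw [ht3, norm_mul, hcn, one_mul]
    rw [h2]
    refine le_trans ?_ (norm_int_ge _ hm)
    exact inv_anti₀ (pow_pos p_pos _) (pow_le_pow_right₀ hp1.le hN)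

open Classical in
/-- **rational points outside thin sets** -/
theorem wa_thin (f : ℤ[X]) (hd : 2 ≤ f.natDegree) (c : ℤ) (hc : c ≠ 0) (T : Finset Nat.Primes) (N B : ℕ) (hB : 1 ≤ B)
    {n : ℕ} (e : Fin (n + 1) ≃ Ix K) (P : Polynomial (MvPolynomial (Fin (n + 2)) ℤ)) (hP : NoRoot P) :
    AA f.natDegree B (fun _ k => ∀ (t : (p : Nat.Primes) → ℚ_[(p : ℕ)]) (z : (p : Nat.Primes) → ℚ_[(p : ℕ)] ⊗[ℚ] K)
      (tr : ℝ) (zr : ℝ ⊗[ℚ] K), (∀ p : Nat.Primes, OnV K f c k (t p) (z p)) →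
      (∀ p ∈ T, Lv K f c N k (p : ℕ) (t p) (z p)) → OnV K f c k tr zr →
      ∃ (q : ℚ) (y : K), aeval q f + (k : ℚ) ≠ 0 ∧ Algebra.norm ℚ y = (c : ℚ) * (aeval q f + (k : ℚ)) ∧
        (∀ σ : K →+* ℝ, 0 < σ y ↔ 0 < ev σ zr) ∧
        (∀ p ∈ T, ‖(q : ℚ_[(p : ℕ)]) - t p‖ ≤ (((p : ℕ) : ℝ) ^ N)⁻¹ ∧
          ∀ j, ‖(((integralBasis K).repr y j : ℚ) : ℚ_[(p : ℕ)]) - co (z p) j‖ ≤ (((p : ℕ) : ℝ) ^ N)⁻¹) ∧
        ∀ w : ℚ, (P.map (evQ (pt e q y))).eval w ≠ 0) := by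
  have hdf : derivative f ≠ 0 := by
    intro h
    have := Polynomial.derivative_eq_zero.1 h
    omega
  obtain ⟨l, Q, G, hcP, hQ⟩ := Pool.Agent.Y945.HB.t_FAC (n + 1) P hP
  intro ε hε
  obtain ⟨Bs, hBs⟩ : ∃ Bs : Finset ℕ, Bs = T.image (fun q : Nat.Primes => (q : ℕ)) ∪ c.natAbs.primeFactors := ⟨_, rfl⟩
  obtain ⟨δ, hδ⟩ : ∃ δ : ℝ, δ = ε / (12 * B * (l + 1)) := ⟨_, rfl⟩
  have hBr : (1 : ℝ) ≤ B := by exact_mod_cast hB
  have hδ0 : 0 < δ := by rw [hδ]; positivity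
  obtain ⟨F, a, hF1, hF2, hF3⟩ := obs_fin f hdf Bs Q hQ δ hδ0 univ
  have hpc : ∀ i, ∀ p ∈ F i, ¬ (p : ℤ) ∣ c := by
    intro i p hp hd
    obtain ⟨hpp, hpB, -⟩ := hF1 i (mem_univ _) p hp
    apply hpB
    rw [hBs]
    exact mem_union_right _ (Nat.mem_primeFactors.2 ⟨hpp, Int.natCast_dvd.1 hd, Int.natAbs_ne_zero.2 hc⟩)
  have hκ : ∀ (i : Fin l) (p : ℕ), ∃ κ : ℤ, p ∈ F i → ∀ k : ℤ, (p : ℤ) ∣ k - κ →
      (p : ℤ) ∣ c * (f.eval (a i p 0) + k) - Algebra.norm ℤ (za e (a i p)) := by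
    intro i p
    by_cases hp : p ∈ F i
    · obtain ⟨κ, h⟩ := exists_kap f c (hF1 i (mem_univ _) p hp).1 (hpc i p hp) (a i p 0) (Algebra.norm ℤ (za e (a i p)))
      exact ⟨κ, fun _ => h⟩
    · exact ⟨0, fun h => absurd h hp⟩
  choose κ hκ using hκ
  obtain ⟨Tall, hTall⟩ : ∃ Tall : Finset Nat.Primes, ∀ p : Nat.Primes, p ∈ Tall ↔ p ∈ T ∨ ∃ i, (p : ℕ) ∈ F i := by
    have hfin : {p : Nat.Primes | (p : ℕ) ∈ univ.biUnion F}.Finite :=
      Set.Finite.preimage (Function.Injective.injOn Nat.Primes.coe_nat_injective) (finite_toSet (univ.biUnion F))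
    refine ⟨T ∪ hfin.toFinset, fun p => ?_⟩
    rw [mem_union, Set.Finite.mem_toFinset]
    apply or_congr_right
    show (p : ℕ) ∈ univ.biUnion F ↔ _
    rw [mem_biUnion]
    simp
  obtain ⟨N2, hN2⟩ : ∃ N2 : ℕ, N2 = N + 1 + ∑ i, ∑ p ∈ F i, (Algebra.norm ℤ (za e (a i p))).natAbs := ⟨_, rfl⟩
  have hNa : ∀ i, ∀ p ∈ F i, (Algebra.norm ℤ (za e (a i p))).natAbs ≤ N2 := by
    intro i p hp
    have h1 := single_le_sum (f := fun p => (Algebra.norm ℤ (za e (a i p))).natAbs) (fun _ _ => Nat.zero_le _) hp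
    have h2 := single_le_sum (f := fun i => ∑ p ∈ F i, (Algebra.norm ℤ (za e (a i p))).natAbs) (fun _ _ => Nat.zero_le _) (mem_univ i)
    omega
  have hAA := AA.forall (d := f.natDegree) (B := B) Tall.powerset (fun A _ k => ∀ (t : (p : Nat.Primes) → ℚ_[(p : ℕ)])
      (z : (p : Nat.Primes) → ℚ_[(p : ℕ)] ⊗[ℚ] K) (tr : ℝ) (zr : ℝ ⊗[ℚ] K), (∀ p : Nat.Primes, OnV K f c k (t p) (z p)) →
      (∀ p ∈ A, Lv K f c N2 k (p : ℕ) (t p) (z p)) → OnV K f c k tr zr → Gp K f c A N2 k t z zr)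
    (fun A _ => wa_all (K := K) f hd c hc A N2 B hB)
  obtain ⟨X0, hX0⟩ := hAA (ε / 2) (by positivity)
  obtain ⟨Cc, hCc⟩ : ∃ Cc : ℝ, Cc = ∑ i, ∏ p ∈ F i, (p : ℝ) := ⟨_, rfl⟩
  obtain ⟨X1, hX1⟩ := exists_nat_gt (4 * Cc / ε)
  refine ⟨max X0 (X1 + 1), fun X hX => ?_⟩
  obtain ⟨Bad, hBad1, hBad2⟩ := hX0 X ((le_max_left _ _).trans hX)
  have hXX : X1 + 1 ≤ X := (le_max_right _ _).trans hX
  have hXr : (1 : ℝ) ≤ X := by exact_mod_cast (by omega : 1 ≤ X)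
  have hXd : (X : ℝ) ≤ (X : ℝ) ^ f.natDegree := le_self_pow₀ hXr (by omega)
  obtain ⟨M, hM⟩ : ∃ M : ℕ, M = B * X ^ f.natDegree := ⟨_, rfl⟩
  obtain ⟨E, hE⟩ : ∃ E : Fin l → Finset ℤ, ∀ i, E i = {k ∈ Icc (-(M : ℤ)) M | ∀ p ∈ F i, ¬ (p : ℤ) ∣ k - κ i p} := ⟨_, fun _ => rfl⟩
  have hEc : ∀ i, (#(E i) : ℝ) ≤ δ * (3 * (B * (X : ℝ) ^ f.natDegree)) + ∏ p ∈ F i, (p : ℝ) := by
    intro i
    rw [hE i]
    have h1 := sieve (F i) (fun p hp => (hF1 i (mem_univ _) p hp).1) (κ i) M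
    have h2 : (M : ℝ) = B * (X : ℝ) ^ f.natDegree := by rw [hM]; push_cast; rfl
    have h3 : (1 : ℝ) ≤ B * (X : ℝ) ^ f.natDegree := by
      have : (1 : ℝ) ≤ (X : ℝ) ^ f.natDegree := one_le_pow₀ hXr
      nlinarith
    have h4 := (hF2 i (mem_univ _)).le
    have h5 : (∏ p ∈ F i, (1 - 1 / (p : ℝ))) * (2 * M + 1) ≤ δ * (3 * (B * (X : ℝ) ^ f.natDegree)) := by
      rw [h2]
      calc (∏ p ∈ F i, (1 - 1 / (p : ℝ))) * (2 * (B * (X : ℝ) ^ f.natDegree) + 1) ≤ δ * (2 * (B * (X : ℝ) ^ f.natDegree) + 1) :=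
            mul_le_mul_of_nonneg_right h4 (by linarith)
        _ ≤ δ * (3 * (B * (X : ℝ) ^ f.natDegree)) := mul_le_mul_of_nonneg_left (by linarith) hδ0.le
    linarith
  refine ⟨Bad ∪ univ.biUnion E, ?_, fun k hk hkB t z tr zr hV hT hr => ?_⟩
  · have h1 : (#(Bad ∪ univ.biUnion E) : ℝ) ≤ #Bad + ∑ i, (#(E i) : ℝ) := by
      have h2 : #(Bad ∪ univ.biUnion E) ≤ #Bad + ∑ i, #(E i) :=
        (card_union_le _ _).trans (Nat.add_le_add_left card_biUnion_le _)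
      exact_mod_cast h2
    have h2 : ∑ i, (#(E i) : ℝ) ≤ l * (δ * (3 * (B * (X : ℝ) ^ f.natDegree))) + Cc := by
      calc ∑ i, (#(E i) : ℝ) ≤ ∑ i : Fin l, (δ * (3 * (B * (X : ℝ) ^ f.natDegree)) + ∏ p ∈ F i, (p : ℝ)) := sum_le_sum fun i _ => hEc i
        _ = _ := by rw [sum_add_distrib, hCc]; simp
    have h3 : (l : ℝ) * (δ * (3 * (B * (X : ℝ) ^ f.natDegree))) ≤ ε / 4 * (X : ℝ) ^ f.natDegree := by
      have h4 : (l : ℝ) * (δ * (3 * (B * (X : ℝ) ^ f.natDegree))) = (l / (l + 1)) * (ε / 4 * (X : ℝ) ^ f.natDegree) := by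
        rw [hδ]
        field_simp
        ring
      rw [h4]
      have h5 : (l : ℝ) / (l + 1) ≤ 1 := by
        rw [div_le_one (by positivity)]
        linarith
      exact mul_le_of_le_one_left (by positivity) h5
    have h4 : Cc ≤ ε / 4 * (X : ℝ) ^ f.natDegree := by
      have h5 : 4 * Cc / ε ≤ (X : ℝ) ^ f.natDegree := by
        have h6 : (X1 : ℝ) ≤ X := by exact_mod_cast (by omega : X1 ≤ X)
        linarith
      rw [div_le_iff₀ hε] at h5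
      linarith
    linarith
  · rw [mem_union, not_or] at hkB
    have hkM : |k| ≤ (M : ℤ) := by rw [hM]; exact hk
    have hpi : ∀ i : Fin l, ∃ p ∈ F i, (p : ℤ) ∣ k - κ i p := by
      intro i
      by_contra hcon
      push Not at hcon
      apply hkB.2
      rw [mem_biUnion]
      refine ⟨i, mem_univ _, ?_⟩
      rw [hE i, mem_filter, mem_Icc]
      exact ⟨abs_le.1 hkM, hcon⟩
    choose π hπ1 hπ2 using hpi
    obtain ⟨A, hA⟩ : ∃ A : Finset Nat.Primes, A = Tall.filter (fun p => p ∈ T ∨ ∃ i, (p : ℕ) = π i) := ⟨_, rfl⟩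
    have hAT : A ∈ Tall.powerset := by rw [hA, mem_powerset]; exact filter_subset _ _
    have hAm : ∀ p : Nat.Primes, p ∈ A ↔ p ∈ T ∨ ∃ i, (p : ℕ) = π i := by
      intro p
      rw [hA, mem_filter, hTall]
      constructor
      · exact fun h => h.2
      · intro h
        refine ⟨?_, h⟩
        rcases h with h | ⟨i, hi⟩
        · exact Or.inl h
        · exact Or.inr ⟨i, by rw [hi]; exact hπ1 i⟩
    have hloc : ∀ p : Nat.Primes, ∃ (tp : ℚ_[(p : ℕ)]) (zp : ℚ_[(p : ℕ)] ⊗[ℚ] K), OnV K f c k tp zp ∧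
        (p ∈ A → Lv K f c N2 k (p : ℕ) tp zp) ∧ (p ∈ T → tp = t p ∧ zp = z p) ∧
        ∀ i, (p : ℕ) = π i → ‖tp - (a i p 0 : ℚ_[(p : ℕ)])‖ < 1 ∧ zp = (1 : ℚ_[(p : ℕ)]) ⊗ₜ[ℚ] ((za e (a i p) : 𝓞 K) : K) := by
      intro p
      by_cases hpi : ∃ i, (p : ℕ) = π i
      · obtain ⟨i, hi⟩ := hpi
        have hpF : (p : ℕ) ∈ F i := by rw [hi]; exact hπ1 i
        obtain ⟨hpp, hpB, hob, hder, ha1⟩ := hF1 i (mem_univ _) p hpF
        obtain ⟨tp, h1, h2⟩ := loc_za e f c (p := (p : ℕ)) (hpc i p hpF) (a i p) ha1 hder k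
          (hκ i p hpF k (by have := hπ2 i; rwa [← hi] at this)) N2 (hNa i p hpF)
        refine ⟨tp, _, h2.1, fun _ => h2, fun hpT => ?_, fun i' hi' => ?_⟩
        · exfalso
          apply hpB
          rw [hBs]
          exact mem_union_left _ (mem_image_of_mem (fun q : Nat.Primes => (q : ℕ)) hpT)
        · have hii : i' = i := by
            by_contra hne
            have h3 := hF3 i' (mem_univ _) i (mem_univ _) hne
            rw [Finset.disjoint_left] at h3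
            exact h3 (by rw [hi']; exact hπ1 i') hpF
          rw [hii]
          exact ⟨h1, rfl⟩
      · refine ⟨t p, z p, hV p, fun hpA => ?_, fun _ => ⟨rfl, rfl⟩, fun i hi => absurd ⟨i, hi⟩ hpi⟩
        rcases (hAm p).1 hpA with h | h
        · exact (hT p h).mono (by omega)
        · exact absurd h hpi
    choose t2 z2 hl1 hl2 hl3 hl4 using hloc
    obtain ⟨q, y, h1, h2, h3, h4⟩ := hBad2 k hk hkB.1 A hAT t2 z2 tr zr hl1 hl2 hr
    refine ⟨q, y, h1, h2, h3, fun p hp => ?_, fun w h0 => ?_⟩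
    · have hpA : p ∈ A := (hAm p).2 (Or.inl hp)
      obtain ⟨h5, h6⟩ := h4 p hpA
      obtain ⟨h7, h8⟩ := hl3 p hp
      rw [h7] at h5
      rw [h8] at h6
      have hp1 : (1 : ℝ) < ((p : ℕ) : ℝ) := by exact_mod_cast p.2.one_lt
      have hle : (((p : ℕ) : ℝ) ^ N2)⁻¹ ≤ (((p : ℕ) : ℝ) ^ N)⁻¹ :=
        inv_anti₀ (by positivity) (pow_le_pow_right₀ hp1.le (by omega))
      exact ⟨h5.trans hle, fun j => (h6 j).trans hle⟩
    · have hne : ∀ i : Fin l, ((Q i).map (evQ (pt e q y))).eval w ≠ 0 := by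
        intro i
        obtain ⟨hpp, hpB, hob, hder, ha1⟩ := hF1 i (mem_univ _) (π i) (hπ1 i)
        obtain ⟨p, hp⟩ : ∃ p : Nat.Primes, (p : ℕ) = π i := ⟨⟨π i, hpp⟩, rfl⟩
        rw [← hp] at hob
        have hpA : p ∈ A := (hAm p).2 (Or.inr ⟨i, hp⟩)
        obtain ⟨h5, h6⟩ := h4 p hpA
        obtain ⟨h7, h8⟩ := hl4 p i hp
        have : Fact (p : ℕ).Prime := ⟨p.2⟩
        have hp1 : (1 : ℝ) < ((p : ℕ) : ℝ) := by exact_mod_cast p.2.one_lt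
        have hlt : (((p : ℕ) : ℝ) ^ N2)⁻¹ < 1 := inv_lt_one_of_one_lt₀ (one_lt_pow₀ hp1 (by omega))
        refine Pool.Agent.Y420.HB.t_LOC (n + 1) (Q i) p (a i p) hob (pt e q y) (fun j => ?_) w
        refine Fin.cases ?_ (fun j => ?_) j
        · have e1 : (((pt e q y) 0 : ℚ) : ℚ_[(p : ℕ)]) - (a i p 0 : ℚ_[(p : ℕ)]) = ((q : ℚ_[(p : ℕ)]) - t2 p) + (t2 p - (a i p 0 : ℚ_[(p : ℕ)])) := by
            rw [pt, Fin.cons_zero]
            ring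
          rw [e1]
          exact (Padic.nonarchimedean _ _).trans_lt (max_lt (h5.trans_lt hlt) h7)
        · have h9 := h6 (e j)
          rw [h8, co_za, e.symm_apply_apply] at h9
          rw [pt, Fin.cons_succ]
          exact h9.trans_lt hlt
      have h5 := congrArg (fun R : Polynomial (MvPolynomial (Fin (n + 2)) ℤ) => (R.map (evQ (pt e q y))).eval w) hcP
      simp only [Polynomial.map_mul, Polynomial.eval_mul, h0, mul_zero, Polynomial.map_prod, Polynomial.eval_prod] at h5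
      exact (Finset.prod_ne_zero_iff.2 fun i _ => hne i) h5.symm

end Pool.Agent.U637.NR
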