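import Pool.Agent.U637.TP.A5

/-! Transference for all integral constant terms (of both signs). -/

set_option autoImplicit false

namespace Pool.Agent.U637.NR
open Finset Polynomial
open Pool.Agent.H373R2.NB
open Pool.Agent.Helper602.MK (ee PP)
open Pool.Agent.Helper602.MK.N_J5b (ee_add ee_int norm_ee ee_conj)
open Pool.Agent.H373R2.T7 (cf abs_eval_le)
open Pool.Agent.U637.TP

/-- the second moment over the constant terms -/
theorem l2Z (f : ℤ[X]) (hd : 1 ≤ f.natDegree)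
    (hl : 0 < f.leadingCoeff) (B : ℕ) (hB : 1 ≤ B) (ε : ℝ) (hε : 0 < ε) :
    ∃ Q0 : ℕ, ∀ h : ℕ → ℝ, (∀ p, |h p| ≤ 1) → MZ Q0 h → ∃ x0 : ℕ, ∀ x : ℕ, x0 ≤ x → ∀ σ : ℤ, (σ = 1 ∨ σ = -1) → ∀ A : ℕ, A ≤ B * x ^ f.natDegree →
      ∑ a ∈ Icc (-(A : ℤ)) A, (∑ n ∈ Icc 1 x, hv h ((B + cf f) * x ^ f.natDegree) (a + σ * f.eval (n : ℤ))) ^ 2 ≤
        ε * (x : ℝ) ^ f.natDegree * (x / Real.log x) ^ 2 := by
  classical
  set d := f.natDegree with hdd
  set K0 : ℕ := B + cf f with hK0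
  have hK01 : 1 ≤ K0 := by omega
  have hK0r : (1 : ℝ) ≤ K0 := by exact_mod_cast hK01
  obtain ⟨C, hC, k0, hk0, hfew⟩ := few_wt
  obtain ⟨K, m, hK, hm, hcount⟩ := count_large f hd hl (3 * K0) (by omega)
  -- choice of the level
  set ε' : ℝ := ε / K0 with hε'
  have hε'0 : 0 < ε' := by positivity
  obtain ⟨J, hJ⟩ : ∃ J : ℕ, 2 * C * (2 * K + m + 1) * (1 / 2 : ℝ) ^ J ≤ ε' / 2 := by
    have h1 : (0 : ℝ) < 2 * C * (2 * K + m + 1) := by positivity
    obtain ⟨J, hJ⟩ := exists_pow_lt_of_lt_one (show (0 : ℝ) < ε' / 2 / (2 * C * (2 * K + m + 1)) by positivity)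
      (show (1 / 2 : ℝ) < 1 by norm_num)
    refine ⟨J, ?_⟩
    rw [lt_div_iff₀ h1] at hJ
    linarith
  obtain ⟨Q0, hnear⟩ := near f hd hl (3 * K0) (by omega) ((2 : ℝ) ^ J) (one_le_pow₀ (by norm_num))
  set ε2 : ℝ := min 1 (ε' / (2 * (K * ((2 : ℝ) ^ J) ^ m + 1))) with hε2
  have hε20 : 0 < ε2 := by positivity
  refine ⟨Q0, fun h hh hz => ?_⟩
  obtain ⟨k1, hmaj⟩ := major Q0 h hh hz ε2 hε20
  refine ⟨max (max k0 k1) 2, fun x hx σ hσ A hA => ?_⟩
  have hx2 : 2 ≤ x := (le_max_right _ _).trans hx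
  have hx1 : 1 ≤ x := by omega
  have hxk : x ≤ K0 * x ^ d := by
    calc x = 1 * x ^ 1 := by ring
      _ ≤ K0 * x ^ d := Nat.mul_le_mul hK01 (Nat.pow_le_pow_right (by omega) hd)
  set k : ℕ := K0 * x ^ d with hk
  have hkk0 : k0 ≤ k := ((le_max_left _ _).trans ((le_max_left _ _).trans hx)).trans hxk
  have hkk1 : k1 ≤ k := ((le_max_right _ _).trans ((le_max_left _ _).trans hx)).trans hxk
  have hk2 : 2 ≤ k := hx2.trans hxk
  set M : ℕ := 2 * k + 1 with hM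
  have : NeZero M := ⟨by omega⟩
  have hM3 : M ≤ 3 * K0 * x ^ d := by
    have : 3 * K0 * x ^ d = 3 * k := by rw [hk]; ring
    omega
  have hxr : (0 : ℝ) < x := by exact_mod_cast (by omega : 0 < x)
  have hkr : (0 : ℝ) < k := by exact_mod_cast (by omega : 0 < k)
  have hMr : (0 : ℝ) < M := by exact_mod_cast (by omega : 0 < M)
  have hlk : 0 < Real.log k := Real.log_pos (by exact_mod_cast (by omega : 1 < k))
  have hlx : 0 < Real.log x := Real.log_pos (by exact_mod_cast (by omega : 1 < x))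
  have hcf : ∀ n ∈ Icc 1 x, |f.eval (n : ℤ)| ≤ ((cf f * x ^ d : ℕ) : ℤ) := by
    intro n hn
    rw [mem_Icc] at hn
    refine (abs_eval_le f n hn.1).trans ?_
    push_cast
    apply mul_le_mul_of_nonneg_left _ (by positivity)
    have : (n : ℤ) ≤ x := by exact_mod_cast hn.2
    exact pow_le_pow_left₀ (by positivity) this _
  -- transfer to `ZMod M`
  have hpt : ∀ a ∈ Icc (-(A : ℤ)) A, ∀ n ∈ Icc 1 x, hv h k (a + σ * f.eval (n : ℤ)) =
      wt h k M ((a : ZMod M) + ((σ * f.eval (n : ℤ) : ℤ) : ZMod M)) := by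
    intro a ha n hn
    rw [mem_Icc] at ha
    have h1 : |σ * f.eval (n : ℤ)| ≤ ((cf f * x ^ d : ℕ) : ℤ) := by
      rw [abs_mul]
      have : |σ| = 1 := by rcases hσ with rfl | rfl <;> rfl
      rw [this, one_mul]
      exact hcf n hn
    have h2 : |a + σ * f.eval (n : ℤ)| ≤ k := by
      refine (abs_add_le _ _).trans ?_
      have h4' : |a| ≤ (A : ℤ) := abs_le.2 ha
      have h4 : |a| ≤ ((B * x ^ d : ℕ) : ℤ) := h4'.trans (by exact_mod_cast hA)
      have h5 : (k : ℤ) = ((B * x ^ d : ℕ) : ℤ) + ((cf f * x ^ d : ℕ) : ℤ) := by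
        rw [hk, hK0]; push_cast; ring
      omega
    rw [← wt_int h k M (by omega) _ h2]
    push_cast
    rfl
  have hstep1 : ∑ a ∈ Icc (-(A : ℤ)) A, (∑ n ∈ Icc 1 x, hv h k (a + σ * f.eval (n : ℤ))) ^ 2 ≤
      ∑ a : ZMod M, (∑ n ∈ Icc 1 x, wt h k M (a + ((σ * f.eval (n : ℤ) : ℤ) : ZMod M))) ^ 2 := by
    have hAk : 2 * A < M := by
      have h4 : B * x ^ d ≤ k := by rw [hk, hK0]; nlinarith [Nat.zero_le (cf f * x ^ d)]
      omega
    calc _ = ∑ a ∈ Icc (-(A : ℤ)) A, (fun b : ZMod M => (∑ n ∈ Icc 1 x, wt h k M (b + ((σ * f.eval (n : ℤ) : ℤ) : ZMod M))) ^ 2)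
            (a : ZMod M) := by
          apply sum_congr rfl
          intro a ha
          simp only
          congr 1
          exact sum_congr rfl fun n hn => hpt a ha n hn
      _ = ∑ b ∈ (Icc (-(A : ℤ)) A).image (fun a : ℤ => (a : ZMod M)),
            (∑ n ∈ Icc 1 x, wt h k M (b + ((σ * f.eval (n : ℤ) : ℤ) : ZMod M))) ^ 2 := by
          rw [sum_image]
          intro a ha b hb hab
          rw [mem_coe, mem_Icc] at ha hb
          have h5 := (ZMod.intCast_eq_intCast_iff_dvd_sub a b M).1 hab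
          obtain ⟨c, hc⟩ := h5
          have h6 : (M : ℤ) * c = b - a := hc.symm
          rcases lt_trichotomy c 0 with h7 | h7 | h7
          · exfalso
            nlinarith
          · rw [h7, mul_zero] at h6
            linarith
          · exfalso
            nlinarith
      _ ≤ _ := sum_le_sum_of_subset_of_nonneg (subset_univ _) fun _ _ _ => sq_nonneg _
  -- Fourier
  have hid := sum_shift_sq (M := M) (wt h k M) (Icc 1 x) (fun n => ((σ * f.eval (n : ℤ) : ℤ) : ZMod M))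
  set W : ZMod M → ℝ := fun ξ => ‖∑ n ∈ Icc 1 x, ee ((ξ.val : ℝ) * ((f.eval (n : ℤ) : ℤ) : ℝ) / M)‖ with hW
  set u : ZMod M → ℝ := fun ξ => ‖hat (wt h k M) ξ‖ ^ 2 * (Real.log k / k) ^ 2 with hu
  set v : ZMod M → ℝ := fun ξ => W ξ / x with hv'
  have hu0 : ∀ ξ, 0 ≤ u ξ := fun ξ => by simp only [hu]; positivity
  have hv0 : ∀ ξ, 0 ≤ v ξ := fun ξ => by simp only [hv', hW]; positivity
  have hv1 : ∀ ξ, v ξ ≤ 1 := by
    intro ξ
    simp only [hv', hW]
    rw [div_le_one hxr]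
    calc _ ≤ ∑ n ∈ Icc 1 x, ‖ee ((ξ.val : ℝ) * ((f.eval (n : ℤ) : ℤ) : ℝ) / M)‖ := norm_sum_le _ _
      _ = x := by simp [norm_ee]
  have hsum : ∑ ξ : ZMod M, ‖hat (wt h k M) ξ‖ ^ 2 *
      ‖∑ n ∈ Icc 1 x, (ZMod.stdAddChar (ξ * ((σ * f.eval (n : ℤ) : ℤ) : ZMod M)) : ℂ)‖ ^ 2 =
      ((k / Real.log k) ^ 2 * (x : ℝ) ^ 2) * ∑ ξ, u ξ * v ξ ^ 2 := by
    rw [mul_sum]
    apply sum_congr rfl
    intro ξ _
    rw [weyl_sign f σ hσ]
    simp only [hu, hv', hW]
    field_simp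
  -- the two ranges
  have hcv : ∀ w : ℝ, 1 ≤ w → (#((univ : Finset (ZMod M)).filter fun ξ => 1 ≤ w * v ξ) : ℝ) ≤ K * w ^ m := by
    intro w hw
    have h1 := hcount x M hx1 (by omega) hM3 w hw
    refine le_trans ?_ h1
    apply Nat.cast_le.2
    rw [← card_image_of_injective ((univ : Finset (ZMod M)).filter fun ξ => 1 ≤ w * v ξ) (ZMod.val_injective M)]
    apply card_le_card
    intro t ht
    rw [mem_image] at ht
    obtain ⟨ξ, hξ, rfl⟩ := ht
    rw [mem_filter] at hξ ⊢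
    refine ⟨mem_range.2 (ZMod.val_lt ξ), ?_⟩
    have h2 := hξ.2
    simp only [hv', hW] at h2
    rw [← mul_div_assoc, le_div_iff₀ hxr, one_mul] at h2
    exact h2
  have hsmall := small_points (univ : Finset (ZMod M)) u v hu0 hv0 C hC K m hK
    (fun X _ hX => hfew k hkk0 M (by omega) (by omega) h hh X hX) hcv J
  have hbig : ∑ ξ ∈ (univ : Finset (ZMod M)).filter (fun ξ => ¬ v ξ < (1 / 2) ^ J), u ξ * v ξ ^ 2 ≤ ε' / 2 := by
    have h1 : ∀ ξ ∈ (univ : Finset (ZMod M)).filter (fun ξ => ¬ v ξ < (1 / 2) ^ J), u ξ * v ξ ^ 2 ≤ ε2 := by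
      intro ξ hξ
      rw [mem_filter] at hξ
      have h2 := hξ.2
      push Not at h2
      have h3 : (x : ℝ) ≤ (2 : ℝ) ^ J * W ξ := by
        simp only [hv'] at h2
        rw [le_div_iff₀ hxr] at h2
        calc (x : ℝ) = (2 : ℝ) ^ J * ((1 / 2) ^ J * x) := by
              rw [← mul_assoc, ← mul_pow]; norm_num
          _ ≤ _ := mul_le_mul_of_nonneg_left h2 (by positivity)
      have h4 := hmaj k hkk1 M (by omega) ξ.val (hnear x M hx1 (by omega) hM3 ξ.val (ZMod.val_lt ξ) h3)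
      have h5 : u ξ ≤ ε2 := by
        simp only [hu]
        rw [hat_wt h k (by omega)]
        have h6 : ‖∑ p ∈ PP k, (h p : ℂ) * ee ((ξ.val : ℝ) * p / M)‖ ^ 2 ≤ (ε2 * (k / Real.log k)) ^ 2 :=
          pow_le_pow_left₀ (norm_nonneg _) h4 2
        calc _ ≤ (ε2 * (k / Real.log k)) ^ 2 * (Real.log k / k) ^ 2 :=
              mul_le_mul_of_nonneg_right h6 (by positivity)
          _ = ε2 * ε2 := by field_simp
          _ ≤ ε2 * 1 := mul_le_mul_of_nonneg_left (min_le_left _ _) hε20.le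
          _ = _ := mul_one _
      calc u ξ * v ξ ^ 2 ≤ ε2 * 1 := mul_le_mul h5 (pow_le_one₀ (hv0 ξ) (hv1 ξ)) (by positivity) hε20.le
        _ = _ := mul_one _
    have h2 : (#((univ : Finset (ZMod M)).filter (fun ξ => ¬ v ξ < (1 / 2) ^ J)) : ℝ) ≤ K * ((2 : ℝ) ^ J) ^ m := by
      refine le_trans ?_ (hcv ((2 : ℝ) ^ J) (one_le_pow₀ (by norm_num)))
      apply Nat.cast_le.2
      apply card_le_card
      intro ξ hξ
      rw [mem_filter] at hξ ⊢
      refine ⟨hξ.1, ?_⟩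
      have h3 := hξ.2
      push Not at h3
      calc (1 : ℝ) = (2 : ℝ) ^ J * (1 / 2) ^ J := by rw [← mul_pow]; norm_num
        _ ≤ _ := mul_le_mul_of_nonneg_left h3 (by positivity)
    calc _ ≤ ∑ ξ ∈ (univ : Finset (ZMod M)).filter (fun ξ => ¬ v ξ < (1 / 2) ^ J), ε2 := sum_le_sum h1
      _ = (#((univ : Finset (ZMod M)).filter (fun ξ => ¬ v ξ < (1 / 2) ^ J)) : ℝ) * ε2 := by
          rw [sum_const, nsmul_eq_mul]
      _ ≤ (K * ((2 : ℝ) ^ J) ^ m) * (ε' / (2 * (K * ((2 : ℝ) ^ J) ^ m + 1))) :=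
          mul_le_mul h2 (min_le_right _ _) hε20.le (by positivity)
      _ ≤ ε' / 2 := by
          rw [← mul_div_assoc, div_le_iff₀ (by positivity)]
          have : (0 : ℝ) ≤ K * ((2 : ℝ) ^ J) ^ m := by positivity
          nlinarith
  have htot : ∑ ξ, u ξ * v ξ ^ 2 ≤ ε' := by
    rw [← sum_filter_add_sum_filter_not (univ : Finset (ZMod M)) (fun ξ => v ξ < (1 / 2) ^ J)]
    linarith
  -- conclusion
  have hfin : ∑ a : ZMod M, (∑ n ∈ Icc 1 x, wt h k M (a + ((σ * f.eval (n : ℤ) : ℤ) : ZMod M))) ^ 2 ≤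
      ((k / Real.log k) ^ 2 * (x : ℝ) ^ 2) * ε' / M := by
    rw [le_div_iff₀ hMr, mul_comm _ (M : ℝ), hid, hsum]
    exact mul_le_mul_of_nonneg_left htot (by positivity)
  refine hstep1.trans (hfin.trans ?_)
  have hkM : (k : ℝ) ≤ M := by exact_mod_cast (by omega : k ≤ M)
  have hlkx : Real.log x ≤ Real.log k := Real.log_le_log hxr (by exact_mod_cast hxk)
  calc ((k / Real.log k) ^ 2 * (x : ℝ) ^ 2) * ε' / M ≤ ((k / Real.log k) ^ 2 * (x : ℝ) ^ 2) * ε' / k := by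
        apply div_le_div_of_nonneg_left (by positivity) hkr hkM
    _ = k * (x : ℝ) ^ 2 * ε' / (Real.log k) ^ 2 := by field_simp
    _ ≤ k * (x : ℝ) ^ 2 * ε' / (Real.log x) ^ 2 := by
        apply div_le_div_of_nonneg_left (by positivity) (by positivity)
        exact pow_le_pow_left₀ hlx.le hlkx 2
    _ = ε * (x : ℝ) ^ d * (x / Real.log x) ^ 2 := by
        rw [hk, hε']
        push_cast
        field_simp


/-- the small primes -/
lemma small_primesZ (g : ℕ → ℤ) (k A x : ℕ) :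
    ∑ a ∈ Icc (-(A : ℤ)) A, (#((Icc 1 x).filter fun n => (a + g n).toNat.Prime ∧ (a + g n).toNat ^ 2 ≤ k) : ℝ) ≤
      x * Real.sqrt k := by
  have h1 : ∑ a ∈ Icc (-(A : ℤ)) A, #((Icc 1 x).filter fun n => (a + g n).toNat.Prime ∧ (a + g n).toNat ^ 2 ≤ k) =
      ∑ n ∈ Icc 1 x, #((Icc (-(A : ℤ)) A).filter fun a : ℤ => (a + g n).toNat.Prime ∧ (a + g n).toNat ^ 2 ≤ k) := by
    simp only [card_filter]
    rw [sum_comm]
  have h2 : ∀ n ∈ Icc 1 x, #((Icc (-(A : ℤ)) A).filter fun a : ℤ => (a + g n).toNat.Prime ∧ (a + g n).toNat ^ 2 ≤ k) ≤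
      Nat.sqrt k := by
    intro n _
    rw [← Nat.card_Icc 1 (Nat.sqrt k) |>.trans (by omega : Nat.sqrt k + 1 - 1 = Nat.sqrt k)]
    apply card_le_card_of_injOn (fun a : ℤ => (a + g n).toNat)
    · intro a ha
      rw [mem_coe, mem_filter] at ha
      rw [mem_coe, mem_Icc]
      exact ⟨ha.2.1.one_lt.le, Nat.le_sqrt'.2 ha.2.2⟩
    · intro a ha b hb hab
      rw [mem_coe, mem_filter] at ha hb
      have e1 := ha.2.1.one_lt
      have e2 := hb.2.1.one_lt
      simp only at hab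
      omega
  have h3 : ∑ a ∈ Icc (-(A : ℤ)) A, #((Icc 1 x).filter fun n => (a + g n).toNat.Prime ∧ (a + g n).toNat ^ 2 ≤ k) ≤
      x * Nat.sqrt k := by
    rw [h1]
    refine (sum_le_sum h2).trans ?_
    rw [sum_const, Nat.card_Icc, smul_eq_mul]
    simp
  calc _ ≤ ((x * Nat.sqrt k : ℕ) : ℝ) := by exact_mod_cast h3
    _ ≤ x * Real.sqrt k := by
        push_cast
        exact mul_le_mul_of_nonneg_left Real.nat_sqrt_le_real_sqrt (Nat.cast_nonneg _)

/-- almost all constant terms, one sum -/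
theorem singleZ (f : ℤ[X]) (hd : 1 ≤ f.natDegree)
    (hl : 0 < f.leadingCoeff) (B : ℕ) (hB : 1 ≤ B) (ε : ℝ) (hε : 0 < ε) :
    ∃ Q0 : ℕ, ∀ h : ℕ → ℝ, (∀ p, |h p| ≤ 1) → MZ Q0 h → ∃ x0 : ℕ, ∀ x : ℕ, x0 ≤ x →
      ∀ σ : ℤ, (σ = 1 ∨ σ = -1) → ∀ A : ℕ, A ≤ B * x ^ f.natDegree →
      (#((Icc (-(A : ℤ)) A).filter fun a : ℤ => ε * (x / Real.log x) <
        |∑ n ∈ Icc 1 x, pv h (a + σ * f.eval (n : ℤ))|) : ℝ) ≤ ε * (x : ℝ) ^ f.natDegree := by
  classical
  set d := f.natDegree with hdd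
  obtain ⟨Q0, h0⟩ := l2Z f hd hl B hB (ε ^ 3 / 8) (by positivity)
  refine ⟨Q0, fun h hh hz => ?_⟩
  obtain ⟨x1, h1⟩ := h0 h hh hz
  set K0 : ℕ := B + cf f with hK0
  obtain ⟨x2, h2⟩ := log_sqrt (Real.sqrt K0) (ε ^ 2 / 4) (by positivity)
  refine ⟨max (max x1 x2) 2, fun x hx σ hσ A hA => ?_⟩
  have hx2 : 2 ≤ x := (le_max_right _ _).trans hx
  have hxx1 : x1 ≤ x := (le_max_left _ _).trans ((le_max_left _ _).trans hx)
  have hxx2 : x2 ≤ x := (le_max_right _ _).trans ((le_max_left _ _).trans hx)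
  have hl2 := h1 x hxx1 σ hσ A hA
  have hls := h2 x hxx2
  set k : ℕ := K0 * x ^ d with hk
  have hxr : (0 : ℝ) < x := by exact_mod_cast (by omega : 0 < x)
  have hlx : 0 < Real.log x := Real.log_pos (by exact_mod_cast (by omega : 1 < x))
  have hX : 0 < (x : ℝ) / Real.log x := by positivity
  have hcf : ∀ n ∈ Icc 1 x, |f.eval (n : ℤ)| ≤ ((cf f * x ^ d : ℕ) : ℤ) := by
    intro n hn
    rw [mem_Icc] at hn
    refine (abs_eval_le f n hn.1).trans ?_
    push_cast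
    apply mul_le_mul_of_nonneg_left _ (by positivity)
    have : (n : ℤ) ≤ x := by exact_mod_cast hn.2
    exact pow_le_pow_left₀ (by positivity) this _
  set N : ℤ → ℝ := fun a => (#((Icc 1 x).filter fun n : ℕ => (a + σ * f.eval (n : ℤ)).toNat.Prime ∧
    (a + σ * f.eval (n : ℤ)).toNat ^ 2 ≤ k) : ℝ) with hN
  have hdiff : ∀ a ∈ Icc (-(A : ℤ)) A, |∑ n ∈ Icc 1 x, pv h (a + σ * f.eval (n : ℤ))| ≤
      |∑ n ∈ Icc 1 x, hv h k (a + σ * f.eval (n : ℤ))| + N a := by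
    intro a ha
    rw [mem_Icc] at ha
    have e1 : ∑ n ∈ Icc 1 x, pv h (a + σ * f.eval (n : ℤ)) =
        ∑ n ∈ Icc 1 x, hv h k (a + σ * f.eval (n : ℤ)) +
        ∑ n ∈ Icc 1 x, (pv h (a + σ * f.eval (n : ℤ)) - hv h k (a + σ * f.eval (n : ℤ))) := by
      rw [← sum_add_distrib]
      apply sum_congr rfl
      intro n _
      ring
    rw [e1]
    refine (abs_add_le _ _).trans ?_
    apply add_le_add le_rfl
    refine (abs_sum_le_sum_abs _ _).trans ?_
    rw [hN]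
    simp only
    rw [card_filter]
    push_cast
    apply sum_le_sum
    intro n hn
    have h3 : (a + σ * f.eval (n : ℤ)) ≤ k := by
      have h4 : |σ * f.eval (n : ℤ)| ≤ ((cf f * x ^ d : ℕ) : ℤ) := by
        rw [abs_mul]
        have : |σ| = 1 := by rcases hσ with rfl | rfl <;> rfl
        rw [this, one_mul]
        exact hcf n hn
      have h5 := (abs_le.1 h4).2
      have h6 : a ≤ ((B * x ^ d : ℕ) : ℤ) := ha.2.trans (by exact_mod_cast hA)
      have h7 : (k : ℤ) = ((B * x ^ d : ℕ) : ℤ) + ((cf f * x ^ d : ℕ) : ℤ) := by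
        rw [hk, hK0]; push_cast; ring
      omega
    set z : ℤ := (a : ℤ) + σ * f.eval (n : ℤ) with hz'
    unfold pv hv
    by_cases hp : z.toNat.Prime
    · by_cases hz2 : z.toNat ^ 2 ≤ k
      · have h8 : z.toNat ∉ PP k := by
          intro h9
          rw [PP, mem_filter] at h9
          have := h9.2.2
          omega
        have h9 : (if z.toNat.Prime ∧ z.toNat ^ 2 ≤ k then (1 : ℝ) else 0) = 1 := if_pos ⟨hp, hz2⟩
        rw [h9, if_pos hp, if_neg h8, sub_zero]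
        exact hh _
      · have h8 : z.toNat ∈ PP k := by
          rw [PP, mem_filter, mem_Icc]
          exact ⟨⟨hp.one_lt.le, by omega⟩, hp, by omega⟩
        rw [if_pos hp, if_pos h8, sub_self, abs_zero]
        split_ifs <;> norm_num
    · have h8 : z.toNat ∉ PP k := by
        intro h9
        rw [PP, mem_filter] at h9
        exact hp h9.2.1
      rw [if_neg hp, if_neg h8, sub_self, abs_zero]
      split_ifs <;> norm_num
  have hE1 : (#((Icc (-(A : ℤ)) A).filter fun a : ℤ => ε / 2 * (x / Real.log x) ≤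
      |∑ n ∈ Icc 1 x, hv h k (a + σ * f.eval (n : ℤ))|) : ℝ) ≤ ε / 2 * (x : ℝ) ^ d := by
    refine (markov (Icc (-(A : ℤ)) A) (fun a => (∑ n ∈ Icc 1 x, hv h k (a + σ * f.eval (n : ℤ))) ^ 2)
      (fun _ _ => sq_nonneg _) ((ε / 2 * (x / Real.log x)) ^ 2) _ (by positivity) hl2 _ ?_).trans ?_
    · intro a _ ha
      rw [← sq_abs (∑ n ∈ Icc 1 x, hv h k (a + σ * f.eval (n : ℤ)))]
      exact pow_le_pow_left₀ (by positivity) ha 2
    · apply le_of_eq
      field_simp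
      ring
  have hE2 : (#((Icc (-(A : ℤ)) A).filter fun a : ℤ => ε / 2 * (x / Real.log x) ≤ N a) : ℝ) ≤ ε / 2 * (x : ℝ) ^ d := by
    refine (markov (Icc (-(A : ℤ)) A) N (fun _ _ => Nat.cast_nonneg _) (ε / 2 * (x / Real.log x)) _ (by positivity)
      (small_primesZ (fun n => σ * f.eval (n : ℤ)) k A x) _ (fun a _ ha => ha)).trans ?_
    rw [div_le_iff₀ (by positivity)]
    have e1 : Real.sqrt k = Real.sqrt K0 * Real.sqrt ((x : ℝ) ^ d) := by
      rw [hk]; push_cast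
      rw [Real.sqrt_mul (Nat.cast_nonneg _)]
    have e2 : Real.sqrt x ≤ Real.sqrt ((x : ℝ) ^ d) := by
      apply Real.sqrt_le_sqrt
      calc (x : ℝ) = x ^ 1 := by ring
        _ ≤ _ := pow_le_pow_right₀ (by exact_mod_cast (by omega : 1 ≤ x)) hd
    have e3 : Real.sqrt ((x : ℝ) ^ d) * Real.sqrt ((x : ℝ) ^ d) = (x : ℝ) ^ d := Real.mul_self_sqrt (by positivity)
    have e4 : Real.log x * Real.sqrt K0 * Real.sqrt ((x : ℝ) ^ d) ≤ ε ^ 2 / 4 * (x : ℝ) ^ d := by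
      calc Real.log x * Real.sqrt K0 * Real.sqrt ((x : ℝ) ^ d) ≤ ε ^ 2 / 4 * Real.sqrt x * Real.sqrt ((x : ℝ) ^ d) :=
            mul_le_mul_of_nonneg_right hls (Real.sqrt_nonneg _)
        _ ≤ ε ^ 2 / 4 * Real.sqrt ((x : ℝ) ^ d) * Real.sqrt ((x : ℝ) ^ d) := by
            apply mul_le_mul_of_nonneg_right _ (Real.sqrt_nonneg _)
            exact mul_le_mul_of_nonneg_left e2 (by positivity)
        _ = _ := by rw [mul_assoc, e3]
    rw [e1]
    have e5 : (x : ℝ) * (Real.sqrt K0 * Real.sqrt ((x : ℝ) ^ d)) =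
        (Real.log x * Real.sqrt K0 * Real.sqrt ((x : ℝ) ^ d)) * (x / Real.log x) := by
      field_simp
    have e6 : ε / 2 * (x : ℝ) ^ d * (ε / 2 * (x / Real.log x)) = (ε ^ 2 / 4 * (x : ℝ) ^ d) * (x / Real.log x) := by
      ring
    rw [e5, e6]
    exact mul_le_mul_of_nonneg_right e4 hX.le
  have hsub : (Icc (-(A : ℤ)) A).filter (fun a : ℤ => ε * (x / Real.log x) <
      |∑ n ∈ Icc 1 x, pv h (a + σ * f.eval (n : ℤ))|) ⊆
      ((Icc (-(A : ℤ)) A).filter fun a : ℤ => ε / 2 * (x / Real.log x) ≤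
        |∑ n ∈ Icc 1 x, hv h k (a + σ * f.eval (n : ℤ))|) ∪
      ((Icc (-(A : ℤ)) A).filter fun a : ℤ => ε / 2 * (x / Real.log x) ≤ N a) := by
    intro a ha
    rw [mem_filter] at ha
    rw [mem_union, mem_filter, mem_filter]
    by_contra hcon
    push Not at hcon
    have h3 := hcon.1 ha.1
    have h4 := hcon.2 ha.1
    have h5 := hdiff a ha.1
    have h6 := ha.2
    linarith
  have hc : (#((Icc (-(A : ℤ)) A).filter (fun a : ℤ => ε * (x / Real.log x) <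
      |∑ n ∈ Icc 1 x, pv h (a + σ * f.eval (n : ℤ))|)) : ℝ) ≤ _ :=
    Nat.cast_le.2 ((card_le_card hsub).trans (card_union_le _ _))
  refine hc.trans ?_
  push_cast
  linarith

end Pool.Agent.U637.NR
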