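import Pool.Agent.TH204.HP.H1

/-! The singular product is bounded below for almost all constant terms. -/

set_option autoImplicit false

namespace Pool.Agent.U637.NR
open Finset Polynomial
open Pool.Agent.TH204.WR
open Pool.Agent.H373R2.T7 (pz Vz mem_pz)
open Pool.Agent.TH892.SW (Vz_pos)

open Classical in
theorem hh_low (F : ℤ[X]) (hd : 1 ≤ F.natDegree) (δ : ℝ) (hδ : 0 < δ) : ∃ η : ℝ, 0 < η ∧ ∃ y : ℕ, ∀ x z : ℕ,
    1 ≤ x → z ^ 3 ≤ x → y ≤ z →
    (#((Icc (-(x : ℤ)) x).filter (fun t => (∀ p : ℕ, p.Prime → rho F t p < p) ∧ hh F t z < η)) : ℝ) ≤ δ * x := by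
  have hl0 : F.leadingCoeff ≠ 0 := by
    rw [Ne, leadingCoeff_eq_zero]
    rintro rfl
    simp at hd
  obtain ⟨y0, hy0⟩ := exists_nat_ge (1024 * (F.natDegree : ℝ) ^ 2 / δ)
  obtain ⟨y, hy⟩ : ∃ y : ℕ, y = F.leadingCoeff.natAbs + 4 * F.natDegree + 64 * F.natDegree ^ 2 + y0 + 1 := ⟨_, rfl⟩
  have hy1 : 1 ≤ y := by omega
  have hyr : (1 : ℝ) ≤ y := by exact_mod_cast hy1
  have hP0 : 0 < ∏ p ∈ pz y, (1 / (p : ℝ)) := prod_pos fun p hp => by
    have : (0 : ℝ) < p := by exact_mod_cast (mem_pz.1 hp).2.pos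
    positivity
  have hV := Vz_pos hy1
  refine ⟨(Vz y)⁻¹ * (∏ p ∈ pz y, (1 / (p : ℝ))) / 2, by positivity, y, fun x z hx hz3 hyz => ?_⟩
  have h2 := tail_second F x y z hd (by omega) hl0 hy1 hx hz3 hyz
  have hxr : (1 : ℝ) ≤ x := by exact_mod_cast hx
  have hsub : (Icc (-(x : ℤ)) x).filter (fun t => (∀ p : ℕ, p.Prime → rho F t p < p) ∧
      hh F t z < (Vz y)⁻¹ * (∏ p ∈ pz y, (1 / (p : ℝ))) / 2) ⊆
      (Icc (-(x : ℤ)) x).filter (fun t => 1 / 8 ≤ |∑ p ∈ (Ioc y z).filter Nat.Prime, xp F t p|) := by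
    intro t ht
    rw [mem_filter] at ht ⊢
    refine ⟨ht.1, ?_⟩
    by_contra hcon
    rw [not_le] at hcon
    have h3 := hh_close F t y z hd (by omega) hl0 hyz (1 / 8) (by
      have : ((64 * F.natDegree ^ 2 : ℕ) : ℝ) ≤ y := by exact_mod_cast (by omega : 64 * F.natDegree ^ 2 ≤ y)
      push_cast at this
      linarith) (by omega) (by norm_num) hcon.le
    have h4 : ∏ p ∈ pz y, (1 / (p : ℝ)) ≤ ∏ p ∈ pz y, (1 - (rho F t p : ℝ) / p) := by
      apply prod_le_prod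
      · intro p hp
        have : (0 : ℝ) < p := by exact_mod_cast (mem_pz.1 hp).2.pos
        positivity
      · intro p hp
        have hp0 : (0 : ℝ) < p := by exact_mod_cast (mem_pz.1 hp).2.pos
        have h5 := ht.2.1 p (mem_pz.1 hp).2
        have h6 : (rho F t p : ℝ) + 1 ≤ p := by exact_mod_cast h5
        rw [← div_self hp0.ne', ← sub_div]
        exact div_le_div_of_nonneg_right (by rw [div_self hp0.ne']; linarith) hp0.le
    have h5 : (Vz y)⁻¹ * ∏ p ∈ pz y, (1 / (p : ℝ)) ≤ hh F t y := mul_le_mul_of_nonneg_left h4 (inv_nonneg.2 hV.le)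
    have h6 := (abs_le.1 h3).1
    have h7 := ht.2.2
    linarith
  have h3 : (#((Icc (-(x : ℤ)) x).filter (fun t => 1 / 8 ≤ |∑ p ∈ (Ioc y z).filter Nat.Prime, xp F t p|)) : ℝ) * (1 / 8) ^ 2 ≤
      16 * (F.natDegree : ℝ) ^ 2 * (x / y) := by
    refine le_trans ?_ h2
    calc (#((Icc (-(x : ℤ)) x).filter (fun t => 1 / 8 ≤ |∑ p ∈ (Ioc y z).filter Nat.Prime, xp F t p|)) : ℝ) * (1 / 8) ^ 2
        = ∑ t ∈ (Icc (-(x : ℤ)) x).filter (fun t => 1 / 8 ≤ |∑ p ∈ (Ioc y z).filter Nat.Prime, xp F t p|), (1 / 8 : ℝ) ^ 2 := by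
          rw [sum_const, nsmul_eq_mul]
      _ ≤ ∑ t ∈ (Icc (-(x : ℤ)) x).filter (fun t => 1 / 8 ≤ |∑ p ∈ (Ioc y z).filter Nat.Prime, xp F t p|),
            (∑ p ∈ (Ioc y z).filter Nat.Prime, xp F t p) ^ 2 := by
          apply sum_le_sum
          intro t ht
          rw [← sq_abs (∑ p ∈ (Ioc y z).filter Nat.Prime, xp F t p)]
          exact pow_le_pow_left₀ (by norm_num) (mem_filter.1 ht).2 2
      _ ≤ _ := sum_le_sum_of_subset_of_nonneg (filter_subset _ _) fun _ _ _ => sq_nonneg _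
  refine (Nat.cast_le.2 (card_le_card hsub)).trans ?_
  have h4 : 1024 * (F.natDegree : ℝ) ^ 2 ≤ δ * y := by
    have h5 : (y0 : ℝ) ≤ y := by exact_mod_cast (by omega : y0 ≤ y)
    have h6 := hy0.trans h5
    rw [div_le_iff₀ hδ] at h6
    linarith
  have hy0' : (0 : ℝ) < y := by linarith
  have h5 : 1024 * (F.natDegree : ℝ) ^ 2 * (x / y) ≤ δ * x := by
    rw [← mul_div_assoc, div_le_iff₀ hy0']
    nlinarith
  linarith

end Pool.Agent.U637.NR
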